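import Pool.Agent.H295R2.SI.Defs

open Complex Filter Topology Set MeasureTheory
open scoped BigOperators ComplexConjugate

namespace H804JJ

open H370 H295SI

/-- the mean square of the zero sum on short intervals -/
theorem jjShort (hE : ExplShort) (hO : OuterShort) : JJShort := by
  intro F hF h ε η hε hεh hh1 hη
  have hh0 : 0 < h := hε.trans hεh
  obtain ⟨a, ha, C, T0, hC, hT0, hEF⟩ := hE F hF
  obtain ⟨Co, T1, hCo, hT1, hout⟩ := hO F hF
  set S := ∑' n : ℕ, 1 / (n : ℝ) ^ 2 with hS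
  have hS0 : 0 < S := sum_inv_sq.tsum_pos (fun n => by positivity) 1 (by norm_num)
  -- eventual facts
  have ev1 : ∀ᶠ T : ℝ in atTop, 8 * T ^ (h - ε / 2) * (1 + Real.log T) ≤ η * T ^ h := by
    have h1 : (fun T : ℝ => 1 + Real.log T) =o[atTop] fun T : ℝ => T ^ (ε / 2) := by
      have h2 : (fun _ : ℝ => (1 : ℝ)) =o[atTop] fun T : ℝ => T ^ (ε / 2) := by
        rw [Asymptotics.isLittleO_const_left]
        right
        exact tendsto_norm_atTop_atTop.comp (tendsto_rpow_atTop (by positivity))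
      exact h2.add (isLittleO_log_rpow_atTop (by positivity))
    have h3 := h1.bound (show 0 < η / 8 by positivity)
    filter_upwards [h3, eventually_ge_atTop 1] with T hT hT1
    have hT0 : (0 : ℝ) < T := by linarith
    have hl : 0 ≤ Real.log T := Real.log_nonneg hT1
    rw [Real.norm_of_nonneg (by positivity), Real.norm_of_nonneg (by positivity)] at hT
    calc 8 * T ^ (h - ε / 2) * (1 + Real.log T) ≤ 8 * T ^ (h - ε / 2) * (η / 8 * T ^ (ε / 2)) := by
          gcongr
      _ = η * (T ^ (h - ε / 2) * T ^ (ε / 2)) := by ring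
      _ = η * T ^ h := by
          rw [← Real.rpow_add hT0]; congr 2; ring
  have ev2 : ∀ᶠ T : ℝ in atTop, 2 * S * (Real.exp (4 + 2 * Real.log T) *
      Real.exp (-(ε / 2 * Real.log T) ^ 2 / 4)) ≤ 1 := by
    -- exponent: 4 + 2L - ε²L²/16 + log(2S) ≤ 0 for large L
    have h1 : ∀ᶠ L : ℝ in atTop, Real.log (2 * S) + 4 + 2 * L - (ε / 2 * L) ^ 2 / 4 ≤ 0 := by
      have h2 : ∀ᶠ L : ℝ in atTop, 3 * 16 / ε ^ 2 ≤ L := eventually_ge_atTop _
      have h3 : ∀ᶠ L : ℝ in atTop, Real.log (2 * S) + 4 ≤ L := eventually_ge_atTop _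
      filter_upwards [h2, h3, eventually_ge_atTop 0] with L h2 h3 h4
      have h5 : 3 * L ≤ (ε / 2 * L) ^ 2 / 4 := by
        rw [div_le_iff₀ (by positivity)] at h2
        nlinarith
      linarith
    filter_upwards [Real.tendsto_log_atTop.eventually h1] with T hT
    have h6 : 2 * S = Real.exp (Real.log (2 * S)) := (Real.exp_log (by positivity)).symm
    rw [h6, ← Real.exp_add, ← Real.exp_add]
    apply Real.exp_le_one_iff.mpr
    linarith
  have ev3 : ∀ᶠ T : ℝ in atTop, T ^ (h - ε) * (Real.log T) ^ 3 ≤ T ^ h := by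
    have h1 : (fun T : ℝ => (Real.log T) ^ 3) =o[atTop] fun T : ℝ => T ^ ε :=
      (isLittleO_log_rpow_atTop (r := ε / 3) (by positivity)).pow (by norm_num : 0 < 3) |>.trans_eventuallyEq
        (by
          filter_upwards [eventually_gt_atTop 0] with T hT
          rw [← Real.rpow_natCast, ← Real.rpow_mul hT.le]
          congr 1
          push_cast
          ring)
    have h3 := h1.bound (show (0 : ℝ) < 1 by norm_num)
    filter_upwards [h3, eventually_ge_atTop 1] with T hT hT1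
    have hT0 : (0 : ℝ) < T := by linarith
    have hl : 0 ≤ Real.log T := Real.log_nonneg hT1
    rw [Real.norm_of_nonneg (by positivity), Real.norm_of_nonneg (by positivity), one_mul] at hT
    calc T ^ (h - ε) * (Real.log T) ^ 3 ≤ T ^ (h - ε) * T ^ ε := by gcongr
      _ = T ^ h := by rw [← Real.rpow_add hT0]; congr 1; ring
  have ev4 : ∀ᶠ T : ℝ in atTop, 2 * Real.log T + 3 ≤ T ^ h := by
    have h1 := (isLittleO_log_rpow_atTop hh0).bound (show (0 : ℝ) < 1 / 4 by norm_num)
    have h2 : ∀ᶠ T : ℝ in atTop, 6 ≤ T ^ h := (tendsto_rpow_atTop hh0).eventually_ge_atTop 6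
    filter_upwards [h1, h2, eventually_ge_atTop 1] with T hT hT2 hT1
    have hl : 0 ≤ Real.log T := Real.log_nonneg hT1
    rw [Real.norm_of_nonneg hl, Real.norm_of_nonneg (by positivity)] at hT
    linarith
  obtain ⟨T2, hT2⟩ := (((ev1.and ev2).and ev3).and ev4).exists_forall_of_atTop
  set CP := 2 * S with hCP
  refine ⟨2 * CP * Real.exp 2, (1 + η) / (2 * Real.pi) * (1 + 1 / η) + (1 + 1 / η) * C ^ 2 + Co,
    max T0 (max T1 T2), by positivity, by positivity, hT0.trans (le_max_left _ _),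
    fun T hT H hTH hHT => ?_⟩
  have hTT0 : T0 ≤ T := (le_max_left _ _).trans hT
  have hTT1 : T1 ≤ T := (le_max_left _ _).trans ((le_max_right _ _).trans hT)
  obtain ⟨⟨⟨e1, e2⟩, e3⟩, e4⟩ := hT2 T ((le_max_right _ _).trans ((le_max_right _ _).trans hT))
  have hT10 : 10 ≤ T := hT0.trans hTT0
  have hTpos : 0 < T := by linarith
  have hL1 : 1 ≤ Real.log T := by
    rw [Real.le_log_iff_exp_le hTpos]
    have := Real.exp_one_lt_d9
    linarith
  have hH3 : 3 ≤ H := by linarith
  have hHpos : 0 < H := by linarith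
  obtain ⟨U1, U2, hU1, hU1', hU2', hU2, hmain⟩ := hEF T hTT0 H hH3 hHT
  refine ⟨U1, U2, hU1, hU1', hU2', hU2, fun u hu hu1 => ?_⟩
  have hU : 1 ≤ U1 := by linarith
  set L := Real.log T with hL
  have huL : u ≤ L := by nlinarith
  have hab : T + L ≤ T + H - L := by linarith
  have hlen : T + H - L - (T + L) ≤ H := by linarith
  have hlen0 : 0 ≤ T + H - L - (T + L) := by linarith
  -- split
  have hint := AA_sq_int hF (U2 := U2) hU u
  have hsplit : JJ F U1 U2 u = (∫ t in (T + L)..(T + H - L), ‖AA F U1 U2 u t‖ ^ 2) +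
      ∫ t in (Set.Icc (T + L) (T + H - L))ᶜ, ‖AA F U1 U2 u t‖ ^ 2 := by
    unfold JJ
    rw [← integral_add_compl measurableSet_Icc hint, intervalIntegral.integral_of_le hab,
      integral_Icc_eq_integral_Ioc]
  -- outer
  have houter := hout T hTT1 H hH3 hHT U1 U2 hU1 hU2 u hu
  have houter2 : ∫ t in (Set.Icc (T + L) (T + H - L))ᶜ, ‖AA F U1 U2 u t‖ ^ 2 ≤ Co * H := by
    refine houter.trans ?_
    have h1 : Real.exp u ≤ T ^ (h - ε) := by
      rw [Real.rpow_def_of_pos hTpos]
      apply Real.exp_le_exp.mpr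
      linarith
    calc Co * Real.exp u * L ^ 3 ≤ Co * T ^ (h - ε) * L ^ 3 := by gcongr
      _ = Co * (T ^ (h - ε) * L ^ 3) := by ring
      _ ≤ Co * T ^ h := by gcongr
      _ ≤ Co * H := by gcongr
  -- inner pointwise
  set c0 : ℝ := 1 / Real.sqrt (2 * Real.pi) with hc0
  have hc02 : c0 ^ 2 = 1 / (2 * Real.pi) := by
    rw [hc0, div_pow, one_pow, Real.sq_sqrt (by positivity)]
  have hpt : ∀ t ∈ Set.Icc (T + L) (T + H - L), ‖AA F U1 U2 u t‖ ^ 2 ≤
      (1 + η) / (2 * Real.pi) * (L ^ 2 * Real.exp (-u ^ 2) +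
        2 * CP * Real.exp 2 * L * Real.exp (2 * u - u ^ 2 / 2) + ‖PP a u t‖ ^ 2) +
        (1 + 1 / η) * C ^ 2 := by
    intro t ht
    have h1 := hmain u t hu huL ht.1 ht.2
    set M : ℂ := (c0 : ℂ) * (L * cexp (I * u * t) * Real.exp (-u ^ 2 / 2) - PP a u t) with hM
    have h2 := sq_young (x := M) (y := AA F U1 U2 u t - M) hη
    rw [add_sub_cancel] at h2
    have h3 : ‖AA F U1 U2 u t - M‖ ^ 2 ≤ C ^ 2 := by
      have h4 : ‖AA F U1 U2 u t - M‖ ≤ C := by
        refine h1.trans ?_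
        have : Real.exp (-u) ≤ 1 := Real.exp_le_one_iff.mpr (by linarith)
        nlinarith
      gcongr
    have h5 : ‖M‖ ≤ c0 * (L * Real.exp (-u ^ 2 / 2) + ‖PP a u t‖) := by
      rw [hM, norm_mul, Complex.norm_real, Real.norm_of_nonneg (by positivity)]
      gcongr
      refine (norm_sub_le _ _).trans ?_
      gcongr
      rw [norm_mul, norm_mul, Complex.norm_real, Complex.norm_real,
        Real.norm_of_nonneg (by linarith), Real.norm_of_nonneg (Real.exp_pos _).le,
        show (I * u * t : ℂ) = ((u * t : ℝ) : ℂ) * I by push_cast; ring,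
        Complex.norm_exp_ofReal_mul_I, mul_one]
    have h6 : ‖M‖ ^ 2 ≤ 1 / (2 * Real.pi) * (L ^ 2 * Real.exp (-u ^ 2) +
        2 * CP * Real.exp 2 * L * Real.exp (2 * u - u ^ 2 / 2) + ‖PP a u t‖ ^ 2) := by
      have hPPb := PP_bound ha u t
      calc ‖M‖ ^ 2 ≤ (c0 * (L * Real.exp (-u ^ 2 / 2) + ‖PP a u t‖)) ^ 2 := by gcongr
        _ = 1 / (2 * Real.pi) * (L ^ 2 * (Real.exp (-u ^ 2 / 2)) ^ 2 +
            2 * L * Real.exp (-u ^ 2 / 2) * ‖PP a u t‖ + ‖PP a u t‖ ^ 2) := by
            rw [mul_pow, hc02]; ring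
        _ ≤ 1 / (2 * Real.pi) * (L ^ 2 * (Real.exp (-u ^ 2 / 2)) ^ 2 +
            2 * L * Real.exp (-u ^ 2 / 2) * (2 * S * Real.exp (2 + 2 * u)) + ‖PP a u t‖ ^ 2) := by
            gcongr
        _ = _ := by
            have e5 : (Real.exp (-u ^ 2 / 2)) ^ 2 = Real.exp (-u ^ 2) := by
              rw [← Real.exp_nat_mul]; congr 1; push_cast; ring
            have e6 : Real.exp (-u ^ 2 / 2) * Real.exp (2 + 2 * u) =
                Real.exp 2 * Real.exp (2 * u - u ^ 2 / 2) := by
              rw [← Real.exp_add, ← Real.exp_add]; congr 1; ring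
            rw [e5, hCP]
            linear_combination (1 / (2 * Real.pi)) * (2 * L * (2 * S)) * e6
    calc ‖AA F U1 U2 u t‖ ^ 2 ≤ (1 + η) * ‖M‖ ^ 2 +
        (1 + 1 / η) * ‖AA F U1 U2 u t - M‖ ^ 2 := h2
      _ ≤ (1 + η) * (1 / (2 * Real.pi) * (L ^ 2 * Real.exp (-u ^ 2) +
        2 * CP * Real.exp 2 * L * Real.exp (2 * u - u ^ 2 / 2) + ‖PP a u t‖ ^ 2)) +
        (1 + 1 / η) * C ^ 2 := by gcongr
      _ = _ := by ring
  have hPPc := PP_cont ha u
  -- mean square of PP
  set X : ℕ := ⌊T ^ (h - ε / 2)⌋₊ with hX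
  have hXle : (X : ℝ) ≤ T ^ (h - ε / 2) := Nat.floor_le (by positivity)
  have hXlog : u + ε / 2 * L ≤ Real.log (X + 1) := by
    have h1 : T ^ (h - ε / 2) < X + 1 := Nat.lt_floor_add_one _
    have h2 : Real.log (T ^ (h - ε / 2)) ≤ Real.log (X + 1) :=
      Real.log_le_log (by positivity) h1.le
    rw [Real.log_rpow hTpos] at h2
    linarith
  have hms := PP_ms ha u (ε / 2 * L) (T + L) (T + H - L) η X hη hab (by positivity) hXlog
  have hms2 : ∫ t in (T + L)..(T + H - L), ‖PP a u t‖ ^ 2 ≤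
      (1 + η) ^ 2 * H * VV u + (1 + 1 / η) * H := by
    refine hms.trans ?_
    have hV := VV_nonneg u
    have h1 : 8 * (X : ℝ) * (1 + Real.log X) ≤ η * H := by
      have h2 : Real.log X ≤ L := by
        rcases Nat.eq_zero_or_pos X with h0 | h0
        · rw [h0]; simp; linarith
        · apply Real.log_le_log (by exact_mod_cast h0)
          refine hXle.trans ?_
          calc T ^ (h - ε / 2) ≤ T ^ (1 : ℝ) := Real.rpow_le_rpow_of_exponent_le (by linarith)
                (by linarith)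
            _ = T := Real.rpow_one T
      have h3 : 0 ≤ Real.log X := Real.log_natCast_nonneg X
      calc 8 * (X : ℝ) * (1 + Real.log X) ≤ 8 * T ^ (h - ε / 2) * (1 + L) := by gcongr
        _ ≤ η * T ^ h := e1
        _ ≤ η * H := by gcongr
    have h4 : 2 * S * (Real.exp (4 + 2 * u) * Real.exp (-(ε / 2 * L) ^ 2 / 4)) ≤ 1 := by
      refine le_trans ?_ e2
      gcongr
    have h5 : 0 ≤ 2 * S * (Real.exp (4 + 2 * u) * Real.exp (-(ε / 2 * L) ^ 2 / 4)) := by positivity
    have h6 : (2 * S * (Real.exp (4 + 2 * u) * Real.exp (-(ε / 2 * L) ^ 2 / 4))) ^ 2 ≤ 1 := by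
      exact pow_le_one₀ h5 h4
    have h7 : T + H - L - (T + L) + 8 * X * (1 + Real.log X) ≤ (1 + η) * H := by
      linarith
    calc (1 + η) * ((T + H - L - (T + L) + 8 * X * (1 + Real.log X)) * VV u) +
        (1 + 1 / η) * ((T + H - L - (T + L)) *
          (2 * S * (Real.exp (4 + 2 * u) * Real.exp (-(ε / 2 * L) ^ 2 / 4))) ^ 2) ≤
        (1 + η) * (((1 + η) * H) * VV u) + (1 + 1 / η) * (H * 1) := by
          gcongr
      _ = _ := by ring
  -- inner integral
  have hinner : ∫ t in (T + L)..(T + H - L), ‖AA F U1 U2 u t‖ ^ 2 ≤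
      (1 + η) / (2 * Real.pi) * (H * L ^ 2 * Real.exp (-u ^ 2) +
        (2 * CP * Real.exp 2) * (H * L) * Real.exp (2 * u - u ^ 2 / 2) +
        ((1 + η) ^ 2 * H * VV u + (1 + 1 / η) * H)) + (1 + 1 / η) * C ^ 2 * H := by
    calc ∫ t in (T + L)..(T + H - L), ‖AA F U1 U2 u t‖ ^ 2 ≤
        ∫ t in (T + L)..(T + H - L), ((1 + η) / (2 * Real.pi) * (L ^ 2 * Real.exp (-u ^ 2) +
        2 * CP * Real.exp 2 * L * Real.exp (2 * u - u ^ 2 / 2) + ‖PP a u t‖ ^ 2) +
        (1 + 1 / η) * C ^ 2) := by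
          refine intervalIntegral.integral_mono_on hab ?_ ?_ hpt
          · exact ((AA_cont hF hU u).norm.pow 2).intervalIntegrable _ _
          · exact ((continuous_const.mul (continuous_const.add (hPPc.norm.pow 2))).add
              continuous_const).intervalIntegrable _ _
      _ = (1 + η) / (2 * Real.pi) * ((T + H - L - (T + L)) * (L ^ 2 * Real.exp (-u ^ 2) +
          2 * CP * Real.exp 2 * L * Real.exp (2 * u - u ^ 2 / 2)) +
          ∫ t in (T + L)..(T + H - L), ‖PP a u t‖ ^ 2) +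
          (T + H - L - (T + L)) * ((1 + 1 / η) * C ^ 2) := by
          rw [intervalIntegral.integral_add, intervalIntegral.integral_const_mul,
            intervalIntegral.integral_add, intervalIntegral.integral_const,
            intervalIntegral.integral_const, smul_eq_mul, smul_eq_mul]
          · exact continuous_const.intervalIntegrable _ _
          · exact (hPPc.norm.pow 2).intervalIntegrable _ _
          · exact (continuous_const.mul (continuous_const.add (hPPc.norm.pow 2))).intervalIntegrable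
              _ _
          · exact continuous_const.intervalIntegrable _ _
      _ ≤ (1 + η) / (2 * Real.pi) * (H * (L ^ 2 * Real.exp (-u ^ 2) +
          2 * CP * Real.exp 2 * L * Real.exp (2 * u - u ^ 2 / 2)) +
          ((1 + η) ^ 2 * H * VV u + (1 + 1 / η) * H)) + H * ((1 + 1 / η) * C ^ 2) := by
          gcongr
      _ = _ := by ring
  rw [hsplit]
  calc _ ≤ (1 + η) / (2 * Real.pi) * (H * L ^ 2 * Real.exp (-u ^ 2) +
        (2 * CP * Real.exp 2) * (H * L) * Real.exp (2 * u - u ^ 2 / 2) +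
        ((1 + η) ^ 2 * H * VV u + (1 + 1 / η) * H)) + (1 + 1 / η) * C ^ 2 * H + Co * H :=
        add_le_add hinner houter2
    _ = _ := by ring

end H804JJ
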