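import Pool.Agent.H361R2.PP.Iface3

/-!
Project PP (h361_tasks PP-SM2): the total local deviation tends to zero (helper804).
-/

set_option autoImplicit false

open Finset

namespace Pool.Agent.H804R2.PPSm2

open Pool.Agent.H410R2 Pool.Agent.H361R2.PP

theorem rho_dvd (p a : ℕ) (hp : 0 < p) : p ∣ rho p a + a := by
  unfold rho
  have h1 : (p - a % p) % p + a ≡ (p - a % p) + a % p [MOD p] :=
    Nat.ModEq.add (Nat.mod_modEq _ _) (Nat.mod_modEq _ _).symm
  have h2 : (p - a % p) + a % p = p := Nat.sub_add_cancel (Nat.mod_lt _ hp).le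
  rw [h2] at h1
  have h3 : (p - a % p) % p + a ≡ 0 [MOD p] := h1.trans ((Nat.modEq_zero_iff_dvd).2 dvd_rfl)
  exact (Nat.modEq_zero_iff_dvd).1 h3

theorem rho_lt (p a : ℕ) (hp : 0 < p) : rho p a < p := Nat.mod_lt _ hp

theorem rho_eq_dvd (p a b : ℕ) (hp : 0 < p) (h : rho p a = rho p b) :
    p ∣ ((a : ℤ) - b).natAbs := by
  have h1 := rho_dvd p a hp
  have h2 := rho_dvd p b hp
  rw [← Int.natCast_dvd]
  have h3 : ((p : ℤ)) ∣ ((rho p a + a : ℕ) : ℤ) := Int.natCast_dvd_natCast.2 h1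
  have h4 : ((p : ℤ)) ∣ ((rho p b + b : ℕ) : ℤ) := Int.natCast_dvd_natCast.2 h2
  have h5 := dvd_sub h3 h4
  rw [h] at h5
  push_cast at h5
  have e : ((rho p b : ℤ) + a - (rho p b + b)) = (a : ℤ) - b := by ring
  rwa [e] at h5

theorem count (H d : ℕ) (T : Finset ℕ) (hT : ∀ p ∈ T, p.Prime ∧ H < p ∧ p ∣ d) (hd : 0 < d) :
    (T.card : ℝ) * Real.log ((H : ℝ) + 1) ≤ Real.log d := by
  have h1 : ∏ p ∈ T, p ∣ d :=
    Finset.prod_primes_dvd d (fun p hp => (hT p hp).1.prime) fun p hp => (hT p hp).2.2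
  have h2 : (H + 1) ^ T.card ≤ d := by
    refine le_trans ?_ (Nat.le_of_dvd hd h1)
    rw [← Finset.prod_const]
    exact Finset.prod_le_prod' fun p hp => (hT p hp).2.1
  have h3 : ((H : ℝ) + 1) ^ T.card ≤ d := by exact_mod_cast h2
  have h4 := Real.log_le_log (by positivity) h3
  rwa [Real.log_pow] at h4

theorem sq_sum (H : ℕ) (hH : 2 ≤ H) (P : Finset ℕ) (hP : ∀ p ∈ P, H < p) :
    (∑ p ∈ P, (1 : ℝ) / ((p : ℝ) - 1) ^ 2) ≤ (2 : ℝ) / (H : ℝ) := by
  have h1 : (∑ p ∈ P, (1 : ℝ) / ((p : ℝ) - 1) ^ 2) = ∑ m ∈ P.image (fun p : ℕ => p - 1), ((m : ℝ) ^ 2)⁻¹ := by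
    rw [Finset.sum_image]
    · refine Finset.sum_congr rfl fun p hp => ?_
      have := hP p hp
      rw [Nat.cast_sub (by omega), Nat.cast_one, one_div]
    · intro p hp q hq h
      have h2 := hP p hp
      have h3 := hP q hq
      simp only at h
      omega
  rw [h1]
  have h2 : P.image (fun p : ℕ => p - 1) ⊆ Finset.Ioo (H - 1) (P.sup id + 1) := by
    intro m hm
    rw [Finset.mem_image] at hm
    obtain ⟨p, hp, rfl⟩ := hm
    have h3 := hP p hp
    have h4 : p ≤ P.sup id := Finset.le_sup (f := id) hp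
    rw [Finset.mem_Ioo]
    omega
  refine (Finset.sum_le_sum_of_subset_of_nonneg h2 fun _ _ _ => by positivity).trans ?_
  refine (sum_Ioo_inv_sq_le (α := ℝ) (H - 1) (P.sup id + 1)).trans (le_of_eq ?_)
  rw [Nat.cast_sub (by omega)]
  norm_num

theorem sum_biUnion_le' {ι : Type*} [DecidableEq ι] (W : Finset ι) (bad : ι → Finset ℕ)
    (f : ℕ → ℝ) (hf : ∀ p ∈ W.biUnion bad, 0 ≤ f p) :
    ∑ p ∈ W.biUnion bad, f p ≤ ∑ q ∈ W, ∑ p ∈ bad q, f p := by
  have h1 : ∀ q ∈ W, ∑ p ∈ bad q, f p = ∑ p ∈ W.biUnion bad, if p ∈ bad q then f p else 0 := by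
    intro q hq
    rw [← Finset.sum_filter]
    congr 1
    ext p
    rw [Finset.mem_filter]
    exact ⟨fun h => ⟨Finset.mem_biUnion.2 ⟨q, hq, h⟩, h⟩, fun h => h.2⟩
  rw [Finset.sum_congr rfl h1, Finset.sum_comm]
  refine Finset.sum_le_sum fun p hp => ?_
  obtain ⟨q, hq, hpq⟩ := Finset.mem_biUnion.1 hp
  have h2 : (if p ∈ bad q then f p else 0) = f p := if_pos hpq
  refine h2.symm.le.trans ?_
  refine (Finset.single_le_sum (f := fun q => if p ∈ bad q then f p else 0) (fun q' _ => ?_) hq)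
  show 0 ≤ if p ∈ bad q' then f p else 0
  split_ifs
  · exact hf p hp
  · exact le_rfl

theorem main (H k : ℕ) (hH : 2 ≤ H) (P U : Finset ℕ) (Y : ℝ) (o : Option ℕ)
    (hP : ∀ p ∈ P, p.Prime ∧ H < p) (hU : U.card ≤ k)
    (hUa : ∀ a ∈ U, 1 ≤ a ∧ (a : ℝ) ≤ Y) (ho : ∀ a ∈ o, 1 ≤ a ∧ (a : ℝ) ≤ Y ∧ a ∉ U)
    (L : ℝ) (hL : Real.log Y ≤ L) (hL0 : 0 ≤ L) :
    EN.dl (ee o) rho P U ≤ 2 / H + ((k : ℝ) * (k + 1)) * ((L / Real.log ((H : ℝ) + 1)) / H) := by
  classical
  unfold EN.dl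
  have hHr : (2 : ℝ) ≤ H := by exact_mod_cast hH
  have hlog : 0 < Real.log ((H : ℝ) + 1) := Real.log_pos (by linarith)
  refine add_le_add (sq_sum H hH P fun p hp => (hP p hp).2) ?_
  -- the collisions
  set W : Finset (ℕ × ℕ) := (U ×ˢ (U ∪ o.toFinset)).filter (fun q => q.1 ≠ q.2) with hW
  set bad : ℕ × ℕ → Finset ℕ := fun q => P.filter (fun p => p ∣ ((q.1 : ℤ) - q.2).natAbs) with hbad
  have hsub : P.filter (fun p => (∃ a ∈ U, ∃ b ∈ U, a ≠ b ∧ rho p a = rho p b) ∨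
      ∃ a ∈ U, rho p a = ee o p) ⊆ W.biUnion bad := by
    intro p hp
    rw [Finset.mem_filter] at hp
    obtain ⟨hpP, hp2⟩ := hp
    have hp0 : 0 < p := (hP p hpP).1.pos
    rw [Finset.mem_biUnion]
    rcases hp2 with ⟨a, ha, b, hb, hab, h⟩ | ⟨a, ha, h⟩
    · refine ⟨(a, b), ?_, ?_⟩
      · rw [hW, Finset.mem_filter, Finset.mem_product]
        exact ⟨⟨ha, Finset.mem_union_left _ hb⟩, hab⟩
      · rw [hbad, Finset.mem_filter]
        exact ⟨hpP, rho_eq_dvd p a b hp0 h⟩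
    · cases o with
      | none =>
        exact absurd h (ne_of_lt (rho_lt p a hp0))
      | some a0 =>
        have h0 := ho a0 rfl
        refine ⟨(a, a0), ?_, ?_⟩
        · rw [hW, Finset.mem_filter, Finset.mem_product]
          refine ⟨⟨ha, Finset.mem_union_right _ (by simp)⟩, ?_⟩
          intro hh
          simp only at hh
          subst hh
          exact h0.2.2 ha
        · rw [hbad, Finset.mem_filter]
          exact ⟨hpP, rho_eq_dvd p a a0 hp0 h⟩
  have hpos : ∀ p ∈ P, (0 : ℝ) ≤ 1 / ((p : ℝ) - 1) := by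
    intro p hp
    have := (hP p hp).2
    have h1 : (H : ℝ) + 1 ≤ p := by exact_mod_cast this
    exact div_nonneg zero_le_one (by linarith)
  have hWcard : (W.card : ℝ) ≤ (k : ℝ) * (k + 1) := by
    have h1 : W.card ≤ k * (k + 1) := by
      refine (Finset.card_filter_le _ _).trans ?_
      rw [Finset.card_product]
      refine Nat.mul_le_mul hU ?_
      refine (Finset.card_union_le _ _).trans (Nat.add_le_add hU ?_)
      cases o with
      | none => simp
      | some a => simp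
    exact_mod_cast h1
  have hbd : ∀ q ∈ W, ∑ p ∈ bad q, 1 / ((p : ℝ) - 1) ≤ (L / Real.log ((H : ℝ) + 1)) / H := by
    rintro ⟨a, b⟩ hq
    rw [hW, Finset.mem_filter, Finset.mem_product] at hq
    obtain ⟨⟨ha, hb⟩, hab⟩ := hq
    simp only at ha hb hab
    have hb' : 1 ≤ b ∧ (b : ℝ) ≤ Y := by
      rcases Finset.mem_union.1 hb with h | h
      · exact hUa b h
      · rw [Option.mem_toFinset] at h
        exact ⟨(ho b h).1, (ho b h).2.1⟩
    have ha' := hUa a ha
    set d : ℕ := ((a : ℤ) - b).natAbs with hd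
    have hd0 : 0 < d := by
      rw [hd, Int.natAbs_pos, sub_ne_zero]
      exact_mod_cast hab
    have hdY : (d : ℝ) ≤ Y := by
      have h1 : (d : ℝ) = |(a : ℝ) - b| := by
        rw [hd, Nat.cast_natAbs]
        push_cast
        rfl
      rw [h1, abs_le]
      have e1 : (1 : ℝ) ≤ a := by exact_mod_cast ha'.1
      have e2 : (1 : ℝ) ≤ b := by exact_mod_cast hb'.1
      constructor
      · linarith [hb'.2]
      · linarith [ha'.2]
    have hc := count H d (bad (a, b)) (by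
      intro p hp
      rw [hbad, Finset.mem_filter] at hp
      exact ⟨(hP p hp.1).1, (hP p hp.1).2, hp.2⟩) hd0
    have hlogd : Real.log d ≤ L :=
      (Real.log_le_log (by exact_mod_cast hd0) hdY).trans hL
    have hcard : ((bad (a, b)).card : ℝ) ≤ L / Real.log ((H : ℝ) + 1) := by
      rw [le_div_iff₀ hlog]
      exact hc.trans hlogd
    have h1 : ∑ p ∈ bad (a, b), 1 / ((p : ℝ) - 1) ≤ ∑ _p ∈ bad (a, b), 1 / (H : ℝ) := by
      refine Finset.sum_le_sum fun p hp => ?_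
      have hpP : p ∈ P := (Finset.mem_filter.1 hp).1
      have h2 := (hP p hpP).2
      have h3 : (H : ℝ) + 1 ≤ p := by exact_mod_cast h2
      exact one_div_le_one_div_of_le (by linarith) (by linarith)
    refine h1.trans ?_
    rw [Finset.sum_const, nsmul_eq_mul, mul_one_div]
    exact div_le_div_of_nonneg_right hcard (by linarith)
  calc ∑ p ∈ P.filter (fun p => (∃ a ∈ U, ∃ b ∈ U, a ≠ b ∧ rho p a = rho p b) ∨
      ∃ a ∈ U, rho p a = ee o p), 1 / ((p : ℝ) - 1)
      ≤ ∑ p ∈ W.biUnion bad, 1 / ((p : ℝ) - 1) := by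
        refine Finset.sum_le_sum_of_subset_of_nonneg hsub fun p hp _ => ?_
        rw [Finset.mem_biUnion] at hp
        obtain ⟨q, -, hq⟩ := hp
        exact hpos p (Finset.mem_filter.1 hq).1
    _ ≤ ∑ q ∈ W, ∑ p ∈ bad q, 1 / ((p : ℝ) - 1) := by
        exact sum_biUnion_le' W bad _ fun p hp => by
          rw [Finset.mem_biUnion] at hp
          obtain ⟨q, -, hq⟩ := hp
          exact hpos p (Finset.mem_filter.1 hq).1
    _ ≤ ∑ _q ∈ W, (L / Real.log ((H : ℝ) + 1)) / H := Finset.sum_le_sum hbd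
    _ = (W.card : ℝ) * ((L / Real.log ((H : ℝ) + 1)) / H) := by
        rw [Finset.sum_const, nsmul_eq_mul]
    _ ≤ ((k : ℝ) * (k + 1)) * ((L / Real.log ((H : ℝ) + 1)) / H) := by
        refine mul_le_mul_of_nonneg_right hWcard ?_
        exact div_nonneg (div_nonneg hL0 hlog.le) (by linarith)

theorem sm2 : Sm2 := by
  intro k Λ s hΛ hs
  set L : ℝ := |Real.log Λ| with hL
  set C1 : ℝ := (k : ℝ) * (k + 1) with hC1
  have hC10 : 0 ≤ C1 := by positivity
  -- choice of H0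
  obtain ⟨H0, hH0⟩ := exists_nat_ge (max 2 (max (4 / s) (Real.exp (2 * C1 * (L + 8) / s))))
  obtain ⟨X₀, hX₀⟩ := exists_nat_ge (Real.exp (Real.exp (4 * (H0 : ℝ))))
  refine ⟨X₀, fun X hX P hP U hU hUa o ho => ?_⟩
  have hXr : Real.exp (Real.exp (4 * (H0 : ℝ))) ≤ X := hX₀.trans (by exact_mod_cast hX)
  have hlogX : Real.exp (4 * (H0 : ℝ)) ≤ Real.log X := by
    have := Real.log_le_log (Real.exp_pos _) hXr
    rwa [Real.log_exp] at this
  have hllX : 4 * (H0 : ℝ) ≤ Real.log (Real.log X) := by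
    have := Real.log_le_log (Real.exp_pos _) hlogX
    rwa [Real.log_exp] at this
  have hHH : H0 ≤ HH X := by
    unfold HH
    apply Nat.le_floor
    linarith
  set H := HH X with hH
  have hH0r : (H0 : ℝ) ≤ H := by exact_mod_cast hHH
  have m1 : (2 : ℝ) ≤ H0 := (le_max_left _ _).trans hH0
  have m2 : 4 / s ≤ H0 := (le_max_left _ _).trans ((le_max_right _ _).trans hH0)
  have m3 : Real.exp (2 * C1 * (L + 8) / s) ≤ H0 :=
    (le_max_right _ _).trans ((le_max_right _ _).trans hH0)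
  have hH2 : 2 ≤ H := by
    have : (2 : ℝ) ≤ H := m1.trans hH0r
    exact_mod_cast this
  have hHr : (2 : ℝ) ≤ H := by exact_mod_cast hH2
  have hllup : Real.log (Real.log X) ≤ 4 * ((H : ℝ) + 1) := by
    have := Nat.lt_floor_add_one (Real.log (Real.log X) / 4)
    have h2 : ((⌊Real.log (Real.log X) / 4⌋₊ : ℕ) : ℝ) = H := rfl
    rw [h2] at this
    linarith
  have hlogXpos : 0 < Real.log X := lt_of_lt_of_le (Real.exp_pos _) hlogX
  have hLY : Real.log (Λ * Real.log X) ≤ L + 4 * ((H : ℝ) + 1) := by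
    rw [Real.log_mul hΛ.ne' hlogXpos.ne']
    have := le_abs_self (Real.log Λ)
    rw [← hL] at this
    linarith
  have hL0 : 0 ≤ L := abs_nonneg _
  have h1 := main H k hH2 P U (Λ * Real.log X) o hP hU hUa ho (L + 4 * ((H : ℝ) + 1)) hLY
    (by positivity)
  refine h1.trans ?_
  have hlog : 0 < Real.log ((H : ℝ) + 1) := Real.log_pos (by linarith)
  have h2 : 2 / (H : ℝ) ≤ s / 2 := by
    rw [div_le_iff₀ (by linarith)]
    have h3 : 4 / s ≤ H := m2.trans hH0r
    rw [div_le_iff₀ hs] at h3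
    linarith
  have h3 : (L + 4 * ((H : ℝ) + 1)) / Real.log ((H : ℝ) + 1) / H ≤
      (L + 8) / Real.log ((H : ℝ) + 1) := by
    rw [div_right_comm]
    refine div_le_div_of_nonneg_right ?_ hlog.le
    rw [div_le_iff₀ (by linarith)]
    nlinarith
  have h4 : 2 * C1 * (L + 8) / s ≤ Real.log ((H : ℝ) + 1) := by
    rw [Real.le_log_iff_exp_le (by linarith)]
    linarith
  have h5 : C1 * ((L + 8) / Real.log ((H : ℝ) + 1)) ≤ s / 2 := by
    rw [← mul_div_assoc, div_le_iff₀ hlog]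
    rw [div_le_iff₀ hs] at h4
    linarith
  have h6 := mul_le_mul_of_nonneg_left h3 hC10
  linarith

end Pool.Agent.H804R2.PPSm2
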