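import Pool.Agent.H383.PZ.Defs
import Pool.Agent.H401R2.Stir
import Pool.Agent.H387R2.VorH

/-!
Piltz divisor problem (project of helper383), task T6: the gamma factor.
-/

set_option autoImplicit false

open Filter Topology Asymptotics Complex
open Pool.Agent.H383.PZ

namespace Pool.Agent.H804R2.PZ

/-- `f(t) = 1 + O(1/t)` -/
def N (f : ℝ → ℂ) : Prop := (fun t => f t - 1) =O[atTop] (fun t : ℝ => t⁻¹)

lemma N.tendsto {f : ℝ → ℂ} (h : N f) : Tendsto f atTop (𝓝 1) := by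
  have h1 : Tendsto (fun t => f t - 1) atTop (𝓝 0) := h.trans_tendsto tendsto_inv_atTop_zero
  simpa using h1.add_const 1

lemma N.mul {f g : ℝ → ℂ} (hf : N f) (hg : N g) : N (fun t => f t * g t) := by
  unfold N at *
  have e : (fun t => f t * g t - 1) = fun t => (f t - 1) * g t + (g t - 1) := by
    funext t; ring
  rw [e]
  refine IsBigO.add ?_ hg
  have h1 : g =O[atTop] (fun _ => (1:ℝ)) := (N.tendsto hg).isBigO_one ℝ
  have h2 := hf.mul h1
  simpa using h2

lemma N.inv {f : ℝ → ℂ} (hf : N f) : N (fun t => (f t)⁻¹) := by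
  have ht := hf.tendsto
  have h1 : (fun t => (f t)⁻¹) =O[atTop] (fun _ => (1:ℝ)) := by
    have : Tendsto (fun t => (f t)⁻¹) atTop (𝓝 (1:ℂ)⁻¹) := ht.inv₀ one_ne_zero
    exact this.isBigO_one ℝ
  have h2 := hf.neg_left.mul h1
  have h3 : (fun t => (f t)⁻¹ - 1) =ᶠ[atTop] fun t => -(f t - 1) * (f t)⁻¹ := by
    filter_upwards [ht.eventually_ne one_ne_zero] with t ht0
    field_simp
    ring
  unfold N
  refine h3.trans_isBigO ?_
  simpa using h2

lemma N.pow {f : ℝ → ℂ} (hf : N f) (n : ℕ) : N (fun t => f t ^ n) := by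
  induction n with
  | zero =>
    unfold N
    simp only [pow_zero, sub_self]
    exact isBigO_zero _ _
  | succ n ih =>
    simp only [pow_succ]
    exact ih.mul hf

lemma N.cexp {η : ℝ → ℂ} (h : η =O[atTop] (fun t : ℝ => t⁻¹)) :
    N (fun t => Complex.exp (η t)) := by
  unfold N
  have h0 : Tendsto η atTop (𝓝 0) := h.trans_tendsto tendsto_inv_atTop_zero
  refine IsBigO.trans ?_ h
  refine IsBigO.of_bound 2 ?_
  have h1 : ∀ᶠ t in atTop, ‖η t‖ < 1 := by
    have := h0.norm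
    rw [norm_zero] at this
    exact this.eventually_lt_const zero_lt_one
  filter_upwards [h1] with t ht
  exact Complex.norm_exp_sub_one_le ht.le

lemma N.of_bound {f : ℝ → ℂ} (C : ℝ) (h : ∀ t : ℝ, 1 ≤ t → ‖f t - 1‖ ≤ C / t) : N f := by
  unfold N
  refine IsBigO.of_bound C ?_
  filter_upwards [eventually_ge_atTop 1] with t ht
  have : (0:ℝ) < t := by linarith
  rw [Real.norm_of_nonneg (by positivity)]
  exact h t ht

lemma wk_re (t : ℝ) : (wk t).re = 3 / 2 := by simp [wk]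
lemma wk_im (t : ℝ) : (wk t).im = t := by simp [wk]

lemma le_norm_wk {t : ℝ} (ht : 0 ≤ t) : t ≤ ‖wk t‖ := by
  have := Complex.abs_im_le_norm (wk t)
  rwa [wk_im, abs_of_nonneg ht] at this

lemma norm_wk_le {t : ℝ} (ht : 1 ≤ t) : ‖wk t‖ ≤ 3 * t := by
  unfold wk
  refine (norm_add_le _ _).trans ?_
  rw [norm_mul, Complex.norm_I, mul_one, Complex.norm_real, Real.norm_of_nonneg (by linarith)]
  norm_num
  linarith

lemma wk_ne (t : ℝ) : wk t ≠ 0 := by
  intro h
  have := wk_re t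
  rw [h] at this
  norm_num at this

/-- the argument of the second gamma function -/
noncomputable def zk (k : ℕ) (t : ℝ) : ℂ := k * wk t - (k + 1) / 2

lemma zk_re (k : ℕ) (t : ℝ) : (zk k t).re = k - 1 / 2 := by
  unfold zk
  rw [Complex.sub_re, ← Complex.ofReal_natCast, Complex.re_ofReal_mul, wk_re]
  have : (((k : ℝ) : ℂ) + 1) / 2 = (((k + 1) / 2 : ℝ) : ℂ) := by push_cast; ring
  rw [this, Complex.ofReal_re]
  ring

lemma zk_im (k : ℕ) (t : ℝ) : (zk k t).im = k * t := by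
  unfold zk
  rw [Complex.sub_im, ← Complex.ofReal_natCast, Complex.im_ofReal_mul, wk_im]
  have : (((k : ℝ) : ℂ) + 1) / 2 = (((k + 1) / 2 : ℝ) : ℂ) := by push_cast; ring
  rw [this, Complex.ofReal_im]
  ring

/-- `x = -(k+1)/(2 k w)` -/
noncomputable def xk (k : ℕ) (t : ℝ) : ℂ := -((k + 1) / (2 * k)) / wk t

lemma norm_xk_le {k : ℕ} (hk : 2 ≤ k) {t : ℝ} (ht : 1 ≤ t) : ‖xk k t‖ ≤ 3 / 4 / t := by
  have hk' : (2:ℝ) ≤ k := by exact_mod_cast hk
  have ht0 : (0:ℝ) < t := by linarith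
  unfold xk
  rw [norm_div, norm_neg]
  have e : ‖(((k:ℂ) + 1) / (2 * k))‖ = ((k:ℝ) + 1) / (2 * k) := by
    have : (((k:ℂ) + 1) / (2 * k)) = ((((k:ℝ) + 1) / (2 * k) : ℝ) : ℂ) := by push_cast; ring
    rw [this, Complex.norm_real, Real.norm_of_nonneg (by positivity)]
  rw [e]
  have h1 : ((k:ℝ) + 1) / (2 * k) ≤ 3 / 4 := by
    rw [div_le_div_iff₀ (by positivity) (by norm_num)]
    linarith
  have h2 := le_norm_wk ht0.le
  gcongr

/-- the remainder -/
noncomputable def ηk (k : ℕ) (t : ℝ) : ℂ :=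
  (k * (wk t - 1 / 2) - 1) * Complex.log (1 + xk k t) + (k + 1) / 2

lemma ηk_bigO {k : ℕ} (hk : 2 ≤ k) : ηk k =O[atTop] (fun t : ℝ => t⁻¹) := by
  have hk' : (2:ℝ) ≤ k := by exact_mod_cast hk
  refine IsBigO.of_bound (((k:ℝ) / 2 + 1) + 5 * k) ?_
  filter_upwards [eventually_ge_atTop 2] with t ht
  have ht0 : (0:ℝ) < t := by linarith
  have hx := norm_xk_le hk (t := t) (by linarith)
  have hx1 : ‖xk k t‖ ≤ 1 / 2 := by
    refine hx.trans ?_
    rw [div_le_iff₀ ht0]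
    linarith
  have hlog := Complex.norm_log_one_add_sub_self_le (z := xk k t) (by linarith)
  set y := Complex.log (1 + xk k t) - xk k t with hy
  have hyn : ‖y‖ ≤ 1 / t ^ 2 := by
    refine hlog.trans ?_
    have h1 : (1 - ‖xk k t‖)⁻¹ ≤ 2 := by
      rw [inv_le_comm₀ (by linarith) (by norm_num)]
      linarith
    have h0 : 0 ≤ (1 - ‖xk k t‖)⁻¹ := by
      apply inv_nonneg.2; linarith
    calc ‖xk k t‖ ^ 2 * (1 - ‖xk k t‖)⁻¹ / 2 ≤ (3 / 4 / t) ^ 2 * 2 / 2 := by gcongr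
      _ = 9 / 16 * (1 / t ^ 2) := by field_simp; ring
      _ ≤ 1 * (1 / t ^ 2) := by gcongr; norm_num
      _ = _ := one_mul _
  have hw0 := wk_ne t
  have hkc : (k:ℂ) ≠ 0 := by
    have : k ≠ 0 := by omega
    exact_mod_cast this
  have hηe : ηk k t = ((k / 2 + 1) * ((k + 1) / (2 * k))) / wk t +
      (k * (wk t - 1 / 2) - 1) * y := by
    unfold ηk
    have : Complex.log (1 + xk k t) = xk k t + y := by rw [hy]; ring
    rw [this]
    unfold xk
    field_simp
    ring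
  have h3 : ‖((k:ℂ) / 2 + 1) * ((k + 1) / (2 * k)) / wk t‖ ≤ ((k:ℝ) / 2 + 1) / t := by
    have e : ‖((k:ℂ) / 2 + 1) * ((k + 1) / (2 * k))‖ = ((k:ℝ) / 2 + 1) * (((k:ℝ) + 1) / (2 * k)) := by
      have : ((k:ℂ) / 2 + 1) * ((k + 1) / (2 * k)) =
          ((((k:ℝ) / 2 + 1) * (((k:ℝ) + 1) / (2 * k)) : ℝ) : ℂ) := by push_cast; ring
      rw [this, Complex.norm_real, Real.norm_of_nonneg (by positivity)]
    rw [norm_div, e]
    have h1 : ((k:ℝ) + 1) / (2 * k) ≤ 1 := by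
      rw [div_le_one (by positivity)]
      linarith
    have h2 := le_norm_wk ht0.le
    calc ((k:ℝ) / 2 + 1) * (((k:ℝ) + 1) / (2 * k)) / ‖wk t‖ ≤ ((k:ℝ) / 2 + 1) * 1 / t := by gcongr
      _ = _ := by rw [mul_one]
  have h4 : ‖(k:ℂ) * (wk t - 1 / 2) - 1‖ ≤ 5 * k * t := by
    refine (norm_sub_le _ _).trans ?_
    rw [norm_mul, norm_one, Complex.norm_natCast]
    have h5 : ‖wk t - 1 / 2‖ ≤ 3 * t + 1 / 2 := by
      refine (norm_sub_le _ _).trans ?_
      have := norm_wk_le (t := t) (by linarith)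
      have e : ‖(1 / 2 : ℂ)‖ = 1 / 2 := by norm_num
      rw [e]
      linarith
    have h6 : (k:ℝ) * ‖wk t - 1 / 2‖ ≤ k * (3 * t + 1 / 2) := by gcongr
    nlinarith
  rw [hηe]
  refine (norm_add_le _ _).trans ?_
  rw [norm_mul, Real.norm_of_nonneg (by positivity : (0:ℝ) ≤ t⁻¹)]
  calc ‖((k:ℂ) / 2 + 1) * ((k + 1) / (2 * k)) / wk t‖ + ‖(k:ℂ) * (wk t - 1 / 2) - 1‖ * ‖y‖
      ≤ ((k:ℝ) / 2 + 1) / t + 5 * k * t * (1 / t ^ 2) := by gcongr
    _ = _ := by field_simp

lemma log_zk {k : ℕ} (hk : 2 ≤ k) {t : ℝ} (ht : 2 ≤ t) :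
    Complex.log (zk k t) = Real.log k + Complex.log (wk t) + Complex.log (1 + xk k t) := by
  have hk' : (2:ℝ) ≤ k := by exact_mod_cast hk
  have ht0 : (0:ℝ) < t := by linarith
  have hx := norm_xk_le hk (t := t) (by linarith)
  have hx1 : ‖xk k t‖ ≤ 1 / 2 := by
    refine hx.trans ?_
    rw [div_le_iff₀ ht0]
    linarith
  have hkc : (k:ℂ) ≠ 0 := by
    have : k ≠ 0 := by omega
    exact_mod_cast this
  have hre : 0 < (1 + xk k t).re := by
    have := Complex.abs_re_le_norm (xk k t)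
    rw [Complex.add_re, Complex.one_re]
    have h2 := neg_abs_le (xk k t).re
    linarith
  have hne : 1 + xk k t ≠ 0 := by
    intro h
    rw [h] at hre
    simp at hre
  have e : zk k t = ((k:ℝ):ℂ) * (wk t * (1 + xk k t)) := by
    unfold zk xk
    have := wk_ne t
    push_cast
    field_simp
    ring
  have ha1 : |(wk t).arg| < Real.pi / 2 :=
    Complex.abs_arg_lt_pi_div_two_iff.2 (Or.inl (by rw [wk_re]; norm_num))
  have ha2 : |(1 + xk k t).arg| < Real.pi / 2 := Complex.abs_arg_lt_pi_div_two_iff.2 (Or.inl hre)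
  rw [abs_lt] at ha1 ha2
  rw [e, Complex.log_ofReal_mul (by linarith) (mul_ne_zero (wk_ne t) hne),
    Complex.log_mul (wk_ne t) hne (by constructor <;> linarith)]
  ring

/-- the normalised gamma functions -/
noncomputable def s1 (t : ℝ) : ℂ := H401R2.sA (wk t) / ((√(2 * Real.pi) : ℝ) : ℂ)
noncomputable def s2 (k : ℕ) (t : ℝ) : ℂ := H401R2.sA (zk k t) / ((√(2 * Real.pi) : ℝ) : ℂ)

lemma N_s1 : N s1 := by
  refine N.of_bound (Real.pi / 8) fun t ht => ?_
  have h := H401R2.stirling (z := wk t) (by rw [wk_re]; norm_num) (by rw [wk_im]; exact ht)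
  rw [wk_im] at h
  refine h.trans (le_of_eq ?_)
  rw [div_div]

lemma N_s2 {k : ℕ} (hk : 2 ≤ k) : N (s2 k) := by
  have hk' : (2:ℝ) ≤ k := by exact_mod_cast hk
  refine N.of_bound (Real.pi / 8) fun t ht => ?_
  have h := H401R2.stirling (z := zk k t) (by rw [zk_re]; linarith) (by rw [zk_im]; nlinarith)
  rw [zk_im] at h
  refine h.trans ?_
  rw [div_div]
  have := Real.pi_pos
  have ht0 : (0:ℝ) < t := by linarith
  gcongr
  nlinarith

/-- `q = exp(iπw)` -/
noncomputable def qk (t : ℝ) : ℂ := Complex.exp (Real.pi * wk t * Complex.I)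

lemma norm_qk (t : ℝ) : ‖qk t‖ = Real.exp (-(Real.pi * t)) := by
  unfold qk
  rw [Complex.norm_exp]
  congr 1
  rw [Complex.mul_I_re, Complex.im_ofReal_mul, wk_im]

lemma norm_qk_le {t : ℝ} (ht : 1 ≤ t) : ‖qk t‖ ≤ 1 / t := by
  have ht0 : (0:ℝ) < t := by linarith
  rw [norm_qk, Real.exp_neg, ← one_div]
  apply one_div_le_one_div_of_le ht0
  have h1 := Real.add_one_le_exp (Real.pi * t)
  have h2 := Real.pi_gt_three
  nlinarith

lemma N_q : N (fun t => 1 + qk t) := by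
  refine N.of_bound 1 fun t ht => ?_
  rw [add_sub_cancel_left]
  exact norm_qk_le ht

lemma N_qk {k : ℕ} (hk : 2 ≤ k) : N (fun t => 1 + qk t ^ k) := by
  refine N.of_bound 1 fun t ht => ?_
  rw [add_sub_cancel_left, norm_pow]
  have h1 := norm_qk_le ht
  have h2 : 1 / t ≤ 1 := by rw [div_le_one (by linarith)]; exact ht
  calc ‖qk t‖ ^ k ≤ ‖qk t‖ ^ 1 := pow_le_pow_of_le_one (norm_nonneg _) (h1.trans h2) (by omega)
    _ ≤ 1 / t := by rw [pow_one]; exact h1

lemma N_w : N (fun t => 1 - 1 / wk t) := by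
  refine N.of_bound 1 fun t ht => ?_
  have e : 1 - 1 / wk t - 1 = -(1 / wk t) := by ring
  rw [e, norm_neg, norm_div, norm_one]
  have h2 := le_norm_wk (t := t) (by linarith)
  gcongr

/-- the quotient `Ak / Mk` -/
noncomputable def ρk (k : ℕ) (t : ℝ) : ℂ :=
  s1 t ^ k * (s2 k t)⁻¹ * Complex.exp (-ηk k t) * (1 - 1 / wk t)⁻¹ * (1 + qk t) ^ k *
    (1 + qk t ^ k)⁻¹

lemma N_ρ {k : ℕ} (hk : 2 ≤ k) : N (ρk k) := by
  have h1 := N_s1.pow k
  have h2 := (N_s2 hk).inv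
  have h3 : N (fun t => Complex.exp (-ηk k t)) := N.cexp (ηk_bigO hk).neg_left
  have h4 := N_w.inv
  have h5 := N_q.pow k
  have h6 := (N_qk hk).inv
  exact ((((h1.mul h2).mul h3).mul h4).mul h5).mul h6

lemma two_cos (z : ℂ) : 2 * Complex.cos (z / 2) =
    Complex.exp (-(z / 2) * Complex.I) * (1 + Complex.exp (z * Complex.I)) := by
  rw [Complex.two_cos, mul_add, mul_one, ← Complex.exp_add, add_comm]
  congr 2
  ring

lemma Ak_eq {k : ℕ} (hk : 2 ≤ k) {t : ℝ} (ht : 2 ≤ t) :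
    Ak k (wk t) = Mk k (wk t) * ρk k t := by
  have hpi := Real.pi_pos
  have hk' : (2:ℝ) ≤ k := by exact_mod_cast hk
  have hk0 : (0:ℝ) < k := by linarith
  set W := wk t with hW
  have hW0 : W ≠ 0 := wk_ne t
  have hW1 : 1 - W ≠ 0 := by
    intro h
    have h2 := congrArg Complex.re h
    rw [Complex.sub_re, hW, wk_re] at h2
    norm_num at h2
  set lw := Complex.log W with hlw
  have hexp : Complex.exp lw = W := Complex.exp_log hW0
  set ℓ : ℂ := ((Real.log (2 * Real.pi) : ℝ) : ℂ) with hℓ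
  set K : ℂ := ((Real.log k : ℝ) : ℂ) with hK
  -- the constants
  have c1 : ((√(2 * Real.pi) : ℝ) : ℂ) = Complex.exp (ℓ / 2) := by
    rw [hℓ, ← Complex.ofReal_ofNat, ← Complex.ofReal_div, ← Complex.ofReal_exp]
    congr 1
    rw [Real.exp_half, Real.exp_log (by positivity)]
  have c2 : ((√(k:ℝ) / Real.pi : ℝ) : ℂ) = 2 * Complex.exp (K / 2 - ℓ) := by
    have : K / 2 - ℓ = ((Real.log k / 2 - Real.log (2 * Real.pi) : ℝ) : ℂ) := by
      rw [hK, hℓ]; push_cast; ring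
    rw [this, ← Complex.ofReal_exp, Real.exp_sub, Real.exp_half, Real.exp_log hk0,
      Real.exp_log (by positivity)]
    push_cast
    field_simp
  have c3 : (2 * Real.pi : ℂ) ^ (-W) = Complex.exp (-W * ℓ) := by
    have h0 : (2 * Real.pi : ℂ) ≠ 0 := by
      have : (2 * Real.pi : ℝ) ≠ 0 := by positivity
      exact_mod_cast this
    rw [Complex.cpow_def_of_ne_zero h0]
    have : Complex.log (2 * Real.pi : ℂ) = ℓ := by
      rw [hℓ, Complex.ofReal_log (by positivity)]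
      push_cast; rfl
    rw [this]
    ring_nf
  have c4 : (2 * Real.pi * k : ℂ) ^ (-(k * W - (k + 1) / 2)) =
      Complex.exp (-(k * W - (k + 1) / 2) * (ℓ + K)) := by
    have h0 : (2 * Real.pi * k : ℂ) ≠ 0 := by
      have : (2 * Real.pi * k : ℝ) ≠ 0 := by positivity
      exact_mod_cast this
    rw [Complex.cpow_def_of_ne_zero h0]
    have : Complex.log (2 * Real.pi * k : ℂ) = ℓ + K := by
      rw [hℓ, hK, ← Complex.ofReal_add, ← Real.log_mul (by positivity) (by positivity),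
        Complex.ofReal_log (by positivity)]
      push_cast; rfl
    rw [this]
    ring_nf
  -- the gamma functions
  have g1 : Complex.Gamma W = Complex.exp (ℓ / 2) * s1 t * Complex.exp ((W - 1/2) * lw - W) := by
    have h0 : Complex.exp (ℓ / 2) ≠ 0 := Complex.exp_ne_zero _
    unfold s1 H401R2.sA
    rw [c1, mul_div_cancel₀ _ h0, mul_assoc, ← Complex.exp_add, neg_add_cancel, Complex.exp_zero,
      mul_one]
  have hlz := log_zk hk ht
  rw [← hW, ← hlw, ← hK] at hlz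
  have g2 : Complex.Gamma (k * W - (k + 1) / 2) = Complex.exp (ℓ / 2) * s2 k t *
      Complex.exp ((k * ((W - 1/2) * lw - W)) - lw + (k * (W - 1/2) - 1) * K + ηk k t) := by
    have h0 : Complex.exp (ℓ / 2) ≠ 0 := Complex.exp_ne_zero _
    have e1 : (k * ((W - 1/2) * lw - W)) - lw + (k * (W - 1/2) - 1) * K + ηk k t =
        (zk k t - 1/2) * Complex.log (zk k t) - zk k t := by
      rw [hlz]
      unfold ηk zk
      rw [← hW]
      ring
    rw [e1]
    unfold s2 H401R2.sA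
    rw [c1, mul_div_cancel₀ _ h0, mul_assoc, ← Complex.exp_add, neg_add_cancel, Complex.exp_zero,
      mul_one]
    rfl
  -- the cosines
  have d1 : 2 * Complex.cos (Real.pi * W / 2) =
      Complex.exp (-(Real.pi * W / 2) * Complex.I) * (1 + qk t) := two_cos _
  have d2 : 2 * Complex.cos (Real.pi * k * W / 2) =
      Complex.exp (-(Real.pi * W / 2) * Complex.I * k) * (1 + qk t ^ k) := by
    rw [two_cos]
    have e1 : Complex.exp (Real.pi * k * W * Complex.I) = qk t ^ k := by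
      unfold qk
      rw [← Complex.exp_nat_mul, ← hW]
      congr 1
      ring
    rw [e1]
    congr 2
    ring
  have d2' : Complex.cos (Real.pi * k * W / 2) =
      Complex.exp (-(Real.pi * W / 2) * Complex.I * k) * (1 + qk t ^ k) / 2 := by
    rw [← d2]; ring
  -- nonvanishing
  have n1 : 1 + qk t ^ k ≠ 0 := by
    intro h
    have h1 : qk t ^ k = -1 := by linear_combination h
    have h2 : ‖qk t ^ k‖ = 1 := by rw [h1]; simp
    have h3 : ‖qk t‖ ≤ 1 / 2 := by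
      refine (norm_qk_le (by linarith)).trans ?_
      apply one_div_le_one_div_of_le (by norm_num) ht
    rw [norm_pow] at h2
    have h4 : ‖qk t‖ ^ k ≤ (1 / 2) ^ k := by gcongr
    have h5 : ((1:ℝ) / 2) ^ k < 1 := pow_lt_one₀ (by norm_num) (by norm_num) (by omega)
    linarith
  have n2 : s2 k t ≠ 0 := by
    unfold s2 H401R2.sA
    refine div_ne_zero (mul_ne_zero (Complex.Gamma_ne_zero_of_re_pos ?_) (Complex.exp_ne_zero _)) ?_
    · rw [zk_re]; linarith
    · rw [c1]; exact Complex.exp_ne_zero _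
  -- Ak
  have hA : Ak k W * (1 - W) = Complex.exp (k * (-W * ℓ) + k * (ℓ / 2) +
      k * ((W - 1/2) * lw - W) + -(Real.pi * W / 2) * Complex.I * k) * s1 t ^ k *
        (1 + qk t) ^ k := by
    unfold Ak
    rw [div_mul_cancel₀ _ hW1, g1, c3]
    have e1 : 2 * Complex.exp (-W * ℓ) * (Complex.exp (ℓ / 2) * s1 t *
        Complex.exp ((W - 1/2) * lw - W)) * Complex.cos (Real.pi * W / 2) =
        (Complex.exp (-W * ℓ) * Complex.exp (ℓ / 2) * Complex.exp ((W - 1/2) * lw - W) *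
          Complex.exp (-(Real.pi * W / 2) * Complex.I)) * s1 t * (1 + qk t) := by
      linear_combination (Complex.exp (-W * ℓ) * (Complex.exp (ℓ / 2) * s1 t *
        Complex.exp ((W - 1/2) * lw - W))) * d1
    rw [e1, mul_pow, mul_pow, ← Complex.exp_add, ← Complex.exp_add, ← Complex.exp_add,
      ← Complex.exp_nat_mul]
    congr 3
    ring
  have hM : Mk k W = -(Complex.exp (k * (-W * ℓ) + k * (ℓ / 2) +
      k * ((W - 1/2) * lw - W) + -(Real.pi * W / 2) * Complex.I * k) * (Complex.exp (-lw) *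
        Complex.exp (ηk k t)) * s2 k t * (1 + qk t ^ k)) := by
    unfold Mk
    rw [g2, c2, c4, d2']
    have e1 : -(2 * Complex.exp (K / 2 - ℓ)) * Complex.exp (-(k * W - (k + 1) / 2) * (ℓ + K)) *
        (Complex.exp (ℓ / 2) * s2 k t *
          Complex.exp ((k * ((W - 1/2) * lw - W)) - lw + (k * (W - 1/2) - 1) * K + ηk k t)) *
        (Complex.exp (-(Real.pi * W / 2) * Complex.I * k) * (1 + qk t ^ k) / 2) =
        -((Complex.exp (K / 2 - ℓ) * Complex.exp (-(k * W - (k + 1) / 2) * (ℓ + K)) *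
          Complex.exp (ℓ / 2) * Complex.exp ((k * ((W - 1/2) * lw - W)) - lw +
            (k * (W - 1/2) - 1) * K + ηk k t) * Complex.exp (-(Real.pi * W / 2) * Complex.I * k)) *
            s2 k t * (1 + qk t ^ k)) := by ring
    rw [e1, ← Complex.exp_add, ← Complex.exp_add, ← Complex.exp_add, ← Complex.exp_add,
      ← Complex.exp_add, ← Complex.exp_add]
    congr 4
    ring
  have hA' : Ak k W = Complex.exp (k * (-W * ℓ) + k * (ℓ / 2) +
      k * ((W - 1/2) * lw - W) + -(Real.pi * W / 2) * Complex.I * k) * s1 t ^ k *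
        (1 + qk t) ^ k / (1 - W) := by
    rw [← hA, mul_div_cancel_right₀ _ hW1]
  rw [hA', hM]
  unfold ρk
  rw [← hW]
  have e2 : Complex.exp (-lw) = W⁻¹ := by rw [Complex.exp_neg, hexp]
  have e3 : Complex.exp (-ηk k t) = (Complex.exp (ηk k t))⁻¹ := Complex.exp_neg _
  have e4 : (1 - 1 / W)⁻¹ = -(W / (1 - W)) := by
    have : W - 1 ≠ 0 := by
      intro h; apply hW1; linear_combination -h
    rw [show 1 - 1 / W = (W - 1) / W by field_simp, inv_div]
    rw [div_eq_iff this, neg_mul, div_mul_eq_mul_div, eq_neg_iff_add_eq_zero]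
    field_simp
    ring
  rw [e2, e3, e4]
  have n3 : Complex.exp (ηk k t) ≠ 0 := Complex.exp_ne_zero _
  field_simp

/-! ### size of the model factor -/

lemma norm_Gamma_half (τ : ℝ) :
    ‖Complex.Gamma (1 / 2 + τ * Complex.I)‖ ≤ √(2 * Real.pi) * Real.exp (-(Real.pi * |τ| / 2)) := by
  have hpi := Real.pi_pos
  have h1 : Complex.Gamma (1 / 2 + τ * Complex.I) * Complex.Gamma (1 - (1 / 2 + τ * Complex.I)) =
      Real.pi / Complex.sin (Real.pi * (1 / 2 + τ * Complex.I)) :=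
    Complex.Gamma_mul_Gamma_one_sub _
  have h2 : Complex.Gamma (1 - (1 / 2 + τ * Complex.I)) =
      (starRingEnd ℂ) (Complex.Gamma (1 / 2 + τ * Complex.I)) := by
    rw [← Complex.Gamma_conj]
    congr 1
    simp only [map_add, map_mul, Complex.conj_ofReal, Complex.conj_I, map_div₀, map_one, map_ofNat]
    ring
  have h3 : ‖Complex.Gamma (1 / 2 + τ * Complex.I)‖ ^ 2 =
      ‖(Real.pi : ℂ) / Complex.sin (Real.pi * (1 / 2 + τ * Complex.I))‖ := by
    rw [← h1, h2, norm_mul, RCLike.norm_conj, sq]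
  have h4 : Complex.sin (Real.pi * (1 / 2 + τ * Complex.I)) = ((Real.cosh (Real.pi * τ) : ℝ) : ℂ) := by
    have e : (Real.pi : ℂ) * (1 / 2 + τ * Complex.I) = (Real.pi * τ : ℂ) * Complex.I + Real.pi / 2 := by
      ring
    rw [e, Complex.sin_add_pi_div_two, Complex.cos_mul_I]
    push_cast
    rfl
  have hc : 0 < Real.cosh (Real.pi * τ) := Real.cosh_pos _
  rw [h4, norm_div, Complex.norm_real, Complex.norm_real, Real.norm_of_nonneg hpi.le,
    Real.norm_of_nonneg hc.le] at h3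
  have h5 : Real.exp (Real.pi * |τ|) / 2 ≤ Real.cosh (Real.pi * τ) := by
    rw [Real.cosh_eq]
    have a1 := Real.exp_pos (Real.pi * τ)
    have a2 := Real.exp_pos (-(Real.pi * τ))
    rcases abs_cases τ with ⟨h, _⟩ | ⟨h, _⟩
    · rw [h]; linarith
    · rw [h, mul_neg]; linarith
  have h6 : Real.pi / Real.cosh (Real.pi * τ) ≤ 2 * Real.pi * Real.exp (-(Real.pi * |τ|)) := by
    rw [div_le_iff₀ hc]
    have a3 : Real.exp (-(Real.pi * |τ|)) * Real.exp (Real.pi * |τ|) = 1 := by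
      rw [← Real.exp_add, neg_add_cancel, Real.exp_zero]
    have a4 := Real.exp_pos (-(Real.pi * |τ|))
    calc Real.pi = 2 * Real.pi * (Real.exp (-(Real.pi * |τ|)) * (Real.exp (Real.pi * |τ|) / 2)) := by
          rw [← mul_div_assoc, a3]; ring
      _ ≤ 2 * Real.pi * (Real.exp (-(Real.pi * |τ|)) * Real.cosh (Real.pi * τ)) := by gcongr
      _ = _ := by ring
  have h7 : (√(2 * Real.pi) * Real.exp (-(Real.pi * |τ| / 2))) ^ 2 =
      2 * Real.pi * Real.exp (-(Real.pi * |τ|)) := by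
    rw [mul_pow, Real.sq_sqrt (by positivity), ← Real.exp_nat_mul]
    congr 2
    push_cast; ring
  refine le_of_sq_le_sq ?_ (by positivity)
  rw [h7, h3]
  exact h6

lemma norm_Gamma_add (m : ℕ) (τ : ℝ) :
    ‖Complex.Gamma (m + (1 / 2 + τ * Complex.I))‖ ≤
      (m + 1 + |τ|) ^ m * (√(2 * Real.pi) * Real.exp (-(Real.pi * |τ| / 2))) := by
  induction m with
  | zero => simpa using norm_Gamma_half τ
  | succ m ih =>
    have hne : (m:ℂ) + (1 / 2 + τ * Complex.I) ≠ 0 := by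
      intro h
      have h2 := congrArg Complex.re h
      simp at h2
      have : (0:ℝ) ≤ m := Nat.cast_nonneg m
      linarith
    have e : ((m + 1 : ℕ) : ℂ) + (1 / 2 + τ * Complex.I) = (m + (1 / 2 + τ * Complex.I)) + 1 := by
      push_cast; ring
    rw [e, Complex.Gamma_add_one _ hne, norm_mul]
    have h1 : ‖(m:ℂ) + (1 / 2 + τ * Complex.I)‖ ≤ m + 1 + |τ| := by
      refine (norm_add_le _ _).trans ?_
      rw [Complex.norm_natCast]
      have h2 : ‖(1 / 2 + τ * Complex.I : ℂ)‖ ≤ 1 / 2 + |τ| := by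
        refine (norm_add_le _ _).trans ?_
        rw [norm_mul, Complex.norm_I, mul_one, Complex.norm_real, Real.norm_eq_abs]
        norm_num
      linarith
    have hτ := abs_nonneg τ
    have hm : (0:ℝ) ≤ m := Nat.cast_nonneg m
    have hE : 0 ≤ √(2 * Real.pi) * Real.exp (-(Real.pi * |τ| / 2)) := by positivity
    calc ‖(m:ℂ) + (1 / 2 + τ * Complex.I)‖ * ‖Complex.Gamma (m + (1 / 2 + τ * Complex.I))‖
        ≤ (m + 1 + |τ|) * ((m + 1 + |τ|) ^ m *
          (√(2 * Real.pi) * Real.exp (-(Real.pi * |τ| / 2)))) := by gcongr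
      _ = (m + 1 + |τ|) ^ (m + 1) * (√(2 * Real.pi) * Real.exp (-(Real.pi * |τ| / 2))) := by ring
      _ ≤ _ := by
          push_cast
          gcongr
          linarith

lemma norm_cpow_neg_le {a : ℝ} (ha : 1 ≤ a) {z : ℂ} (hz : 0 ≤ z.re) : ‖(a : ℂ) ^ (-z)‖ ≤ 1 := by
  rw [Complex.norm_cpow_eq_rpow_re_of_pos (by linarith)]
  apply Real.rpow_le_one_of_one_le_of_nonpos ha
  simp [hz]

lemma Mk_le {k : ℕ} (hk : 2 ≤ k) : ∃ C : ℝ, 0 < C ∧ ∀ t : ℝ,
    ‖Mk k (wk t)‖ ≤ C * (1 + |t|) ^ (k - 1) := by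
  have hk' : (2:ℝ) ≤ k := by exact_mod_cast hk
  have hk0 : (0:ℝ) < k := by linarith
  have hpi := Real.pi_pos
  have hpi3 := Real.pi_gt_three
  refine ⟨√(k:ℝ) / Real.pi * ((k:ℝ) ^ (k - 1) * √(2 * Real.pi)), by positivity, fun t => ?_⟩
  have ht := abs_nonneg t
  unfold Mk
  rw [norm_mul, norm_mul, norm_mul, norm_neg, Complex.norm_real, Real.norm_of_nonneg (by positivity)]
  have h1 : ‖(2 * Real.pi * k : ℂ) ^ (-(k * wk t - (k + 1) / 2))‖ ≤ 1 := by
    have e : (2 * Real.pi * k : ℂ) = ((2 * Real.pi * k : ℝ) : ℂ) := by push_cast; ring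
    rw [e]
    refine norm_cpow_neg_le (by nlinarith) ?_
    have := zk_re k t
    unfold zk at this
    rw [this]
    linarith
  have h2 : ‖Complex.Gamma (k * wk t - (k + 1) / 2)‖ ≤
      (k:ℝ) ^ (k - 1) * (1 + |t|) ^ (k - 1) *
        (√(2 * Real.pi) * Real.exp (-(Real.pi * (k * |t|) / 2))) := by
    have e1 : (k:ℂ) * wk t - (k + 1) / 2 = ((k - 1 : ℕ) : ℂ) + (1 / 2 + ((k * t : ℝ) : ℂ) * Complex.I) := by
      have : ((k - 1 : ℕ) : ℂ) = (k:ℂ) - 1 := by
        rw [Nat.cast_sub (by omega)]; simp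
      rw [this]
      unfold wk
      push_cast
      ring
    rw [e1]
    refine (norm_Gamma_add (k - 1) (k * t)).trans (le_of_eq ?_)
    have e2 : ((k - 1 : ℕ) : ℝ) + 1 = k := by
      rw [Nat.cast_sub (by omega)]; simp
    rw [e2, abs_mul, abs_of_pos hk0, ← mul_pow]
    congr 2
    ring
  have h3 : ‖Complex.cos (Real.pi * k * wk t / 2)‖ ≤ Real.exp (Real.pi * (k * |t|) / 2) := by
    refine (H387R2.Vor.norm_cos_le _).trans (le_of_eq ?_)
    have e : (Real.pi * k * wk t / 2 : ℂ) = ((Real.pi * k / 2 : ℝ) : ℂ) * wk t := by push_cast; ring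
    rw [e, Complex.im_ofReal_mul, wk_im, abs_mul, abs_of_pos (by positivity)]
    congr 1
    ring
  have h4 : Real.exp (-(Real.pi * (k * |t|) / 2)) * Real.exp (Real.pi * (k * |t|) / 2) = 1 := by
    rw [← Real.exp_add, neg_add_cancel, Real.exp_zero]
  calc √(k:ℝ) / Real.pi * ‖(2 * Real.pi * k : ℂ) ^ (-(k * wk t - (k + 1) / 2))‖ *
        ‖Complex.Gamma (k * wk t - (k + 1) / 2)‖ * ‖Complex.cos (Real.pi * k * wk t / 2)‖
      ≤ √(k:ℝ) / Real.pi * 1 * ((k:ℝ) ^ (k - 1) * (1 + |t|) ^ (k - 1) *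
        (√(2 * Real.pi) * Real.exp (-(Real.pi * (k * |t|) / 2)))) *
        Real.exp (Real.pi * (k * |t|) / 2) := by gcongr
    _ = √(k:ℝ) / Real.pi * ((k:ℝ) ^ (k - 1) * √(2 * Real.pi)) * (1 + |t|) ^ (k - 1) *
        (Real.exp (-(Real.pi * (k * |t|) / 2)) * Real.exp (Real.pi * (k * |t|) / 2)) := by ring
    _ = _ := by rw [h4, mul_one]

/-- trivial bound on bounded intervals -/
lemma Ak_le (k : ℕ) (T : ℝ) : ∃ C : ℝ, 0 < C ∧ ∀ t : ℝ, |t| ≤ T → ‖Ak k (wk t)‖ ≤ C := by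
  have hpi := Real.pi_pos
  have hpi3 := Real.pi_gt_three
  have hG : 0 < Real.Gamma (3 / 2) := Real.Gamma_pos_of_pos (by norm_num)
  refine ⟨(2 * 1 * Real.Gamma (3 / 2) * Real.exp (Real.pi * T / 2)) ^ k / (1 / 2), by positivity,
    fun t ht => ?_⟩
  unfold Ak
  rw [norm_div, norm_pow, norm_mul, norm_mul, norm_mul]
  have h1 : ‖(2 * Real.pi : ℂ) ^ (-(wk t))‖ ≤ 1 := by
    have e : (2 * Real.pi : ℂ) = ((2 * Real.pi : ℝ) : ℂ) := by push_cast; ring
    rw [e]
    exact norm_cpow_neg_le (by linarith) (by rw [wk_re]; norm_num)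
  have h2 : ‖Complex.Gamma (wk t)‖ ≤ Real.Gamma (3 / 2) := by
    have := H387R2.Vor.norm_Gamma_re (w := wk t) (by rw [wk_re]; norm_num)
    rwa [wk_re] at this
  have h3 : ‖Complex.cos (Real.pi * wk t / 2)‖ ≤ Real.exp (Real.pi * T / 2) := by
    refine (H387R2.Vor.norm_cos_le _).trans ?_
    apply Real.exp_le_exp.2
    have e : (Real.pi * wk t / 2 : ℂ) = ((Real.pi / 2 : ℝ) : ℂ) * wk t := by push_cast; ring
    rw [e, Complex.im_ofReal_mul, wk_im, abs_mul, abs_of_pos (by positivity)]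
    have : Real.pi / 2 * |t| ≤ Real.pi / 2 * T := by gcongr
    linarith
  have h4 : 1 / 2 ≤ ‖1 - wk t‖ := by
    have := Complex.abs_re_le_norm (1 - wk t)
    rw [Complex.sub_re, wk_re] at this
    norm_num at this
    linarith
  have h5 : ‖(2:ℂ)‖ = 2 := by norm_num
  rw [h5]
  gcongr

lemma conj_cpow {a : ℝ} (ha : 0 < a) (z : ℂ) :
    (a : ℂ) ^ ((starRingEnd ℂ) z) = (starRingEnd ℂ) ((a : ℂ) ^ z) := by
  have h := Complex.cpow_conj (a : ℂ) z (by rw [Complex.arg_ofReal_of_nonneg ha.le]; exact Real.pi_pos.ne)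
  rw [Complex.conj_ofReal] at h
  exact h

lemma wk_neg (t : ℝ) : wk (-t) = (starRingEnd ℂ) (wk t) := by
  unfold wk
  simp only [map_add, map_mul, Complex.conj_ofReal, Complex.conj_I, map_div₀, map_ofNat]
  push_cast
  ring

lemma Ak_conj (k : ℕ) (w : ℂ) : Ak k ((starRingEnd ℂ) w) = (starRingEnd ℂ) (Ak k w) := by
  have hpi := Real.pi_pos
  unfold Ak
  have e1 : (2 * Real.pi : ℂ) = ((2 * Real.pi : ℝ) : ℂ) := by push_cast; ring
  have e2 : (2 * Real.pi : ℂ) ^ (-((starRingEnd ℂ) w)) =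
      (starRingEnd ℂ) ((2 * Real.pi : ℂ) ^ (-w)) := by
    rw [← map_neg, e1, conj_cpow (by positivity)]
  have e3 : Complex.cos (Real.pi * (starRingEnd ℂ) w / 2) =
      (starRingEnd ℂ) (Complex.cos (Real.pi * w / 2)) := by
    rw [← Complex.cos_conj]
    congr 1
    simp only [map_mul, map_div₀, Complex.conj_ofReal, map_ofNat]
  rw [e2, e3, Complex.Gamma_conj]
  simp only [map_mul, map_div₀, map_pow, map_sub, map_one, map_ofNat]

lemma Mk_conj {k : ℕ} (hk : 2 ≤ k) (w : ℂ) : Mk k ((starRingEnd ℂ) w) = (starRingEnd ℂ) (Mk k w) := by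
  have hpi := Real.pi_pos
  have hk' : (2:ℝ) ≤ k := by exact_mod_cast hk
  have hk0 : (0:ℝ) < k := by linarith
  unfold Mk
  have e1 : (2 * Real.pi * k : ℂ) = ((2 * Real.pi * k : ℝ) : ℂ) := by push_cast; ring
  have e0 : (k : ℂ) * (starRingEnd ℂ) w - (k + 1) / 2 =
      (starRingEnd ℂ) (k * w - (k + 1) / 2) := by
    simp only [map_mul, map_div₀, map_sub, map_add, map_one, map_ofNat, map_natCast]
  have e2 : (2 * Real.pi * k : ℂ) ^ (-(k * (starRingEnd ℂ) w - (k + 1) / 2)) =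
      (starRingEnd ℂ) ((2 * Real.pi * k : ℂ) ^ (-(k * w - (k + 1) / 2))) := by
    rw [e0, ← map_neg, e1, conj_cpow (by positivity)]
  have e3 : Complex.cos (Real.pi * k * (starRingEnd ℂ) w / 2) =
      (starRingEnd ℂ) (Complex.cos (Real.pi * k * w / 2)) := by
    rw [← Complex.cos_conj]
    congr 1
    simp only [map_mul, map_div₀, Complex.conj_ofReal, map_ofNat, map_natCast]
  rw [e2, e3, e0, Complex.Gamma_conj]
  simp only [map_mul, map_neg, Complex.conj_ofReal]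

/-- TASK T6 (gamma factor) -/
theorem gamma_factor (k : ℕ) (hk2 : 2 ≤ k) : ∃ C : ℝ, 0 < C ∧ ∀ t : ℝ,
    ‖Ak k (wk t) - Mk k (wk t)‖ ≤ C * (1 + |t|) ^ ((k:ℝ) - 2) ∧
    ‖Mk k (wk t)‖ ≤ C * (1 + |t|) ^ ((k:ℝ) - 1) := by
  obtain ⟨C1, hC1, hM⟩ := Mk_le hk2
  obtain ⟨C2, hC2, hρ⟩ := (N_ρ hk2).exists_pos
  rw [IsBigOWith] at hρ
  obtain ⟨T0, hT0⟩ := Filter.eventually_atTop.1 hρ
  set T := max T0 2 with hT
  have hT2 : 2 ≤ T := le_max_right _ _
  obtain ⟨C3, hC3, hA⟩ := Ak_le k T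
  have e1 : ∀ t : ℝ, (1 + |t|) ^ (k - 1) = (1 + |t|) ^ ((k:ℝ) - 1) := by
    intro t
    rw [← Real.rpow_natCast, Nat.cast_sub (by omega)]
    simp
  have e2 : ∀ t : ℝ, (1 + |t|) ^ (k - 2) = (1 + |t|) ^ ((k:ℝ) - 2) := by
    intro t
    rw [← Real.rpow_natCast, Nat.cast_sub (by omega)]
    simp
  -- large t
  have hlarge : ∀ t : ℝ, T ≤ t → ‖Ak k (wk t) - Mk k (wk t)‖ ≤ 2 * C1 * C2 * (1 + |t|) ^ (k - 2) := by
    intro t ht
    have ht2 : 2 ≤ t := hT2.trans ht
    have ht0 : 0 < t := by linarith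
    have h1 := hT0 t ((le_max_left _ _).trans ht)
    rw [Real.norm_of_nonneg (by positivity : (0:ℝ) ≤ t⁻¹)] at h1
    have h2 := hM t
    rw [Ak_eq hk2 ht2]
    have e : Mk k (wk t) * ρk k t - Mk k (wk t) = Mk k (wk t) * (ρk k t - 1) := by ring
    rw [e, norm_mul]
    have h3 : t⁻¹ ≤ 2 * (1 + |t|)⁻¹ := by
      rw [abs_of_pos ht0, inv_eq_one_div, inv_eq_one_div, mul_one_div,
        div_le_div_iff₀ ht0 (by linarith)]
      linarith
    have hpos : 0 < 1 + |t| := by positivity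
    calc ‖Mk k (wk t)‖ * ‖ρk k t - 1‖ ≤ (C1 * (1 + |t|) ^ (k - 1)) * (C2 * (2 * (1 + |t|)⁻¹)) := by
          gcongr
          exact h1.trans (by gcongr)
      _ = 2 * C1 * C2 * ((1 + |t|) ^ (k - 1) * (1 + |t|)⁻¹) := by ring
      _ = 2 * C1 * C2 * (1 + |t|) ^ (k - 2) := by
          have : k - 1 = (k - 2) + 1 := by omega
          rw [this, pow_succ]
          field_simp
  have hsmall : ∀ t : ℝ, |t| ≤ T → ‖Ak k (wk t) - Mk k (wk t)‖ ≤
      (C3 + C1 * (1 + T) ^ (k - 1)) * (1 + |t|) ^ (k - 2) := by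
    intro t ht
    have h1 := hA t ht
    have h2 := hM t
    have h3 : (1:ℝ) ≤ (1 + |t|) ^ (k - 2) := one_le_pow₀ (by linarith [abs_nonneg t])
    have h4 : (1 + |t|) ^ (k - 1) ≤ (1 + T) ^ (k - 1) := by gcongr
    have h5 : 0 ≤ C3 + C1 * (1 + T) ^ (k - 1) := by positivity
    calc ‖Ak k (wk t) - Mk k (wk t)‖ ≤ ‖Ak k (wk t)‖ + ‖Mk k (wk t)‖ := norm_sub_le _ _
      _ ≤ C3 + C1 * (1 + T) ^ (k - 1) := by
          refine add_le_add h1 (h2.trans ?_)
          gcongr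
      _ ≤ _ := le_mul_of_one_le_right h5 h3
  refine ⟨C1 + 2 * C1 * C2 + (C3 + C1 * (1 + T) ^ (k - 1)), by positivity, fun t => ⟨?_, ?_⟩⟩
  · rw [← e2]
    have hp : 0 ≤ (1 + |t|) ^ (k - 2) := by positivity
    have hp1 : 0 ≤ C1 * (1 + |t|) ^ (k - 2) := by positivity
    have hp2 : 0 ≤ 2 * C1 * C2 * (1 + |t|) ^ (k - 2) := by positivity
    have hp3 : 0 ≤ (C3 + C1 * (1 + T) ^ (k - 1)) * (1 + |t|) ^ (k - 2) := by positivity
    rcases le_or_gt |t| T with h | h
    · have := hsmall t h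
      calc _ ≤ _ := this
        _ ≤ _ := by nlinarith
    · have hl : ‖Ak k (wk t) - Mk k (wk t)‖ ≤ 2 * C1 * C2 * (1 + |t|) ^ (k - 2) := by
        rcases abs_cases t with ⟨h1, _⟩ | ⟨h1, _⟩
        · rw [h1] at h
          exact hlarge t h.le
        · rw [h1] at h
          have h2 := hlarge (-t) h.le
          rw [wk_neg, Ak_conj, Mk_conj hk2, ← map_sub, RCLike.norm_conj, abs_neg] at h2
          exact h2
      calc _ ≤ _ := hl
        _ ≤ _ := by nlinarith
  · rw [← e1]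
    refine (hM t).trans ?_
    have hp : 0 ≤ (1 + |t|) ^ (k - 1) := by positivity
    have hT' : 0 ≤ 2 * C1 * C2 + (C3 + C1 * (1 + T) ^ (k - 1)) := by positivity
    nlinarith

end Pool.Agent.H804R2.PZ
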