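import Mathlib

set_option autoImplicit false

open MeasureTheory Set Filter Topology Complex

namespace Pool.Agent.H804R2.QC

/-- Poisson kernel of the upper half plane -/
noncomputable def PK (t x : ℝ) : ℝ := t / (Real.pi * (t ^ 2 + x ^ 2))

theorem PK_nonneg {t : ℝ} (ht : 0 < t) (x : ℝ) : 0 ≤ PK t x := by
  unfold PK; positivity

theorem ne_plus {a : ℂ} (ha : 0 < a.re) (s : ℝ) : a + I * s ≠ 0 := by
  intro h
  have := congrArg Complex.re h
  simp at this
  linarith

theorem ne_minus {a : ℂ} (ha : 0 < a.re) (s : ℝ) : a - I * s ≠ 0 := by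
  intro h
  have := congrArg Complex.re h
  simp at this
  linarith

theorem norm_sq_plus {a : ℂ} (s : ℝ) : ‖a + I * s‖ ^ 2 = a.re ^ 2 + (a.im + s) ^ 2 := by
  rw [← Complex.normSq_eq_norm_sq, Complex.normSq_apply]
  simp
  ring

theorem norm_sq_minus {a : ℂ} (s : ℝ) : ‖a - I * s‖ ^ 2 = a.re ^ 2 + (a.im - s) ^ 2 := by
  rw [← Complex.normSq_eq_norm_sq, Complex.normSq_apply]
  simp
  ring

theorem inv_sq_integrable_aux {c d : ℝ} (hc : 0 < c) : Integrable (fun s : ℝ => (c ^ 2 + (d + s) ^ 2)⁻¹) := by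
  have h := ((integrable_inv_one_add_sq.comp_div hc.ne').comp_add_left d).const_mul ((c ^ 2)⁻¹)
  refine h.congr (Eventually.of_forall fun s => ?_)
  have h1 : 0 < c ^ 2 + (d + s) ^ 2 := by positivity
  have h2 : 0 < 1 + ((d + s) / c) ^ 2 := by positivity
  simp only
  field_simp

theorem sq_plus_integrable {a : ℂ} (ha : 0 < a.re) : Integrable (fun s : ℝ => (‖a + I * s‖ ^ 2)⁻¹) := by
  simp_rw [norm_sq_plus]
  exact inv_sq_integrable_aux ha

theorem sq_minus_integrable {a : ℂ} (ha : 0 < a.re) : Integrable (fun s : ℝ => (‖a - I * s‖ ^ 2)⁻¹) := by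
  simp_rw [norm_sq_minus]
  have h := (inv_sq_integrable_aux (c := a.re) (d := -a.im) ha)
  refine h.congr (Eventually.of_forall fun s => ?_)
  simp only
  ring_nf

theorem prod_integrable {F G : ℝ → ℂ} (hF : Continuous F) (hG : Continuous G)
    (hF0 : ∀ s, F s ≠ 0) (hG0 : ∀ s, G s ≠ 0)
    (h1 : Integrable (fun s => (‖F s‖ ^ 2)⁻¹)) (h2 : Integrable (fun s => (‖G s‖ ^ 2)⁻¹)) :
    Integrable (fun s : ℝ => (F s)⁻¹ * (G s)⁻¹) := by
  refine (h1.add h2).mono' ?_ ?_
  · exact ((hF.inv₀ hF0).mul (hG.inv₀ hG0)).aestronglyMeasurable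
  · refine Eventually.of_forall fun s => ?_
    have ha : 0 < ‖F s‖ := norm_pos_iff.2 (hF0 s)
    have hb : 0 < ‖G s‖ := norm_pos_iff.2 (hG0 s)
    simp only [norm_mul, norm_inv, Pi.add_apply]
    have e1 : (‖F s‖ ^ 2)⁻¹ = (‖F s‖⁻¹) ^ 2 := by rw [inv_pow]
    have e2 : (‖G s‖ ^ 2)⁻¹ = (‖G s‖⁻¹) ^ 2 := by rw [inv_pow]
    rw [e1, e2]
    have := sq_nonneg (‖F s‖⁻¹ - ‖G s‖⁻¹)
    have h3 : 0 ≤ ‖F s‖⁻¹ * ‖G s‖⁻¹ := by positivity
    nlinarith

theorem cont_plus (a : ℂ) : Continuous (fun s : ℝ => a + I * s) := by fun_prop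
theorem cont_minus (a : ℂ) : Continuous (fun s : ℝ => a - I * s) := by fun_prop

/-- limit of `log (a + I s) - log s` as `s → ∞` -/
theorem lim_plus_top (a : ℂ) : Tendsto (fun s : ℝ => Complex.log (a + I * s) - (Real.log s : ℂ)) atTop
    (𝓝 (Complex.log I)) := by
  have h1 : Tendsto (fun s : ℝ => a * (s : ℂ)⁻¹ + I) atTop (𝓝 (a * 0 + I)) := by
    refine (Tendsto.const_mul a ?_).add_const I
    have : Tendsto (fun s : ℝ => ((s⁻¹ : ℝ) : ℂ)) atTop (𝓝 ((0 : ℝ) : ℂ)) :=
      (Complex.continuous_ofReal.tendsto _).comp tendsto_inv_atTop_zero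
    simpa using this
  rw [mul_zero, zero_add] at h1
  have h2 : Tendsto (fun s : ℝ => Complex.log (a * (s : ℂ)⁻¹ + I)) atTop (𝓝 (Complex.log I)) := by
    refine (continuousAt_clog ?_).tendsto.comp h1
    rw [Complex.mem_slitPlane_iff]; right; simp
  refine h2.congr' ?_
  have hne : ∀ᶠ s : ℝ in atTop, a * (s : ℂ)⁻¹ + I ≠ 0 := by
    exact h1.eventually_ne I_ne_zero
  filter_upwards [hne, eventually_gt_atTop 0] with s hs hs0
  have e : a + I * s = (s : ℂ) * (a * (s : ℂ)⁻¹ + I) := by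
    have : (s : ℂ) ≠ 0 := by exact_mod_cast hs0.ne'
    field_simp
  rw [e, Complex.log_ofReal_mul hs0 hs]
  simp

theorem lim_minus_top (a : ℂ) : Tendsto (fun s : ℝ => Complex.log (a - I * s) - (Real.log s : ℂ)) atTop
    (𝓝 (Complex.log (-I))) := by
  have h1 : Tendsto (fun s : ℝ => a * (s : ℂ)⁻¹ + -I) atTop (𝓝 (a * 0 + -I)) := by
    refine (Tendsto.const_mul a ?_).add_const (-I)
    have : Tendsto (fun s : ℝ => ((s⁻¹ : ℝ) : ℂ)) atTop (𝓝 ((0 : ℝ) : ℂ)) :=
      (Complex.continuous_ofReal.tendsto _).comp tendsto_inv_atTop_zero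
    simpa using this
  rw [mul_zero, zero_add] at h1
  have h2 : Tendsto (fun s : ℝ => Complex.log (a * (s : ℂ)⁻¹ + -I)) atTop (𝓝 (Complex.log (-I))) := by
    refine (continuousAt_clog ?_).tendsto.comp h1
    rw [Complex.mem_slitPlane_iff]; right; simp
  refine h2.congr' ?_
  have hne : ∀ᶠ s : ℝ in atTop, a * (s : ℂ)⁻¹ + -I ≠ 0 := by
    exact h1.eventually_ne (neg_ne_zero.2 I_ne_zero)
  filter_upwards [hne, eventually_gt_atTop 0] with s hs hs0
  have e : a - I * s = (s : ℂ) * (a * (s : ℂ)⁻¹ + -I) := by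
    have : (s : ℂ) ≠ 0 := by exact_mod_cast hs0.ne'
    field_simp
    ring
  rw [e, Complex.log_ofReal_mul hs0 hs]
  simp

theorem log_plus_deriv {a : ℂ} (ha : 0 < a.re) (s : ℝ) :
    HasDerivAt (fun s : ℝ => Complex.log (a + I * s)) (I * (a + I * s)⁻¹) s := by
  have h1 : HasDerivAt (fun s : ℝ => a + I * (s : ℂ)) I s := by
    simpa using ((Complex.ofRealCLM.hasDerivAt (x := s)).const_mul I).const_add a
  have h2 : a + I * s ∈ Complex.slitPlane := by
    rw [Complex.mem_slitPlane_iff]; left; simpa using ha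
  exact h1.clog_real h2

theorem log_minus_deriv {a : ℂ} (ha : 0 < a.re) (s : ℝ) :
    HasDerivAt (fun s : ℝ => Complex.log (a - I * s)) (-I * (a - I * s)⁻¹) s := by
  have h1 : HasDerivAt (fun s : ℝ => a - I * (s : ℂ)) (-I) s := by
    simpa using ((Complex.ofRealCLM.hasDerivAt (x := s)).const_mul I).const_sub a
  have h2 : a - I * s ∈ Complex.slitPlane := by
    rw [Complex.mem_slitPlane_iff]; left; simpa using ha
  exact h1.clog_real h2

theorem plus_neg (a : ℂ) (s : ℝ) : a + I * ((-s : ℝ) : ℂ) = a - I * s := by push_cast; ring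
theorem minus_neg (a : ℂ) (s : ℝ) : a - I * ((-s : ℝ) : ℂ) = a + I * s := by push_cast; ring

theorem int_mixed {a b : ℂ} (ha : 0 < a.re) (hb : 0 < b.re) :
    ∫ s : ℝ, (a + I * s)⁻¹ * (b - I * s)⁻¹ = 2 * Real.pi / (a + b) := by
  have hab : a + b ≠ 0 := by
    intro h
    have := congrArg Complex.re h
    simp at this
    linarith
  have hint : Integrable (fun s : ℝ => (a + I * s)⁻¹ * (b - I * s)⁻¹) :=
    prod_integrable (cont_plus a) (cont_minus b) (ne_plus ha) (ne_minus hb) (sq_plus_integrable ha)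
      (sq_minus_integrable hb)
  have hder : ∀ s : ℝ, HasDerivAt
      (fun s : ℝ => -I / (a + b) * (Complex.log (a + I * s) - Complex.log (b - I * s)))
      ((a + I * s)⁻¹ * (b - I * s)⁻¹) s := by
    intro s
    have h := ((log_plus_deriv ha s).sub (log_minus_deriv hb s)).const_mul (-I / (a + b))
    refine h.congr_deriv ?_
    have h1 := ne_plus ha s
    have h2 := ne_minus hb s
    field_simp
    ring_nf
    simp only [I_sq]
    ring
  have htop : Tendsto (fun s : ℝ => -I / (a + b) * (Complex.log (a + I * s) - Complex.log (b - I * s)))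
      atTop (𝓝 (-I / (a + b) * (Complex.log I - Complex.log (-I)))) := by
    apply Tendsto.const_mul
    have h := (lim_plus_top a).sub (lim_minus_top b)
    refine h.congr (fun s => ?_)
    ring
  have hbot : Tendsto (fun s : ℝ => -I / (a + b) * (Complex.log (a + I * s) - Complex.log (b - I * s)))
      atBot (𝓝 (-I / (a + b) * (Complex.log (-I) - Complex.log I))) := by
    apply Tendsto.const_mul
    have h := ((lim_minus_top a).sub (lim_plus_top b)).comp tendsto_neg_atBot_atTop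
    refine h.congr (fun s => ?_)
    simp only [Function.comp]
    rw [minus_neg, plus_neg]
    ring
  rw [integral_of_hasDerivAt_of_tendsto hder hint hbot htop]
  rw [Complex.log_I, Complex.log_neg_I]
  field_simp
  ring_nf
  simp only [I_sq]
  ring

theorem int_same {a b : ℂ} (ha : 0 < a.re) (hb : 0 < b.re) :
    ∫ s : ℝ, (a + I * s)⁻¹ * (b + I * s)⁻¹ = 0 := by
  have hint : Integrable (fun s : ℝ => (a + I * s)⁻¹ * (b + I * s)⁻¹) :=
    prod_integrable (cont_plus a) (cont_plus b) (ne_plus ha) (ne_plus hb) (sq_plus_integrable ha)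
      (sq_plus_integrable hb)
  by_cases hab : a = b
  · subst hab
    have hder : ∀ s : ℝ, HasDerivAt (fun s : ℝ => I * (a + I * s)⁻¹)
        ((a + I * s)⁻¹ * (a + I * s)⁻¹) s := by
      intro s
      have h1 : HasDerivAt (fun s : ℝ => a + I * (s : ℂ)) I s := by
        simpa using ((Complex.ofRealCLM.hasDerivAt (x := s)).const_mul I).const_add a
      have h2 := ne_plus ha s
      have h := (h1.inv h2).const_mul I
      refine h.congr_deriv ?_
      field_simp
      simp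
    have hgen : ∀ l : Filter ℝ, Tendsto (fun s : ℝ => ‖s‖) l atTop →
        Tendsto (fun s : ℝ => I * (a + I * (s : ℂ))⁻¹) l (𝓝 0) := by
      intro l hl
      have h1 : Tendsto (fun s : ℝ => ‖s‖ - ‖a‖) l atTop :=
        tendsto_atTop_add_const_right _ _ hl
      have h2 : Tendsto (fun s : ℝ => ‖a + I * (s : ℂ)‖) l atTop := by
        refine tendsto_atTop_mono (fun s => ?_) h1
        have := norm_sub_norm_le (I * (s : ℂ)) (-a)
        rw [norm_neg, sub_neg_eq_add, norm_mul, Complex.norm_I, one_mul, Complex.norm_real, add_comm] at this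
        linarith
      have h3 := tendsto_inv₀_cobounded.comp (tendsto_norm_atTop_iff_cobounded.1 h2)
      have h4 := h3.const_mul I
      rwa [mul_zero] at h4
    rw [integral_of_hasDerivAt_of_tendsto hder hint (hgen _ (by simpa using tendsto_abs_atBot_atTop))
      (hgen _ tendsto_norm_atTop_atTop), sub_zero]
  · have hab' : b - a ≠ 0 := sub_ne_zero.2 (Ne.symm hab)
    have hder : ∀ s : ℝ, HasDerivAt
        (fun s : ℝ => -I / (b - a) * (Complex.log (a + I * s) - Complex.log (b + I * s)))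
        ((a + I * s)⁻¹ * (b + I * s)⁻¹) s := by
      intro s
      have h := ((log_plus_deriv ha s).sub (log_plus_deriv hb s)).const_mul (-I / (b - a))
      refine h.congr_deriv ?_
      have h1 := ne_plus ha s
      have h2 := ne_plus hb s
      field_simp
      ring_nf
      simp only [I_sq]
      ring
    have htop : Tendsto (fun s : ℝ => -I / (b - a) * (Complex.log (a + I * s) - Complex.log (b + I * s)))
        atTop (𝓝 (-I / (b - a) * (Complex.log I - Complex.log I))) := by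
      apply Tendsto.const_mul
      have h := (lim_plus_top a).sub (lim_plus_top b)
      refine h.congr (fun s => ?_)
      ring
    have hbot : Tendsto (fun s : ℝ => -I / (b - a) * (Complex.log (a + I * s) - Complex.log (b + I * s)))
        atBot (𝓝 (-I / (b - a) * (Complex.log (-I) - Complex.log (-I)))) := by
      apply Tendsto.const_mul
      have h := ((lim_minus_top a).sub (lim_minus_top b)).comp tendsto_neg_atBot_atTop
      refine h.congr (fun s => ?_)
      simp only [Function.comp]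
      rw [minus_neg, minus_neg]
      ring
    rw [integral_of_hasDerivAt_of_tendsto hder hint hbot htop]
    simp

theorem int_same' {a b : ℂ} (ha : 0 < a.re) (hb : 0 < b.re) :
    ∫ s : ℝ, (a - I * s)⁻¹ * (b - I * s)⁻¹ = 0 := by
  have h := integral_neg_eq_self (fun s : ℝ => (a - I * (s : ℂ))⁻¹ * (b - I * (s : ℂ))⁻¹) volume
  rw [← h]
  simp_rw [minus_neg]
  exact int_same ha hb

theorem PK_eq {t : ℝ} (ht : 0 < t) (x : ℝ) :
    ((PK t x : ℝ) : ℂ) = (2 * Real.pi : ℂ)⁻¹ * (((t : ℂ) + I * x)⁻¹ + ((t : ℂ) - I * x)⁻¹) := by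
  have h1 : (t : ℂ) + I * x ≠ 0 := ne_plus (by simpa using ht) x
  have h2 : (t : ℂ) - I * x ≠ 0 := ne_minus (by simpa using ht) x
  have hpi : (Real.pi : ℂ) ≠ 0 := by exact_mod_cast Real.pi_ne_zero
  have h3 : (t : ℂ) ^ 2 + (x : ℂ) ^ 2 ≠ 0 := by
    have : (t : ℂ) ^ 2 + (x : ℂ) ^ 2 = ((t : ℂ) + I * x) * ((t : ℂ) - I * x) := by
      ring_nf; simp only [I_sq]; ring
    rw [this]; exact mul_ne_zero h1 h2
  have e : ((t : ℂ) + I * x)⁻¹ + ((t : ℂ) - I * x)⁻¹ = 2 * t / ((t : ℂ) ^ 2 + (x : ℂ) ^ 2) := by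
    rw [inv_add_inv h1 h2]
    have : (t : ℂ) ^ 2 + (x : ℂ) ^ 2 = ((t : ℂ) + I * x) * ((t : ℂ) - I * x) := by
      ring_nf; simp only [I_sq]; ring
    rw [this]
    congr 1
    ring
  rw [e]
  unfold PK
  push_cast
  field_simp

theorem PK_mul_eq {y h : ℝ} (hy : 0 < y) (hh : 0 < h) (x q s : ℝ) :
    (((PK y (x - s) * PK h (s - q) : ℝ)) : ℂ) = (2 * Real.pi : ℂ)⁻¹ ^ 2 *
      (((((h : ℂ) - I * q) + I * s)⁻¹ * (((y : ℂ) + I * x) - I * s)⁻¹ +
        (((y : ℂ) - I * x) + I * s)⁻¹ * (((h : ℂ) - I * q) + I * s)⁻¹) +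
       ((((y : ℂ) + I * x) - I * s)⁻¹ * (((h : ℂ) + I * q) - I * s)⁻¹ +
        (((y : ℂ) - I * x) + I * s)⁻¹ * (((h : ℂ) + I * q) - I * s)⁻¹)) := by
  rw [Complex.ofReal_mul, PK_eq hy, PK_eq hh]
  have e1 : (y : ℂ) + I * ((x - s : ℝ) : ℂ) = ((y : ℂ) + I * x) - I * s := by push_cast; ring
  have e2 : (y : ℂ) - I * ((x - s : ℝ) : ℂ) = ((y : ℂ) - I * x) + I * s := by push_cast; ring
  have e3 : (h : ℂ) + I * ((s - q : ℝ) : ℂ) = ((h : ℂ) - I * q) + I * s := by push_cast; ring
  have e4 : (h : ℂ) - I * ((s - q : ℝ) : ℂ) = ((h : ℂ) + I * q) - I * s := by push_cast; ring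
  rw [e1, e2, e3, e4]
  ring

theorem int4 {f1 f2 f3 f4 : ℝ → ℂ} (i1 : Integrable f1) (i2 : Integrable f2) (i3 : Integrable f3)
    (i4 : Integrable f4) : ∫ s, (f1 s + f2 s + (f3 s + f4 s)) =
      (∫ s, f1 s) + (∫ s, f2 s) + ((∫ s, f3 s) + ∫ s, f4 s) := by
  have h12 : Integrable (fun s => f1 s + f2 s) := i1.add i2
  have h34 : Integrable (fun s => f3 s + f4 s) := i3.add i4
  rw [integral_add h12 h34, integral_add i1 i2, integral_add i3 i4]

theorem PK_semigroup_aux {y h : ℝ} (hy : 0 < y) (hh : 0 < h) (x q : ℝ) :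
    Integrable (fun s : ℝ => ((PK y (x - s) * PK h (s - q) : ℝ) : ℂ)) ∧
    ∫ s : ℝ, ((PK y (x - s) * PK h (s - q) : ℝ) : ℂ) = ((PK (y + h) (x - q) : ℝ) : ℂ) := by
  have p1 : 0 < ((h : ℂ) - I * q).re := by simpa using hh
  have p2 : 0 < ((y : ℂ) + I * x).re := by simpa using hy
  have p3 : 0 < ((y : ℂ) - I * x).re := by simpa using hy
  have p4 : 0 < ((h : ℂ) + I * q).re := by simpa using hh
  have i1 := prod_integrable (cont_plus _) (cont_minus _) (ne_plus p1) (ne_minus p2)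
    (sq_plus_integrable p1) (sq_minus_integrable p2)
  have i2 := prod_integrable (cont_plus _) (cont_plus _) (ne_plus p3) (ne_plus p1)
    (sq_plus_integrable p3) (sq_plus_integrable p1)
  have i3 := prod_integrable (cont_minus _) (cont_minus _) (ne_minus p2) (ne_minus p4)
    (sq_minus_integrable p2) (sq_minus_integrable p4)
  have i4 := prod_integrable (cont_plus _) (cont_minus _) (ne_plus p3) (ne_minus p4)
    (sq_plus_integrable p3) (sq_minus_integrable p4)
  simp_rw [PK_mul_eq hy hh]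
  refine ⟨((i1.add i2).add (i3.add i4)).const_mul _, ?_⟩
  rw [integral_const_mul, int4 i1 i2 i3 i4, int_mixed p1 p2, int_same p3 p1, int_same' p2 p4,
    int_mixed p3 p4]
  rw [PK_eq (add_pos hy hh)]
  have e1 : (h : ℂ) - I * q + ((y : ℂ) + I * x) = ((y + h : ℝ) : ℂ) + I * ((x - q : ℝ) : ℂ) := by
    push_cast; ring
  have e2 : (y : ℂ) - I * x + ((h : ℂ) + I * q) = ((y + h : ℝ) : ℂ) - I * ((x - q : ℝ) : ℂ) := by
    push_cast; ring
  rw [e1, e2]
  have hpi : (Real.pi : ℂ) ≠ 0 := by exact_mod_cast Real.pi_ne_zero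
  field_simp
  ring

theorem PK_semigroup {y h : ℝ} (hy : 0 < y) (hh : 0 < h) (x q : ℝ) :
    Integrable (fun s : ℝ => PK y (x - s) * PK h (s - q)) ∧
    ∫ s : ℝ, PK y (x - s) * PK h (s - q) = PK (y + h) (x - q) := by
  obtain ⟨h1, h2⟩ := PK_semigroup_aux hy hh x q
  refine ⟨?_, ?_⟩
  · simpa using h1.re
  · have h3 : ∫ s : ℝ, ((PK y (x - s) * PK h (s - q) : ℝ) : ℂ) =
        ((∫ s : ℝ, PK y (x - s) * PK h (s - q) : ℝ) : ℂ) := integral_ofReal
    rw [h3] at h2
    exact_mod_cast h2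

/-- the kernel with values in `[0,∞]` -/
noncomputable def EK (t x : ℝ) : ENNReal := ENNReal.ofReal (PK t x)

theorem EK_semigroup {y h : ℝ} (hy : 0 < y) (hh : 0 < h) (x q : ℝ) :
    ∫⁻ s : ℝ, EK y (x - s) * EK h (s - q) = EK (y + h) (x - q) := by
  obtain ⟨h1, h2⟩ := PK_semigroup hy hh x q
  unfold EK
  rw [← h2, ofReal_integral_eq_lintegral_ofReal h1]
  · congr 1
    funext s
    rw [ENNReal.ofReal_mul (PK_nonneg hy _)]
  · exact Eventually.of_forall fun s => mul_nonneg (PK_nonneg hy _) (PK_nonneg hh _)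

theorem PK_integrable {t : ℝ} (ht : 0 < t) : Integrable (fun s : ℝ => PK t s) := by
  have h := (inv_sq_integrable_aux (c := t) (d := 0) ht).const_mul (t / Real.pi)
  refine h.congr (Eventually.of_forall fun s => ?_)
  unfold PK
  simp only
  rw [zero_add]
  field_simp

theorem PK_integral {t : ℝ} (ht : 0 < t) : ∫ s : ℝ, PK t s = 1 := by
  have e : (fun s : ℝ => PK t s) = fun s => (Real.pi * t)⁻¹ * (1 + (s / t) ^ 2)⁻¹ := by
    funext s
    unfold PK
    have h1 : 0 < t ^ 2 + s ^ 2 := by positivity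
    have h2 : 0 < 1 + (s / t) ^ 2 := by positivity
    have h3 := Real.pi_pos
    field_simp
  rw [e, integral_const_mul, Measure.integral_comp_div (fun τ : ℝ => (1 + τ ^ 2)⁻¹) t,
    integral_univ_inv_one_add_sq, smul_eq_mul, abs_of_pos ht]
  have h3 := Real.pi_pos
  field_simp

theorem EK_integral {t : ℝ} (ht : 0 < t) : ∫⁻ s : ℝ, EK t s = 1 := by
  unfold EK
  rw [← ofReal_integral_eq_lintegral_ofReal (PK_integrable ht)
    (Eventually.of_forall fun s => PK_nonneg ht s), PK_integral ht, ENNReal.ofReal_one]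

theorem EK_integral_sub {t : ℝ} (ht : 0 < t) (x : ℝ) : ∫⁻ s : ℝ, EK t (x - s) = 1 := by
  rw [lintegral_sub_left_eq_self (fun s => EK t s) x, EK_integral ht]

theorem EK_integral_sub' {t : ℝ} (ht : 0 < t) (x : ℝ) : ∫⁻ s : ℝ, EK t (s - x) = 1 := by
  rw [lintegral_sub_right_eq_self (fun s => EK t s) x, EK_integral ht]

theorem PK_measurable : Measurable (fun p : ℝ × ℝ => PK p.1 p.2) := by
  unfold PK
  fun_prop

theorem EK_measurable : Measurable (fun p : ℝ × ℝ => EK p.1 p.2) :=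
  ENNReal.measurable_ofReal.comp PK_measurable

theorem PK_le {t : ℝ} (ht : 1 ≤ t) (x : ℝ) : PK t x ≤ 1 := by
  unfold PK
  have h3 : 3 < Real.pi := Real.pi_gt_three
  rw [div_le_one (by positivity)]
  have : t ≤ t ^ 2 := by nlinarith
  nlinarith [sq_nonneg x, sq_nonneg t]

end Pool.Agent.H804R2.QC
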