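import Pool.Agent.H804R2.QC1

set_option autoImplicit false

open MeasureTheory Set Filter Topology Complex

namespace Pool.Agent.H804R2.QC

theorem EK_meas_left (x : ℝ) : Measurable (fun t : ℝ => EK t x) :=
  EK_measurable.comp (measurable_id.prodMk measurable_const)

theorem EK_meas_right (t : ℝ) : Measurable (fun x : ℝ => EK t x) :=
  EK_measurable.comp (measurable_const.prodMk measurable_id)

/-- log potential -/
noncomputable def vv (x : ℝ) : ENNReal := ∫⁻ t in Ioo (0 : ℝ) 1, EK t x

theorem vv_meas : Measurable vv := by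
  unfold vv
  exact Measurable.lintegral_prod_right' (f := fun p : ℝ × ℝ => EK p.2 p.1)
    (EK_measurable.comp measurable_swap)

theorem vv_shift {h : ℝ} (hh : 0 < h) (x : ℝ) :
    ∫⁻ t in Ioo (0 : ℝ) 1, EK (h + t) x ≤ vv x + ENNReal.ofReal h := by
  have e1 : ∫⁻ t in Ioo (0 : ℝ) 1, EK (h + t) x =
      ∫⁻ t, (Ioo h (h + 1)).indicator (fun t => EK t x) t := by
    rw [← lintegral_indicator measurableSet_Ioo,
      ← lintegral_add_left_eq_self ((Ioo h (h + 1)).indicator (fun t => EK t x)) h]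
    congr 1
    funext t
    by_cases ht : t ∈ Ioo (0 : ℝ) 1
    · rw [indicator_of_mem ht, indicator_of_mem]
      constructor <;> linarith [ht.1, ht.2]
    · rw [indicator_of_notMem ht, indicator_of_notMem]
      intro h2
      apply ht
      constructor <;> linarith [h2.1, h2.2]
  rw [e1]
  unfold vv
  have e2 : ENNReal.ofReal h = ∫⁻ t, (Ico (1 : ℝ) (1 + h)).indicator (fun _ => (1 : ENNReal)) t := by
    rw [lintegral_indicator measurableSet_Ico]
    simp
  rw [e2, ← lintegral_indicator measurableSet_Ioo, ← lintegral_add_right]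
  · apply lintegral_mono
    intro t
    simp only
    by_cases ht : t ∈ Ioo h (h + 1)
    · rw [indicator_of_mem ht]
      by_cases h1 : t < 1
      · rw [indicator_of_mem (show t ∈ Ioo (0:ℝ) 1 from ⟨by linarith [ht.1], h1⟩)]
        exact le_self_add
      · push Not at h1
        rw [indicator_of_mem (show t ∈ Ico (1:ℝ) (1 + h) from ⟨h1, by linarith [ht.2]⟩)]
        refine le_trans ?_ le_add_self
        unfold EK
        rw [← ENNReal.ofReal_one]
        exact ENNReal.ofReal_le_ofReal (PK_le h1 x)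
    · rw [indicator_of_notMem ht]
      exact bot_le
  · exact measurable_const.indicator measurableSet_Ico

theorem vv_ineq {h : ℝ} (hh : 0 < h) (x q : ℝ) :
    ∫⁻ s, EK h (x - s) * vv (s - q) ≤ vv (x - q) + ENNReal.ofReal h := by
  have hm : Measurable (fun p : ℝ × ℝ => EK h (x - p.1) * EK p.2 (p.1 - q)) := by
    have g1 : Measurable (fun p : ℝ × ℝ => EK h (x - p.1)) :=
      (EK_meas_right h).comp (measurable_const.sub measurable_fst)
    have g2 : Measurable (fun p : ℝ × ℝ => EK p.2 (p.1 - q)) :=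
      EK_measurable.comp (measurable_snd.prodMk (measurable_fst.sub_const q))
    exact g1.mul g2
  calc ∫⁻ s, EK h (x - s) * vv (s - q)
      = ∫⁻ s, ∫⁻ t in Ioo (0 : ℝ) 1, EK h (x - s) * EK t (s - q) := by
        congr 1
        funext s
        unfold vv
        rw [lintegral_const_mul _ (EK_meas_left _)]
    _ = ∫⁻ t in Ioo (0 : ℝ) 1, ∫⁻ s, EK h (x - s) * EK t (s - q) := by
        rw [lintegral_lintegral_swap]
        exact hm.aemeasurable
    _ = ∫⁻ t in Ioo (0 : ℝ) 1, EK (h + t) (x - q) := by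
        apply setLIntegral_congr_fun measurableSet_Ioo
        intro t ht
        exact EK_semigroup hh ht.1 x q
    _ ≤ vv (x - q) + ENNReal.ofReal h := vv_shift hh _

theorem vv_integral (q : ℝ) : ∫⁻ s, vv (s - q) = 1 := by
  rw [lintegral_sub_right_eq_self (fun s => vv s) q]
  unfold vv
  rw [lintegral_lintegral_swap]
  · have : ∫⁻ t in Ioo (0 : ℝ) 1, ∫⁻ s, EK t s = ∫⁻ t in Ioo (0 : ℝ) 1, 1 := by
      apply setLIntegral_congr_fun measurableSet_Ioo
      intro t ht
      exact EK_integral ht.1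
    rw [this]
    simp
  · exact (EK_measurable.comp measurable_swap).aemeasurable

theorem PK_ge {t x : ℝ} (ht : 0 < t) (hx : |x| ≤ t) : (2 * Real.pi)⁻¹ * (1 / t) ≤ PK t x := by
  unfold PK
  have h1 : x ^ 2 ≤ t ^ 2 := by
    rw [← sq_abs]
    exact pow_le_pow_left₀ (abs_nonneg x) hx 2
  have h3 := Real.pi_pos
  rw [← mul_one_div_cancel ht.ne', ]
  rw [← sub_nonneg]
  have e : t / (Real.pi * (t ^ 2 + x ^ 2)) - (2 * Real.pi)⁻¹ * (t * (1 / t) / t) =
      (t ^ 2 - x ^ 2) / (2 * Real.pi * t * (t ^ 2 + x ^ 2)) := by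
    have : 0 < t ^ 2 + x ^ 2 := by positivity
    field_simp
    ring
  rw [e]
  apply div_nonneg
  · linarith
  · positivity

theorem vv_ge {δ x : ℝ} (hδ : 0 < δ) (hδ1 : δ < 1) (hx : |x| ≤ δ) :
    ENNReal.ofReal ((2 * Real.pi)⁻¹ * Real.log (1 / δ)) ≤ vv x := by
  have h3 := Real.pi_pos
  have e1 : (2 * Real.pi)⁻¹ * Real.log (1 / δ) = ∫ t in Ioo δ 1, (2 * Real.pi)⁻¹ * (1 / t) := by
    rw [← integral_Ioc_eq_integral_Ioo, ← intervalIntegral.integral_of_le hδ1.le,
      intervalIntegral.integral_const_mul, integral_one_div_of_pos hδ one_pos]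
  have hint : IntegrableOn (fun t : ℝ => (2 * Real.pi)⁻¹ * (1 / t)) (Ioo δ 1) := by
    have h1 : ContinuousOn (fun t : ℝ => (2 * Real.pi)⁻¹ * (1 / t)) (Icc δ 1) := by
      apply ContinuousOn.mul continuousOn_const
      apply ContinuousOn.div continuousOn_const continuousOn_id
      intro t ht
      have : 0 < t := lt_of_lt_of_le hδ ht.1
      exact this.ne'
    exact (h1.integrableOn_Icc).mono_set Ioo_subset_Icc_self
  rw [e1, ofReal_integral_eq_lintegral_ofReal hint]
  · unfold vv
    calc ∫⁻ t in Ioo δ 1, ENNReal.ofReal ((2 * Real.pi)⁻¹ * (1 / t))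
        ≤ ∫⁻ t in Ioo δ 1, EK t x := by
          apply setLIntegral_mono (EK_meas_left x)
          intro t ht
          exact ENNReal.ofReal_le_ofReal (PK_ge (hδ.trans ht.1) (hx.trans ht.1.le))
      _ ≤ ∫⁻ t in Ioo 0 1, EK t x := by
          apply lintegral_mono_set
          exact Ioo_subset_Ioo_left hδ.le
  · rw [Filter.EventuallyLE, ae_restrict_iff' measurableSet_Ioo]
    exact Eventually.of_forall fun t ht => by
      have : 0 < t := hδ.trans ht.1
      simp only [Pi.zero_apply]
      positivity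

theorem vv_near (M : ℝ) : ∃ δ : ℝ, 0 < δ ∧ ∀ x : ℝ, |x| ≤ δ → ENNReal.ofReal M ≤ vv x := by
  have h3 := Real.pi_pos
  set δ := min (1 / 2) (Real.exp (-(2 * Real.pi * M))) with hδ
  have hδ0 : 0 < δ := lt_min (by norm_num) (Real.exp_pos _)
  have hδ1 : δ < 1 := lt_of_le_of_lt (min_le_left _ _) (by norm_num)
  refine ⟨δ, hδ0, fun x hx => le_trans ?_ (vv_ge hδ0 hδ1 hx)⟩
  apply ENNReal.ofReal_le_ofReal
  have h1 : Real.log δ ≤ -(2 * Real.pi * M) := by
    rw [Real.log_le_iff_le_exp hδ0]
    exact min_le_right _ _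
  rw [one_div, Real.log_inv, inv_mul_eq_div, le_div_iff₀ (by positivity)]
  linarith

/-- the bump -/
noncomputable def r0 (x : ℝ) : ℝ := max 0 (1 / 4 - x ^ 2)

theorem r0_nonneg (x : ℝ) : 0 ≤ r0 x := le_max_left _ _

theorem r0_cont : Continuous r0 := by unfold r0; fun_prop

theorem r0_second (x s : ℝ) : 2 * r0 x ≤ r0 (x - s) + r0 (x + s) + 2 * min (s ^ 2) (1 / 4) := by
  unfold r0
  have h1 := le_max_left 0 (1 / 4 - (x - s) ^ 2)
  have h2 := le_max_right 0 (1 / 4 - (x - s) ^ 2)
  have h3 := le_max_left 0 (1 / 4 - (x + s) ^ 2)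
  have h4 := le_max_right 0 (1 / 4 - (x + s) ^ 2)
  rcases le_total (1 / 4 - x ^ 2) 0 with h | h
  · rw [max_eq_left h]
    have : 0 ≤ min (s ^ 2) (1 / 4) := le_min (sq_nonneg _) (by norm_num)
    linarith
  · rw [max_eq_right h]
    rcases le_total (s ^ 2) (1 / 4) with h5 | h5
    · rw [min_eq_left h5]
      nlinarith
    · rw [min_eq_right h5]
      nlinarith [sq_nonneg x]

theorem PK_even (t x : ℝ) : PK t (-x) = PK t x := by unfold PK; rw [neg_sq]

theorem PK_min {h : ℝ} (hh : 0 < h) (s : ℝ) : PK h s * (2 * min (s ^ 2) (1 / 4)) ≤ h * (1 + s ^ 2)⁻¹ := by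
  unfold PK
  have h3 := Real.pi_gt_three
  have hs : 0 ≤ s ^ 2 := sq_nonneg s
  rw [div_mul_eq_mul_div, ← div_eq_mul_inv, div_le_div_iff₀ (by positivity) (by positivity)]
  have key : 2 * min (s ^ 2) (1 / 4) * (1 + s ^ 2) ≤ 3 * s ^ 2 := by
    rcases le_total (s ^ 2) (1 / 4) with h5 | h5
    · rw [min_eq_left h5]
      nlinarith
    · rw [min_eq_right h5]
      nlinarith
  have k2 : 3 * s ^ 2 ≤ Real.pi * (h ^ 2 + s ^ 2) := by nlinarith [sq_nonneg h]
  calc h * (2 * min (s ^ 2) (1 / 4)) * (1 + s ^ 2) = h * (2 * min (s ^ 2) (1 / 4) * (1 + s ^ 2)) := by ring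
    _ ≤ h * (Real.pi * (h ^ 2 + s ^ 2)) := mul_le_mul_of_nonneg_left (key.trans k2) hh.le

theorem r0_ineq {h : ℝ} (hh : 0 < h) (x : ℝ) :
    ENNReal.ofReal (r0 x) ≤ (∫⁻ s, EK h (x - s) * ENNReal.ofReal (r0 s)) + ENNReal.ofReal (2 * h) := by
  set L := ∫⁻ s, EK h (x - s) * ENNReal.ofReal (r0 s) with hL
  have e1 : L = ∫⁻ s, EK h s * ENNReal.ofReal (r0 (x - s)) := by
    rw [hL, ← lintegral_sub_left_eq_self (fun s => EK h (x - s) * ENNReal.ofReal (r0 s)) x]
    simp only [sub_sub_cancel]
  have e2 : L = ∫⁻ s, EK h s * ENNReal.ofReal (r0 (x + s)) := by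
    rw [hL, ← lintegral_add_left_eq_self (fun s => EK h (x - s) * ENNReal.ofReal (r0 s)) x]
    congr 1
    funext s
    congr 1
    unfold EK
    rw [show x - (x + s) = -s by ring, PK_even]
  have hr : Measurable (fun s => ENNReal.ofReal (r0 s)) := ENNReal.measurable_ofReal.comp r0_cont.measurable
  have m1 : Measurable (fun s => EK h s * ENNReal.ofReal (r0 (x - s))) :=
    (EK_meas_right h).mul (hr.comp (measurable_const.sub measurable_id))
  have m2 : Measurable (fun s => EK h s * ENNReal.ofReal (r0 (x + s))) :=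
    (EK_meas_right h).mul (hr.comp (measurable_const.add measurable_id))
  have e3 : ENNReal.ofReal (2 * r0 x) = ∫⁻ s, EK h s * ENNReal.ofReal (2 * r0 x) := by
    rw [lintegral_mul_const _ (EK_meas_right h), EK_integral hh, one_mul]
  have e4 : ENNReal.ofReal (2 * r0 x) ≤ L + L + ENNReal.ofReal (2 * (2 * h)) := by
    calc ENNReal.ofReal (2 * r0 x) = ∫⁻ s, EK h s * ENNReal.ofReal (2 * r0 x) := e3
      _ ≤ ∫⁻ s, (EK h s * ENNReal.ofReal (r0 (x - s)) + EK h s * ENNReal.ofReal (r0 (x + s)) +
            ENNReal.ofReal (h * (1 + s ^ 2)⁻¹)) := by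
          apply lintegral_mono
          intro s
          simp only
          calc EK h s * ENNReal.ofReal (2 * r0 x)
              ≤ EK h s * ENNReal.ofReal (r0 (x - s) + r0 (x + s) + 2 * min (s ^ 2) (1 / 4)) := by
                gcongr
                exact r0_second x s
            _ = EK h s * ENNReal.ofReal (r0 (x - s)) + EK h s * ENNReal.ofReal (r0 (x + s)) +
                  EK h s * ENNReal.ofReal (2 * min (s ^ 2) (1 / 4)) := by
                have hmn : 0 ≤ 2 * min (s ^ 2) (1 / 4) := by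
                  have : 0 ≤ min (s ^ 2) (1 / 4) := le_min (sq_nonneg _) (by norm_num)
                  linarith
                rw [ENNReal.ofReal_add (add_nonneg (r0_nonneg _) (r0_nonneg _)) hmn,
                  ENNReal.ofReal_add (r0_nonneg _) (r0_nonneg _), mul_add, mul_add]
            _ ≤ _ := by
                gcongr
                unfold EK
                rw [← ENNReal.ofReal_mul (PK_nonneg hh _)]
                exact ENNReal.ofReal_le_ofReal (PK_min hh s)
      _ = L + L + ∫⁻ s, ENNReal.ofReal (h * (1 + s ^ 2)⁻¹) := by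
          have m12 : Measurable (fun s => EK h s * ENNReal.ofReal (r0 (x - s)) +
              EK h s * ENNReal.ofReal (r0 (x + s))) := m1.add m2
          rw [lintegral_add_left m12, lintegral_add_left m1, ← e1, ← e2]
      _ ≤ L + L + ENNReal.ofReal (2 * (2 * h)) := by
          gcongr
          rw [← ofReal_integral_eq_lintegral_ofReal (integrable_inv_one_add_sq.const_mul h)]
          · apply ENNReal.ofReal_le_ofReal
            rw [integral_const_mul, integral_univ_inv_one_add_sq]
            nlinarith [Real.pi_le_four]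
          · exact Eventually.of_forall fun s => by
              simp only [Pi.zero_apply]; positivity
  have e5 : 2 * ENNReal.ofReal (r0 x) ≤ 2 * (L + ENNReal.ofReal (2 * h)) := by
    have : ENNReal.ofReal (2 * r0 x) = 2 * ENNReal.ofReal (r0 x) := by
      rw [ENNReal.ofReal_mul (by norm_num)]; norm_num
    rw [← this]
    refine e4.trans (le_of_eq ?_)
    rw [ENNReal.ofReal_mul (by norm_num : (0:ℝ) ≤ 2)]
    norm_num
    ring
  exact (ENNReal.mul_le_mul_iff_right (by norm_num) (by norm_num)).1 e5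

theorem r0_pos_int : ∫⁻ s, ENNReal.ofReal (r0 s) ≠ 0 := by
  have hr : Measurable (fun s => ENNReal.ofReal (r0 s)) := ENNReal.measurable_ofReal.comp r0_cont.measurable
  intro h0
  have h1 : ∫⁻ s in Ioo (-(1/4) : ℝ) (1/4), ENNReal.ofReal (1 / 8) ≤ ∫⁻ s, ENNReal.ofReal (r0 s) := by
    calc ∫⁻ s in Ioo (-(1/4) : ℝ) (1/4), ENNReal.ofReal (1 / 8)
        ≤ ∫⁻ s in Ioo (-(1/4) : ℝ) (1/4), ENNReal.ofReal (r0 s) := by
          apply setLIntegral_mono hr
          intro s hs
          apply ENNReal.ofReal_le_ofReal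
          unfold r0
          refine le_trans ?_ (le_max_right _ _)
          nlinarith [hs.1, hs.2]
      _ ≤ _ := setLIntegral_le_lintegral _ _
  rw [h0, setLIntegral_const] at h1
  simp at h1
  norm_num at h1

/-- the potential -/
noncomputable def VV (q : ℕ → ℝ) (κ : ℕ → NNReal) (x : ℝ) : ENNReal := ∑' j, (κ j : ENNReal) * vv (x - q j)

theorem VV_meas (q : ℕ → ℝ) (κ : ℕ → NNReal) : Measurable (VV q κ) := by
  unfold VV
  apply Measurable.tsum
  intro j
  exact (vv_meas.comp (measurable_id.sub_const (q j))).const_mul _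

theorem VV_ineq (q : ℕ → ℝ) (κ : ℕ → NNReal) (hκ : ∑' j, (κ j : ENNReal) ≤ 1) {h : ℝ} (hh : 0 < h) (x : ℝ) :
    ∫⁻ s, EK h (x - s) * VV q κ s ≤ VV q κ x + ENNReal.ofReal h := by
  have hE : Measurable (fun s => EK h (x - s)) := (EK_meas_right h).comp (measurable_const.sub measurable_id)
  have hv : ∀ j, Measurable (fun s => vv (s - q j)) := fun j => vv_meas.comp (measurable_id.sub_const (q j))
  calc ∫⁻ s, EK h (x - s) * VV q κ s = ∫⁻ s, ∑' j, (κ j : ENNReal) * (EK h (x - s) * vv (s - q j)) := by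
        congr 1
        funext s
        unfold VV
        rw [← ENNReal.tsum_mul_left]
        congr 1
        funext j
        ring
    _ = ∑' j, (κ j : ENNReal) * ∫⁻ s, EK h (x - s) * vv (s - q j) := by
        rw [lintegral_tsum]
        · congr 1
          funext j
          have hm : Measurable (fun s => EK h (x - s) * vv (s - q j)) := hE.mul (hv j)
          rw [lintegral_const_mul _ hm]
        · intro j
          exact ((hE.mul (hv j)).const_mul _).aemeasurable
    _ ≤ ∑' j, (κ j : ENNReal) * (vv (x - q j) + ENNReal.ofReal h) := by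
        apply ENNReal.tsum_le_tsum
        intro j
        gcongr
        exact vv_ineq hh x (q j)
    _ = VV q κ x + (∑' j, (κ j : ENNReal)) * ENNReal.ofReal h := by
        unfold VV
        rw [← ENNReal.tsum_mul_right, ← ENNReal.tsum_add]
        congr 1
        funext j
        ring
    _ ≤ VV q κ x + ENNReal.ofReal h := by
        gcongr
        calc (∑' j, (κ j : ENNReal)) * ENNReal.ofReal h ≤ 1 * ENNReal.ofReal h := by gcongr
          _ = ENNReal.ofReal h := one_mul _

theorem VV_integral (q : ℕ → ℝ) (κ : ℕ → NNReal) : ∫⁻ s, VV q κ s = ∑' j, (κ j : ENNReal) := by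
  unfold VV
  have hv : ∀ j, Measurable (fun s => vv (s - q j)) := fun j => vv_meas.comp (measurable_id.sub_const (q j))
  rw [lintegral_tsum]
  · congr 1
    funext j
    rw [lintegral_const_mul _ (hv j), vv_integral, mul_one]
  · intro j
    exact ((hv j).const_mul _).aemeasurable

/-- the density on the line. -/
theorem exists_density : ∃ r : ℝ → ENNReal, Measurable r ∧ (∀ x, r x ≤ ENNReal.ofReal (r0 x)) ∧
    (∀ h : ℝ, 0 < h → ∀ x, r x ≤ (∫⁻ s, EK h (x - s) * r s) + ENNReal.ofReal (3 * h)) ∧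
    (∃ D : Set ℝ, Dense D ∧ ∀ q ∈ D, ∀ᶠ x in 𝓝 q, r x = 0) ∧ ∫⁻ s, r s ≠ 0 := by
  have hr : Measurable (fun s => ENNReal.ofReal (r0 s)) := ENNReal.measurable_ofReal.comp r0_cont.measurable
  obtain ⟨κ, hκ0, hκ⟩ := ENNReal.exists_pos_sum_of_countable
    (ε := min 1 (∫⁻ s, ENNReal.ofReal (r0 s))) (by
      exact (lt_min one_pos (pos_iff_ne_zero.2 r0_pos_int)).ne') ℕ
  have hκ1 : ∑' j, (κ j : ENNReal) ≤ 1 := hκ.le.trans (min_le_left _ _)
  have hκ2 : ∑' j, (κ j : ENNReal) < ∫⁻ s, ENNReal.ofReal (r0 s) := hκ.trans_le (min_le_right _ _)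
  set q : ℕ → ℝ := TopologicalSpace.denseSeq ℝ with hq
  have hV := VV_meas q κ
  refine ⟨fun x => ENNReal.ofReal (r0 x) - VV q κ x, hr.sub hV, fun x => tsub_le_self, ?_, ?_, ?_⟩
  · intro h hh x
    rw [tsub_le_iff_right]
    have hE : Measurable (fun s => EK h (x - s)) := (EK_meas_right h).comp (measurable_const.sub measurable_id)
    calc ENNReal.ofReal (r0 x) ≤ (∫⁻ s, EK h (x - s) * ENNReal.ofReal (r0 s)) + ENNReal.ofReal (2 * h) :=
          r0_ineq hh x
      _ ≤ (∫⁻ s, (EK h (x - s) * (ENNReal.ofReal (r0 s) - VV q κ s) + EK h (x - s) * VV q κ s)) +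
            ENNReal.ofReal (2 * h) := by
          gcongr with s
          rw [← mul_add]
          gcongr
          exact le_tsub_add
      _ = (∫⁻ s, EK h (x - s) * (ENNReal.ofReal (r0 s) - VV q κ s)) + (∫⁻ s, EK h (x - s) * VV q κ s) +
            ENNReal.ofReal (2 * h) := by
          have hm : Measurable (fun s => EK h (x - s) * VV q κ s) := hE.mul hV
          rw [lintegral_add_right _ hm]
      _ ≤ (∫⁻ s, EK h (x - s) * (ENNReal.ofReal (r0 s) - VV q κ s)) + (VV q κ x + ENNReal.ofReal h) +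
            ENNReal.ofReal (2 * h) := by
          gcongr
          exact VV_ineq q κ hκ1 hh x
      _ = (∫⁻ s, EK h (x - s) * (ENNReal.ofReal (r0 s) - VV q κ s)) + ENNReal.ofReal (3 * h) + VV q κ x := by
          have : ENNReal.ofReal (3 * h) = ENNReal.ofReal h + ENNReal.ofReal (2 * h) := by
            rw [← ENNReal.ofReal_add hh.le (by linarith)]
            congr 1
            ring
          rw [this]
          ring
  · refine ⟨range q, TopologicalSpace.denseRange_denseSeq ℝ, ?_⟩
    rintro _ ⟨j, rfl⟩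
    obtain ⟨δ, hδ, hδ'⟩ := vv_near (1 / 4 / (κ j : ℝ))
    filter_upwards [Metric.ball_mem_nhds (q j) hδ] with x hx
    rw [tsub_eq_zero_iff_le]
    have h1 : |x - q j| ≤ δ := by
      rw [Metric.mem_ball, Real.dist_eq] at hx
      exact hx.le
    have hκj : (0:ℝ) < κ j := by exact_mod_cast hκ0 j
    calc ENNReal.ofReal (r0 x) ≤ ENNReal.ofReal (1 / 4) := by
          apply ENNReal.ofReal_le_ofReal
          unfold r0
          apply max_le (by norm_num)
          nlinarith [sq_nonneg x]
      _ = (κ j : ENNReal) * ENNReal.ofReal (1 / 4 / (κ j : ℝ)) := by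
          rw [← ENNReal.ofReal_coe_nnreal, ← ENNReal.ofReal_mul hκj.le]
          congr 1
          field_simp
      _ ≤ (κ j : ENNReal) * vv (x - q j) := by
          gcongr
          exact hδ' _ h1
      _ ≤ VV q κ x := ENNReal.le_tsum (f := fun j => (κ j : ENNReal) * vv (x - q j)) j
  · intro h0
    have h1 : ∫⁻ s, ENNReal.ofReal (r0 s) ≤ ∑' j, (κ j : ENNReal) := by
      calc ∫⁻ s, ENNReal.ofReal (r0 s) ≤ ∫⁻ s, ((ENNReal.ofReal (r0 s) - VV q κ s) + VV q κ s) := by
            apply lintegral_mono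
            intro s
            exact le_tsub_add
        _ = 0 + ∑' j, (κ j : ENNReal) := by
            rw [lintegral_add_right _ hV, h0, VV_integral]
        _ = _ := zero_add _
    exact absurd hκ2 (not_lt.2 h1)

end Pool.Agent.H804R2.QC
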