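import Pool.Agent.H804R2.QC2
import Pool.Agent.Helper66.UnqA

set_option autoImplicit false

open MeasureTheory Set Filter Topology Complex

namespace Pool.Agent.H804R2.QC

open Pool.Agent.Helper66.Unq (cau cau_hasDerivAt cau_conj cau_integrable)

/-- conditions on the line density -/
structure Den (r : ℝ → ENNReal) : Prop where
  meas : Measurable r
  le : ∀ x, r x ≤ ENNReal.ofReal (r0 x)
  ineq : ∀ h : ℝ, 0 < h → ∀ x, r x ≤ (∫⁻ s, EK h (x - s) * r s) + ENNReal.ofReal (3 * h)

variable {r : ℝ → ENNReal}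

theorem r0_le (x : ℝ) : r0 x ≤ 1 / 4 := by
  unfold r0
  apply max_le (by norm_num)
  nlinarith [sq_nonneg x]

theorem Den.fin (h : Den r) (x : ℝ) : r x ≠ ⊤ := ((h.le x).trans_lt ENNReal.ofReal_lt_top).ne

theorem Den.toReal_le (h : Den r) (x : ℝ) : (r x).toReal ≤ r0 x := by
  have := ENNReal.toReal_mono ENNReal.ofReal_ne_top (h.le x)
  rwa [ENNReal.toReal_ofReal (r0_nonneg x)] at this

theorem Den.toReal_meas (h : Den r) : Measurable (fun x => (r x).toReal) := h.meas.ennreal_toReal

theorem r0_zero {x : ℝ} (hx : 1 / 2 ≤ |x|) : r0 x = 0 := by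
  unfold r0
  apply max_eq_left
  have : (1 / 2) ^ 2 ≤ |x| ^ 2 := pow_le_pow_left₀ (by norm_num) hx 2
  rw [sq_abs] at this
  linarith

theorem r0_integrable : Integrable r0 := by
  apply r0_cont.integrable_of_hasCompactSupport
  apply HasCompactSupport.intro (isCompact_Icc (a := -(1/2 : ℝ)) (b := 1 / 2))
  intro x hx
  apply r0_zero
  by_contra hcon
  push Not at hcon
  rw [abs_lt] at hcon
  exact hx ⟨hcon.1.le, hcon.2.le⟩

theorem Den.toReal_integrable (h : Den r) : Integrable (fun x => (r x).toReal) := by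
  apply r0_integrable.mono' h.toReal_meas.aestronglyMeasurable
  refine Eventually.of_forall fun x => ?_
  rw [Real.norm_of_nonneg ENNReal.toReal_nonneg]
  exact h.toReal_le x

theorem Den.memLp (h : Den r) : MemLp (fun x => (((r x).toReal : ℝ) : ℂ)) 2 volume := by
  have hm : AEStronglyMeasurable (fun x => (((r x).toReal : ℝ) : ℂ)) volume :=
    (Complex.measurable_ofReal.comp h.toReal_meas).aestronglyMeasurable
  rw [memLp_two_iff_integrable_sq_norm hm]
  apply h.toReal_integrable.mono'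
  · exact (hm.norm.pow 2)
  · refine Eventually.of_forall fun x => ?_
    rw [Complex.norm_real, Real.norm_of_nonneg (sq_nonneg _), Real.norm_of_nonneg ENNReal.toReal_nonneg]
    have h1 := h.toReal_le x
    have h2 := r0_le x
    have h3 : 0 ≤ (r x).toReal := ENNReal.toReal_nonneg
    nlinarith

/-- Poisson extension -/
noncomputable def UU (r : ℝ → ENNReal) (y x : ℝ) : ENNReal := ∫⁻ s, EK y (x - s) * r s

theorem EK_meas_sub (y x : ℝ) : Measurable (fun s => EK y (x - s)) :=
  (EK_meas_right y).comp (measurable_const.sub measurable_id)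

theorem Den.UU_fin (h : Den r) {y : ℝ} (hy : 0 < y) (x : ℝ) : UU r y x ≠ ⊤ := by
  apply ne_top_of_le_ne_top (b := ENNReal.ofReal (1 / 4)) ENNReal.ofReal_ne_top
  calc UU r y x ≤ ∫⁻ s, EK y (x - s) * ENNReal.ofReal (1 / 4) := by
        unfold UU
        gcongr with s
        exact (h.le s).trans (ENNReal.ofReal_le_ofReal (r0_le s))
    _ = ENNReal.ofReal (1 / 4) := by
        rw [lintegral_mul_const _ (EK_meas_sub y x), EK_integral_sub hy, one_mul]

theorem Den.UU_ineq (hr : Den r) {y h : ℝ} (hy : 0 < y) (hh : 0 < h) (x : ℝ) :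
    UU r y x ≤ UU r (y + h) x + ENNReal.ofReal (3 * h) := by
  have hm1 : Measurable (fun p : ℝ × ℝ => EK y (x - p.1)) :=
    (EK_meas_sub y x).comp measurable_fst
  have hm2 : Measurable (fun p : ℝ × ℝ => EK h (p.1 - p.2) * r p.2) :=
    ((EK_meas_right h).comp (measurable_fst.sub measurable_snd)).mul (hr.meas.comp measurable_snd)
  have hm : Measurable (fun p : ℝ × ℝ => EK y (x - p.1) * (EK h (p.1 - p.2) * r p.2)) := hm1.mul hm2
  have hin : Measurable (fun s' => ∫⁻ s, EK h (s' - s) * r s) := hm2.lintegral_prod_right'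
  calc UU r y x ≤ ∫⁻ s', EK y (x - s') * ((∫⁻ s, EK h (s' - s) * r s) + ENNReal.ofReal (3 * h)) := by
        unfold UU
        gcongr with s'
        exact hr.ineq h hh s'
    _ = (∫⁻ s', EK y (x - s') * ∫⁻ s, EK h (s' - s) * r s) +
          ∫⁻ s', EK y (x - s') * ENNReal.ofReal (3 * h) := by
        rw [← lintegral_add_right]
        · congr 1
          funext s'
          rw [mul_add]
        · exact (EK_meas_sub y x).mul_const _
    _ = (∫⁻ s', ∫⁻ s, EK y (x - s') * (EK h (s' - s) * r s)) + ENNReal.ofReal (3 * h) := by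
        have g1 : ∀ s' : ℝ, ∫⁻ s, EK y (x - s') * (EK h (s' - s) * r s) =
            EK y (x - s') * ∫⁻ s, EK h (s' - s) * r s := by
          intro s'
          have g0 : Measurable (fun s => EK h (s' - s) * r s) := (EK_meas_sub h s').mul hr.meas
          exact lintegral_const_mul _ g0
        have g2 : ∫⁻ s', EK y (x - s') * ENNReal.ofReal (3 * h) = ENNReal.ofReal (3 * h) := by
          rw [lintegral_mul_const _ (EK_meas_sub y x), EK_integral_sub hy, one_mul]
        rw [g2]
        simp_rw [g1]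
    _ = (∫⁻ s, ∫⁻ s', EK y (x - s') * (EK h (s' - s) * r s)) + ENNReal.ofReal (3 * h) := by
        rw [lintegral_lintegral_swap]
        exact hm.aemeasurable
    _ = UU r (y + h) x + ENNReal.ofReal (3 * h) := by
        congr 1
        unfold UU
        congr 1
        funext s
        rw [← EK_semigroup hy hh x s, ← lintegral_mul_const]
        · congr 1
          funext s'
          ring
        · exact (EK_meas_sub y x).mul ((EK_meas_right h).comp (measurable_id.sub_const s))

theorem Den.UU_ineq_real (hr : Den r) {y h : ℝ} (hy : 0 < y) (hh : 0 < h) (x : ℝ) :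
    (UU r y x).toReal ≤ (UU r (y + h) x).toReal + 3 * h := by
  have h1 := hr.UU_ineq hy hh x
  have h2 := hr.UU_fin (add_pos hy hh) x
  have h3 := ENNReal.toReal_mono (ENNReal.add_ne_top.2 ⟨h2, ENNReal.ofReal_ne_top⟩) h1
  rwa [ENNReal.toReal_add h2 ENNReal.ofReal_ne_top, ENNReal.toReal_ofReal (by linarith)] at h3

/-- the complex-valued density -/
noncomputable def dn (r : ℝ → ENNReal) (s : ℝ) : ℂ := (((r s).toReal : ℝ) : ℂ)

theorem Den.im_cau (hr : Den r) {z : ℂ} (hz : 0 < z.im) :
    (cau (dn r) z).im = Real.pi * (UU r z.im z.re).toReal := by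
  have hi := cau_integrable hr.memLp hz.ne'
  have e1 : (cau (dn r) z).im = ∫ s, ((dn r s) / ((s : ℂ) - z)).im := by
    unfold cau
    exact (Complex.imCLM.integral_comp_comm hi).symm
  rw [e1]
  have e2 : ∀ s : ℝ, ((dn r s) / ((s : ℂ) - z)).im = Real.pi * (PK z.im (z.re - s) * (r s).toReal) := by
    intro s
    unfold dn PK
    rw [Complex.div_im]
    simp only [Complex.ofReal_im, Complex.ofReal_re, Complex.sub_re, Complex.sub_im, zero_mul, zero_div,
      zero_sub]
    rw [Complex.normSq_apply]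
    simp only [Complex.ofReal_im, Complex.ofReal_re, Complex.sub_re, Complex.sub_im]
    have h1 : (s - z.re) * (s - z.re) + (0 - z.im) * (0 - z.im) = z.im ^ 2 + (z.re - s) ^ 2 := by ring
    rw [h1]
    have h2 : 0 < z.im ^ 2 + (z.re - s) ^ 2 := by positivity
    have h3 := Real.pi_pos
    field_simp
  simp_rw [e2]
  rw [integral_const_mul]
  congr 1
  have hnn : 0 ≤ᵐ[volume] fun s => PK z.im (z.re - s) * (r s).toReal :=
    Eventually.of_forall fun s => mul_nonneg (PK_nonneg hz _) ENNReal.toReal_nonneg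
  have hmeas : AEStronglyMeasurable (fun s => PK z.im (z.re - s) * (r s).toReal) volume := by
    have g1 : Measurable (fun s : ℝ => PK z.im (z.re - s)) :=
      PK_measurable.comp (measurable_const.prodMk (measurable_const.sub measurable_id))
    exact (g1.mul hr.toReal_meas).aestronglyMeasurable
  rw [integral_eq_lintegral_of_nonneg_ae hnn hmeas]
  congr 1
  unfold UU EK
  congr 1
  funext s
  rw [ENNReal.ofReal_mul (PK_nonneg hz _), ENNReal.ofReal_toReal (hr.fin s)]

/-- derivative of the transform -/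
noncomputable def cauD (r : ℝ → ENNReal) (z : ℂ) : ℂ := ∫ s : ℝ, dn r s / ((s : ℂ) - z) ^ 2

theorem Den.hasDeriv (hr : Den r) {z : ℂ} (hz : z.im ≠ 0) : HasDerivAt (cau (dn r)) (cauD r z) z :=
  cau_hasDerivAt hr.memLp hz

theorem dn_conj (r : ℝ → ENNReal) : (fun τ => (starRingEnd ℂ) (dn r τ)) = dn r := by
  funext τ
  unfold dn
  exact Complex.conj_ofReal _

theorem cau_conj' (r : ℝ → ENNReal) (z : ℂ) :
    cau (dn r) ((starRingEnd ℂ) z) = (starRingEnd ℂ) (cau (dn r) z) := by
  rw [cau_conj, dn_conj]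

theorem cauD_conj (r : ℝ → ENNReal) (z : ℂ) :
    cauD r ((starRingEnd ℂ) z) = (starRingEnd ℂ) (cauD r z) := by
  unfold cauD
  rw [← integral_conj]
  congr 1
  ext τ
  rw [map_div₀, map_pow, map_sub, Complex.conj_ofReal]
  unfold dn
  rw [Complex.conj_ofReal]

theorem Den.re_deriv_pos (hr : Den r) {z : ℂ} (hz : 0 < z.im) : -(3 * Real.pi) ≤ (cauD r z).re := by
  have h1 := hr.hasDeriv hz.ne'
  have h2 : HasDerivAt (fun t : ℝ => z + I * (t : ℂ)) I 0 := by
    simpa using ((Complex.ofRealCLM.hasDerivAt (x := (0:ℝ))).const_mul I).const_add z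
  have h1' : HasDerivAt (cau (dn r)) (cauD r z) (z + I * ((0 : ℝ) : ℂ)) := by simpa using h1
  have h3 : HasDerivAt (fun t : ℝ => cau (dn r) (z + I * (t : ℂ))) (cauD r z * I) 0 :=
    HasDerivAt.comp (h₂ := cau (dn r)) (h := fun t : ℝ => z + I * (t : ℂ)) 0 h1' h2
  have h4 : HasDerivAt (fun t : ℝ => (cau (dn r) (z + I * (t : ℂ))).im) ((cauD r z).re) 0 := by
    have h := (Complex.imCLM.hasFDerivAt.comp_hasDerivAt (0:ℝ) h3)
    have h' : HasDerivAt (fun t : ℝ => (cau (dn r) (z + I * (t : ℂ))).im) (Complex.imCLM (cauD r z * I)) 0 := h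
    refine h'.congr_deriv ?_
    simp
  have h5 := (hasDerivAt_iff_tendsto_slope_zero.1 h4)
  have h6 : Tendsto (fun t : ℝ => t⁻¹ • ((cau (dn r) (z + I * ((0 + t : ℝ) : ℂ))).im -
      (cau (dn r) (z + I * ((0 : ℝ) : ℂ))).im)) (𝓝[>] 0) (𝓝 ((cauD r z).re)) :=
    h5.mono_left (nhdsWithin_mono _ (fun x hx => ne_of_gt hx))
  refine ge_of_tendsto h6 ?_
  filter_upwards [self_mem_nhdsWithin] with t ht
  have ht' : (0:ℝ) < t := ht
  have i1 : (z + I * ((0 + t : ℝ) : ℂ)).im = z.im + t := by simp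
  have i2 : (z + I * ((0 + t : ℝ) : ℂ)).re = z.re := by simp
  have e1 : (cau (dn r) (z + I * ((0 + t : ℝ) : ℂ))).im = Real.pi * (UU r (z.im + t) z.re).toReal := by
    rw [hr.im_cau (by rw [i1]; linarith), i1, i2]
  have e2 : (cau (dn r) (z + I * ((0 : ℝ) : ℂ))).im = Real.pi * (UU r z.im z.re).toReal := by
    rw [← hr.im_cau hz]
    simp
  rw [e1, e2, smul_eq_mul, inv_mul_eq_div, le_div_iff₀ ht']
  have := hr.UU_ineq_real hz ht' z.re
  have hp := Real.pi_pos
  nlinarith

theorem Den.re_deriv (hr : Den r) {z : ℂ} (hz : z.im ≠ 0) : -(3 * Real.pi) ≤ (cauD r z).re := by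
  rcases lt_or_gt_of_ne hz with h | h
  · have h1 := hr.re_deriv_pos (z := (starRingEnd ℂ) z) (by rw [Complex.conj_im]; linarith)
    rw [cauD_conj, Complex.conj_re] at h1
    exact h1
  · exact hr.re_deriv_pos h

/-- same half plane -/
theorem Den.same (hr : Den r) {z w : ℂ} (hzw : 0 < z.im * w.im) :
    -(3 * Real.pi) * ‖w - z‖ ^ 2 ≤ ((cau (dn r) w - cau (dn r) z) * (starRingEnd ℂ) (w - z)).re := by
  set d := w - z with hd
  have him : ∀ t : ℝ, t ∈ Icc (0:ℝ) 1 → (z + (t : ℂ) * d).im ≠ 0 := by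
    intro t ht
    have e : (z + (t : ℂ) * d).im = (1 - t) * z.im + t * w.im := by
      rw [hd]; simp; ring
    rw [e]
    rcases lt_trichotomy z.im 0 with h | h | h
    · have hw : w.im < 0 := by nlinarith
      have : (1 - t) * z.im + t * w.im < 0 := by
        rcases eq_or_lt_of_le ht.1 with h0 | h0
        · rw [← h0]; linarith
        · nlinarith [ht.2]
      exact this.ne
    · rw [h, zero_mul] at hzw
      exact absurd hzw (lt_irrefl 0)
    · have hw : 0 < w.im := by nlinarith
      have : 0 < (1 - t) * z.im + t * w.im := by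
        rcases eq_or_lt_of_le ht.1 with h0 | h0
        · rw [← h0]; linarith
        · nlinarith [ht.2]
      exact this.ne'
  have hder : ∀ t : ℝ, t ∈ Icc (0:ℝ) 1 → HasDerivAt
      (fun t : ℝ => (cau (dn r) (z + (t : ℂ) * d) * (starRingEnd ℂ) d).re + 3 * Real.pi * ‖d‖ ^ 2 * t)
      (‖d‖ ^ 2 * ((cauD r (z + (t : ℂ) * d)).re + 3 * Real.pi)) t := by
    intro t ht
    have h2 : HasDerivAt (fun t : ℝ => z + (t : ℂ) * d) d t := by
      simpa using ((Complex.ofRealCLM.hasDerivAt (x := t)).mul_const d).const_add z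
    have h3 : HasDerivAt (fun t : ℝ => cau (dn r) (z + (t : ℂ) * d)) (cauD r (z + (t : ℂ) * d) * d) t :=
      HasDerivAt.comp (h₂ := cau (dn r)) (h := fun t : ℝ => z + (t : ℂ) * d) t (hr.hasDeriv (him t ht)) h2
    have h4 := h3.mul_const ((starRingEnd ℂ) d)
    have h5 : HasDerivAt (fun t : ℝ => (cau (dn r) (z + (t : ℂ) * d) * (starRingEnd ℂ) d).re)
        ((cauD r (z + (t : ℂ) * d) * d * (starRingEnd ℂ) d).re) t := by
      exact (Complex.reCLM.hasFDerivAt.comp_hasDerivAt t h4)
    have h6 := h5.add ((hasDerivAt_id t).const_mul (3 * Real.pi * ‖d‖ ^ 2))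
    refine h6.congr_deriv ?_
    rw [mul_assoc, Complex.mul_conj, Complex.normSq_eq_norm_sq]
    simp only [Complex.mul_re, Complex.ofReal_re, Complex.ofReal_im, mul_zero, sub_zero]
    ring
  have hmono := monotoneOn_of_deriv_nonneg (convex_Icc (0:ℝ) 1)
    (f := fun t : ℝ => (cau (dn r) (z + (t : ℂ) * d) * (starRingEnd ℂ) d).re + 3 * Real.pi * ‖d‖ ^ 2 * t)
    (fun t ht => (hder t ht).continuousAt.continuousWithinAt)
    (fun t ht => (hder t (interior_subset ht)).differentiableAt.differentiableWithinAt)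
    (fun t ht => by
      rw [(hder t (interior_subset ht)).deriv]
      apply mul_nonneg (sq_nonneg _)
      have := hr.re_deriv (him t (interior_subset ht))
      linarith)
  have h01 := hmono (left_mem_Icc.2 zero_le_one) (right_mem_Icc.2 zero_le_one) zero_le_one
  simp only [Complex.ofReal_zero, zero_mul, add_zero, mul_zero, Complex.ofReal_one, one_mul, mul_one] at h01
  have e : z + d = w := by rw [hd]; ring
  rw [e] at h01
  rw [sub_mul, Complex.sub_re]
  linarith

theorem Den.same_scaled (hr : Den r) {z w d : ℂ} {c : ℝ} (hc : 0 < c) (hwz : w - z = (c : ℂ) * d)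
    (hzw : 0 < z.im * w.im) :
    -(3 * Real.pi) * c * ‖d‖ ^ 2 ≤ ((cau (dn r) w - cau (dn r) z) * (starRingEnd ℂ) d).re := by
  have h := hr.same hzw
  rw [hwz, norm_mul, Complex.norm_real, Real.norm_of_nonneg hc.le, map_mul, Complex.conj_ofReal] at h
  have e : ((cau (dn r) w - cau (dn r) z) * ((c : ℂ) * (starRingEnd ℂ) d)).re =
      c * ((cau (dn r) w - cau (dn r) z) * (starRingEnd ℂ) d).re := by
    rw [← mul_assoc, mul_comm _ (c : ℂ), mul_assoc, Complex.re_ofReal_mul]
  rw [e] at h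
  have h2 : c * (-(3 * Real.pi) * c * ‖d‖ ^ 2) ≤ c * ((cau (dn r) w - cau (dn r) z) * (starRingEnd ℂ) d).re := by
    refine le_trans (le_of_eq ?_) h
    ring
  exact le_of_mul_le_mul_left h2 hc

theorem Den.opp (hr : Den r) {z w : ℂ} (hz : z.im < 0) (hw : 0 < w.im) :
    -(3 * Real.pi) * ‖w - z‖ ^ 2 ≤ ((cau (dn r) w - cau (dn r) z) * (starRingEnd ℂ) (w - z)).re := by
  set d := w - z with hd
  have hdim : d.im = w.im - z.im := by rw [hd]; simp
  have hdpos : 0 < d.im := by rw [hdim]; linarith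
  set τ : ℝ := -z.im / d.im with hτ
  have hτ0 : 0 < τ := div_pos (by linarith) hdpos
  have hτ1 : τ < 1 := by rw [hτ, div_lt_one hdpos, hdim]; linarith
  set x0 : ℂ := z + (τ : ℂ) * d with hx0
  have hx0im : x0.im = 0 := by
    rw [hx0, Complex.add_im, Complex.im_ofReal_mul, hτ]
    field_simp
    ring
  have hx0c : (starRingEnd ℂ) x0 = x0 := Complex.conj_eq_iff_im.2 hx0im
  have key : ∀ h : ℝ, 0 < h → -(3 * Real.pi) * ‖d‖ ^ 2 ≤
      ((cau (dn r) (w + I * (h : ℂ)) - cau (dn r) (z - I * (h : ℂ))) * (starRingEnd ℂ) d).re := by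
    intro h hh
    have hA := hr.same_scaled (z := x0 + I * (h : ℂ)) (w := w + I * (h : ℂ)) (d := d) (c := 1 - τ)
      (by linarith) (by rw [hx0]; push_cast; rw [hd]; ring) (by
        simp only [Complex.add_im, hx0im, Complex.I_mul_im, Complex.ofReal_re]
        positivity)
    have hB := hr.same_scaled (z := z - I * (h : ℂ)) (w := x0 - I * (h : ℂ)) (d := d) (c := τ)
      hτ0 (by rw [hx0]; ring) (by
        simp only [Complex.sub_im, hx0im, Complex.I_mul_im, Complex.ofReal_re]
        nlinarith)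
    have hC : 0 ≤ ((cau (dn r) (x0 + I * (h : ℂ)) - cau (dn r) (x0 - I * (h : ℂ))) * (starRingEnd ℂ) d).re := by
      have e1 : x0 - I * (h : ℂ) = (starRingEnd ℂ) (x0 + I * (h : ℂ)) := by
        rw [map_add, map_mul, Complex.conj_I, Complex.conj_ofReal, hx0c]
        ring
      rw [e1, cau_conj']
      have h1 : 0 ≤ (cau (dn r) (x0 + I * (h : ℂ))).im := by
        rw [hr.im_cau (by simp [hx0im, hh])]
        exact mul_nonneg Real.pi_pos.le ENNReal.toReal_nonneg
      simp only [Complex.mul_re, Complex.sub_re, Complex.sub_im, Complex.conj_re, Complex.conj_im]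
      nlinarith
    have e : (cau (dn r) (w + I * (h : ℂ)) - cau (dn r) (z - I * (h : ℂ))) * (starRingEnd ℂ) d =
        (cau (dn r) (w + I * (h : ℂ)) - cau (dn r) (x0 + I * (h : ℂ))) * (starRingEnd ℂ) d +
        (cau (dn r) (x0 + I * (h : ℂ)) - cau (dn r) (x0 - I * (h : ℂ))) * (starRingEnd ℂ) d +
        (cau (dn r) (x0 - I * (h : ℂ)) - cau (dn r) (z - I * (h : ℂ))) * (starRingEnd ℂ) d := by ring
    rw [e, Complex.add_re, Complex.add_re]
    nlinarith
  have c1 : Tendsto (fun h : ℝ => cau (dn r) (w + I * (h : ℂ))) (𝓝[>] 0) (𝓝 (cau (dn r) w)) := by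
    have h1 : ContinuousAt (cau (dn r)) w := (hr.hasDeriv hw.ne').continuousAt
    have h2 : Tendsto (fun h : ℝ => w + I * (h : ℂ)) (𝓝 0) (𝓝 w) := by
      have : Continuous (fun h : ℝ => w + I * (h : ℂ)) := by fun_prop
      have := this.tendsto 0
      simpa using this
    exact (h1.tendsto.comp h2).mono_left nhdsWithin_le_nhds
  have c2 : Tendsto (fun h : ℝ => cau (dn r) (z - I * (h : ℂ))) (𝓝[>] 0) (𝓝 (cau (dn r) z)) := by
    have h1 : ContinuousAt (cau (dn r)) z := (hr.hasDeriv hz.ne).continuousAt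
    have h2 : Tendsto (fun h : ℝ => z - I * (h : ℂ)) (𝓝 0) (𝓝 z) := by
      have : Continuous (fun h : ℝ => z - I * (h : ℂ)) := by fun_prop
      have := this.tendsto 0
      simpa using this
    exact (h1.tendsto.comp h2).mono_left nhdsWithin_le_nhds
  have c3 := (Complex.continuous_re.tendsto _).comp ((c1.sub c2).mul_const ((starRingEnd ℂ) d))
  refine ge_of_tendsto c3 ?_
  filter_upwards [self_mem_nhdsWithin] with h hh
  exact key h hh

theorem Den.mono (hr : Den r) {z w : ℂ} (hz : z.im ≠ 0) (hw : w.im ≠ 0) :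
    -(3 * Real.pi) * ‖w - z‖ ^ 2 ≤ ((cau (dn r) w - cau (dn r) z) * (starRingEnd ℂ) (w - z)).re := by
  rcases lt_or_gt_of_ne hz with h1 | h1 <;> rcases lt_or_gt_of_ne hw with h2 | h2
  · exact hr.same (mul_pos_of_neg_of_neg h1 h2)
  · exact hr.opp h1 h2
  · have h := hr.opp h2 h1
    rw [norm_sub_rev, ← neg_sub w z, map_neg, ← neg_sub (cau (dn r) w) (cau (dn r) z), neg_mul_neg] at h
    exact h
  · exact hr.same (mul_pos h1 h2)

end Pool.Agent.H804R2.QC
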