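import Pool.Agent.H804R2.QC3
import Pool.Agent.Helper523.LL.Cauchy

set_option autoImplicit false

open MeasureTheory Set Filter Topology Complex Metric

namespace Pool.Agent.H804R2.QC

open Pool.Agent.Helper66.Unq (cau cau_hasDerivAt cau_conj cau_integrable)
open Pool.Agent.Helper523.LL (Adm T)

/-- the kernel `|v|^{-3/2}` -/
noncomputable def k3 (v : ℂ) : ℝ := ((√‖v‖)⁻¹) ^ 3

theorem k3_nonneg (v : ℂ) : 0 ≤ k3 v := by unfold k3; positivity

theorem k3_meas : Measurable k3 := by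
  unfold k3
  have : Measurable (fun v : ℂ => √‖v‖) := (Real.continuous_sqrt.comp continuous_norm).measurable
  exact this.inv.pow_const 3

theorem k3_rpow (v : ℂ) : k3 v = ‖v‖ ^ (-(3 / 2) : ℝ) := by
  unfold k3
  rw [Real.sqrt_eq_rpow, ← Real.rpow_neg (norm_nonneg v), ← Real.rpow_natCast, ← Real.rpow_mul (norm_nonneg v)]
  norm_num

/-- kernel on the unit disc -/
noncomputable def k3N (v : ℂ) : ℝ := (ball (0 : ℂ) 1).indicator k3 v

theorem k3N_nonneg (v : ℂ) : 0 ≤ k3N v := Set.indicator_nonneg (fun _ _ => k3_nonneg _) _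

theorem k3N_integrable : Integrable k3N := by
  unfold k3N
  rw [integrable_indicator_iff measurableSet_ball]
  refine integrableOn_ball_of_norm_le_rpow (C := 1) (α := 3 / 2) ?_ ?_ ?_ ?_
  · rw [Complex.finrank_real_complex]; norm_num
  · rw [Complex.finrank_real_complex]; norm_num
  · filter_upwards with x
    rw [Real.norm_of_nonneg (k3_nonneg x), k3_rpow, one_mul]
  · exact k3_meas.aestronglyMeasurable

theorem k3_le_one {v : ℂ} (h : 1 ≤ ‖v‖) : k3 v ≤ 1 := by
  unfold k3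
  apply pow_le_one₀ (by positivity)
  apply inv_le_one_of_one_le₀
  rw [Real.one_le_sqrt]
  exact h

theorem k3_kern_le (z ζ : ℂ) : (ball (0 : ℂ) 1).indicator (fun ζ => k3 (ζ - z)) ζ ≤
    k3N (ζ - z) + (ball (0 : ℂ) 1).indicator (fun _ => (1 : ℝ)) ζ := by
  by_cases hζ : ζ ∈ ball (0 : ℂ) 1
  · rw [indicator_of_mem hζ, indicator_of_mem hζ]
    by_cases h : ζ - z ∈ ball (0 : ℂ) 1
    · unfold k3N
      rw [indicator_of_mem h]
      linarith
    · unfold k3N
      rw [indicator_of_notMem h, zero_add]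
      rw [mem_ball_zero_iff, not_lt] at h
      exact k3_le_one h
  · rw [indicator_of_notMem hζ, indicator_of_notMem hζ, add_zero]
    exact k3N_nonneg _

theorem k3_dom_integrable (z : ℂ) : Integrable (fun ζ : ℂ => k3N (ζ - z) +
    (ball (0 : ℂ) 1).indicator (fun _ => (1 : ℝ)) ζ) := by
  apply (k3N_integrable.comp_sub_right z).add
  rw [integrable_indicator_iff measurableSet_ball]
  exact integrableOn_const measure_ball_lt_top.ne

theorem k3_kern_integrable (z : ℂ) : Integrable ((ball (0 : ℂ) 1).indicator (fun ζ : ℂ => k3 (ζ - z))) := by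
  apply (k3_dom_integrable z).mono'
  · apply AEStronglyMeasurable.indicator _ measurableSet_ball
    exact (k3_meas.comp (measurable_id.sub_const z)).aestronglyMeasurable
  · filter_upwards with ζ
    rw [Real.norm_of_nonneg (Set.indicator_nonneg (fun _ _ => k3_nonneg _) _)]
    exact k3_kern_le z ζ

/-- universal constant -/
noncomputable def C3 : ℝ := (∫ v, k3N v) + ∫ ζ, (ball (0 : ℂ) 1).indicator (fun _ => (1 : ℝ)) ζ

theorem C3_nonneg : 0 ≤ C3 :=
  add_nonneg (integral_nonneg k3N_nonneg) (integral_nonneg fun _ => Set.indicator_nonneg (fun _ _ => zero_le_one) _)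

theorem k3_kern_integral_le (z : ℂ) :
    ∫ ζ, (ball (0 : ℂ) 1).indicator (fun ζ : ℂ => k3 (ζ - z)) ζ ≤ C3 := by
  calc ∫ ζ, (ball (0 : ℂ) 1).indicator (fun ζ : ℂ => k3 (ζ - z)) ζ
      ≤ ∫ ζ, (k3N (ζ - z) + (ball (0 : ℂ) 1).indicator (fun _ => (1 : ℝ)) ζ) :=
        integral_mono (k3_kern_integrable z) (k3_dom_integrable z) (k3_kern_le z)
    _ = C3 := by
        rw [integral_add (k3N_integrable.comp_sub_right z), integral_sub_right_eq_self]
        · rfl
        · rw [integrable_indicator_iff measurableSet_ball]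
          exact integrableOn_const measure_ball_lt_top.ne

theorem inv_diff_le {a b : ℂ} (ha : a ≠ 0) (hb : b ≠ 0) :
    ‖a⁻¹ - b⁻¹‖ ≤ √‖a - b‖ * (k3 a + k3 b) := by
  have hα : 0 < √‖a‖ := Real.sqrt_pos.2 (norm_pos_iff.2 ha)
  have hβ : 0 < √‖b‖ := Real.sqrt_pos.2 (norm_pos_iff.2 hb)
  have ea : ‖a‖ = √‖a‖ ^ 2 := (Real.sq_sqrt (norm_nonneg a)).symm
  have eb : ‖b‖ = √‖b‖ ^ 2 := (Real.sq_sqrt (norm_nonneg b)).symm
  have h1 : ‖a⁻¹ - b⁻¹‖ = ‖a - b‖ / (‖a‖ * ‖b‖) := by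
    rw [inv_sub_inv ha hb, norm_div, norm_mul, norm_sub_rev]
  have hs : √‖a - b‖ ≤ √‖a‖ + √‖b‖ := by
    rw [Real.sqrt_le_left (by positivity)]
    calc ‖a - b‖ ≤ ‖a‖ + ‖b‖ := norm_sub_le a b
      _ ≤ (√‖a‖ + √‖b‖) ^ 2 := by
          rw [ea, eb, Real.sqrt_sq hα.le, Real.sqrt_sq hβ.le]
          nlinarith
  have ed : ‖a - b‖ = √‖a - b‖ * √‖a - b‖ := (Real.mul_self_sqrt (norm_nonneg _)).symm
  rw [h1]
  unfold k3
  set α := √‖a‖ with hαd
  set β := √‖b‖ with hβd
  set δ := √‖a - b‖ with hδd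
  have hδ : 0 ≤ δ := Real.sqrt_nonneg _
  rw [ed, ea, eb, mul_div_assoc]
  apply mul_le_mul_of_nonneg_left _ hδ
  calc δ / (α ^ 2 * β ^ 2) ≤ (α + β) / (α ^ 2 * β ^ 2) := by gcongr
    _ = α⁻¹ * β⁻¹ ^ 2 + α⁻¹ ^ 2 * β⁻¹ := by field_simp
    _ ≤ α⁻¹ ^ 3 + β⁻¹ ^ 3 := by
        have h2 : 0 < α⁻¹ := inv_pos.2 hα
        have h3 : 0 < β⁻¹ := inv_pos.2 hβ
        nlinarith [mul_nonneg (sq_nonneg (α⁻¹ - β⁻¹)) (add_pos h2 h3).le]

theorem T_holder {u : ℂ → ℂ} {M : ℝ} (h : Adm u M) (z w : ℂ) :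
    ‖T u z - T u w‖ ≤ M * (2 * C3) * √‖z - w‖ := by
  have hM := h.nonneg
  have hsub : T u z - T u w = ∫ ζ, (u ζ * (ζ - z)⁻¹ - u ζ * (ζ - w)⁻¹) := by
    unfold T
    rw [integral_sub (h.integrable z) (h.integrable w)]
  rw [hsub]
  have hae : ∀ᵐ ζ : ℂ, ‖u ζ * (ζ - z)⁻¹ - u ζ * (ζ - w)⁻¹‖ ≤
      (M * √‖z - w‖) * ((ball (0 : ℂ) 1).indicator (fun ζ : ℂ => k3 (ζ - z)) ζ +
        (ball (0 : ℂ) 1).indicator (fun ζ : ℂ => k3 (ζ - w)) ζ) := by
    have h1 : ∀ᵐ ζ : ℂ, ζ ≠ z := by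
      rw [ae_iff]; simp
    have h2 : ∀ᵐ ζ : ℂ, ζ ≠ w := by
      rw [ae_iff]; simp
    filter_upwards [h1, h2] with ζ hz hzv
    by_cases hζ : ζ ∈ ball (0 : ℂ) 1
    · rw [indicator_of_mem hζ, indicator_of_mem hζ]
      rw [← mul_sub, norm_mul]
      have h3 := inv_diff_le (sub_ne_zero.2 hz) (sub_ne_zero.2 hzv)
      have e : ζ - z - (ζ - w) = w - z := by ring
      rw [e, norm_sub_rev w z] at h3
      calc ‖u ζ‖ * ‖(ζ - z)⁻¹ - (ζ - w)⁻¹‖ ≤ M * (√‖z - w‖ * (k3 (ζ - z) + k3 (ζ - w))) := by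
            apply mul_le_mul (h.bd ζ) h3 (norm_nonneg _) hM
        _ = _ := by ring
    · rw [h.supp ζ hζ, indicator_of_notMem hζ, indicator_of_notMem hζ]; simp
  have hint : Integrable (fun ζ => (M * √‖z - w‖) * ((ball (0 : ℂ) 1).indicator (fun ζ : ℂ => k3 (ζ - z)) ζ +
        (ball (0 : ℂ) 1).indicator (fun ζ : ℂ => k3 (ζ - w)) ζ)) :=
    ((k3_kern_integrable z).add (k3_kern_integrable w)).const_mul _
  calc ‖∫ ζ, (u ζ * (ζ - z)⁻¹ - u ζ * (ζ - w)⁻¹)‖
      ≤ ∫ ζ, (M * √‖z - w‖) * ((ball (0 : ℂ) 1).indicator (fun ζ : ℂ => k3 (ζ - z)) ζ +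
        (ball (0 : ℂ) 1).indicator (fun ζ : ℂ => k3 (ζ - w)) ζ) := norm_integral_le_of_norm_le hint hae
    _ = (M * √‖z - w‖) * ((∫ ζ, (ball (0 : ℂ) 1).indicator (fun ζ : ℂ => k3 (ζ - z)) ζ) +
        ∫ ζ, (ball (0 : ℂ) 1).indicator (fun ζ : ℂ => k3 (ζ - w)) ζ) := by
        rw [integral_const_mul, integral_add (k3_kern_integrable z) (k3_kern_integrable w)]
    _ ≤ (M * √‖z - w‖) * (C3 + C3) := by
        apply mul_le_mul_of_nonneg_left _ (by positivity)
        exact add_le_add (k3_kern_integral_le z) (k3_kern_integral_le w)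
    _ = M * (2 * C3) * √‖z - w‖ := by ring

theorem T_cont {u : ℂ → ℂ} {M : ℝ} (h : Adm u M) : UniformContinuous (T u) := by
  rw [Metric.uniformContinuous_iff]
  intro ε hε
  have hC : 0 ≤ M * (2 * C3) := by
    have := h.nonneg
    have := C3_nonneg
    positivity
  set δ := (ε / (M * (2 * C3) + 1)) ^ 2 with hδ
  have hδ0 : 0 < δ := by positivity
  refine ⟨δ, hδ0, fun z w hzw => ?_⟩
  rw [dist_eq_norm] at hzw ⊢
  have h1 : √‖z - w‖ < ε / (M * (2 * C3) + 1) := by
    rw [Real.sqrt_lt' (by positivity)]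
    exact hzw
  calc ‖T u z - T u w‖ ≤ M * (2 * C3) * √‖z - w‖ := T_holder h z w
    _ ≤ (M * (2 * C3) + 1) * √‖z - w‖ := by
        apply mul_le_mul_of_nonneg_right _ (Real.sqrt_nonneg _)
        linarith
    _ < (M * (2 * C3) + 1) * (ε / (M * (2 * C3) + 1)) := by
        apply mul_lt_mul_of_pos_left h1
        linarith
    _ = ε := mul_div_cancel₀ _ (by linarith)

/-- the planar density -/
noncomputable def sg (r : ℝ → ENNReal) (ζ : ℂ) : ℂ := dn r ζ.re * dn r ζ.im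

variable {r : ℝ → ENNReal}

theorem Den.dn_meas (hr : Den r) : Measurable (dn r) := Complex.measurable_ofReal.comp hr.toReal_meas

theorem Den.norm_dn (hr : Den r) (x : ℝ) : ‖dn r x‖ ≤ 1 / 4 := by
  unfold dn
  rw [Complex.norm_real, Real.norm_of_nonneg ENNReal.toReal_nonneg]
  exact (hr.toReal_le x).trans (r0_le x)

theorem Den.dn_zero (hr : Den r) {x : ℝ} (hx : 1 / 2 ≤ |x|) : dn r x = 0 := by
  have h1 := hr.toReal_le x
  rw [r0_zero hx] at h1
  have h2 : (r x).toReal = 0 := le_antisymm h1 ENNReal.toReal_nonneg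
  unfold dn
  rw [h2, Complex.ofReal_zero]

theorem Den.adm (hr : Den r) : Adm (sg r) 1 := by
  refine ⟨(hr.dn_meas.comp Complex.measurable_re).mul (hr.dn_meas.comp Complex.measurable_im), ?_, ?_⟩
  · intro ζ
    unfold sg
    rw [norm_mul]
    have h1 := hr.norm_dn ζ.re
    have h2 := hr.norm_dn ζ.im
    have h3 := norm_nonneg (dn r ζ.re)
    have h4 := norm_nonneg (dn r ζ.im)
    nlinarith
  · intro ζ hζ
    unfold sg
    by_contra hne
    have h1 : |ζ.re| < 1 / 2 := by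
      by_contra hcon
      push Not at hcon
      apply hne
      rw [hr.dn_zero hcon, zero_mul]
    have h2 : |ζ.im| < 1 / 2 := by
      by_contra hcon
      push Not at hcon
      apply hne
      rw [hr.dn_zero hcon, mul_zero]
    apply hζ
    rw [mem_ball_zero_iff]
    have h3 := Complex.norm_le_abs_re_add_abs_im ζ
    linarith

theorem Den.prod_integrable (hr : Den r) (z : ℂ) :
    Integrable (fun p : ℝ × ℝ => dn r p.1 * dn r p.2 * (((p.1 : ℂ) + p.2 * I) - z)⁻¹) := by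
  have h := hr.adm.integrable z
  have h2 := (Complex.volume_preserving_equiv_real_prod.symm).integrable_comp_emb
    (MeasurableEquiv.measurableEmbedding _) |>.2 h
  refine h2.congr (Eventually.of_forall fun p => ?_)
  simp only [Function.comp, sg, Complex.measurableEquivRealProd_symm_apply]
  have e : ({ re := p.1, im := p.2 } : ℂ) = (p.1 : ℂ) + p.2 * I := by
    apply Complex.ext <;> simp
  rw [e]

theorem Den.inner_eq (r : ℝ → ENNReal) (z : ℂ) (t : ℝ) :
    ∫ s : ℝ, dn r s * dn r t * (((s : ℂ) + t * I) - z)⁻¹ = dn r t * cau (dn r) (z - I * t) := by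
  unfold cau
  rw [← integral_const_mul]
  congr 1
  funext s
  rw [div_eq_mul_inv]
  have e : (s : ℂ) + t * I - z = (s : ℂ) - (z - I * t) := by ring
  rw [e]
  ring

theorem Den.T_sg (hr : Den r) (z : ℂ) :
    Integrable (fun t : ℝ => dn r t * cau (dn r) (z - I * t)) ∧
    T (sg r) z = ∫ t : ℝ, dn r t * cau (dn r) (z - I * t) := by
  have hp := hr.prod_integrable z
  constructor
  · have := hp.integral_prod_right
    simp_rw [Den.inner_eq] at this
    exact this
  · have e1 : T (sg r) z = ∫ p : ℝ × ℝ, dn r p.1 * dn r p.2 * (((p.1 : ℂ) + p.2 * I) - z)⁻¹ := by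
      unfold T
      rw [← (Complex.volume_preserving_equiv_real_prod.symm).integral_comp']
      congr 1
      funext p
      simp only [sg, Complex.measurableEquivRealProd_symm_apply]
      have e : ({ re := p.1, im := p.2 } : ℂ) = (p.1 : ℂ) + p.2 * I := by
        apply Complex.ext <;> simp
      rw [e]
    rw [e1]
    have e2 := integral_prod_symm _ hp
    rw [show (volume : Measure (ℝ × ℝ)) = (volume : Measure ℝ).prod volume from rfl]
    rw [e2]
    simp_rw [Den.inner_eq]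

theorem Den.T_mono (hr : Den r) (z w : ℂ) :
    -(3 * Real.pi) * (∫ t, (r t).toReal) * ‖w - z‖ ^ 2 ≤
      ((T (sg r) w - T (sg r) z) * (starRingEnd ℂ) (w - z)).re := by
  obtain ⟨iz, ez⟩ := hr.T_sg z
  obtain ⟨iw, ew⟩ := hr.T_sg w
  rw [ez, ew, ← integral_sub iw iz, ← integral_mul_const]
  have hi : Integrable (fun t : ℝ => (dn r t * cau (dn r) (w - I * t) - dn r t * cau (dn r) (z - I * t)) *
      (starRingEnd ℂ) (w - z)) := (iw.sub iz).mul_const _
  have e1 : (∫ t : ℝ, (dn r t * cau (dn r) (w - I * t) - dn r t * cau (dn r) (z - I * t)) *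
      (starRingEnd ℂ) (w - z)).re = ∫ t : ℝ, ((dn r t * cau (dn r) (w - I * t) -
        dn r t * cau (dn r) (z - I * t)) * (starRingEnd ℂ) (w - z)).re :=
    (Complex.reCLM.integral_comp_comm hi).symm
  rw [e1]
  have e2 : -(3 * Real.pi) * (∫ t, (r t).toReal) * ‖w - z‖ ^ 2 =
      ∫ t, (r t).toReal * (-(3 * Real.pi) * ‖w - z‖ ^ 2) := by
    rw [integral_mul_const]; ring
  rw [e2]
  have hre : Integrable (fun t : ℝ => ((dn r t * cau (dn r) (w - I * t) -
        dn r t * cau (dn r) (z - I * t)) * (starRingEnd ℂ) (w - z)).re) := hi.re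
  apply integral_mono_ae (hr.toReal_integrable.mul_const _) hre
  have h1 : ∀ᵐ t : ℝ, t ≠ z.im := by rw [ae_iff]; simp
  have h2 : ∀ᵐ t : ℝ, t ≠ w.im := by rw [ae_iff]; simp
  filter_upwards [h1, h2] with t ht1 ht2
  have hm := hr.mono (z := z - I * t) (w := w - I * t)
    (by simp; exact sub_ne_zero.2 (Ne.symm ht1)) (by simp; exact sub_ne_zero.2 (Ne.symm ht2))
  have e3 : w - I * t - (z - I * t) = w - z := by ring
  rw [e3] at hm
  have e4 : (dn r t * cau (dn r) (w - I * t) - dn r t * cau (dn r) (z - I * t)) * (starRingEnd ℂ) (w - z) =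
      dn r t * ((cau (dn r) (w - I * t) - cau (dn r) (z - I * t)) * (starRingEnd ℂ) (w - z)) := by ring
  rw [e4]
  have e5 : (dn r t * ((cau (dn r) (w - I * t) - cau (dn r) (z - I * t)) * (starRingEnd ℂ) (w - z))).re =
      (r t).toReal * ((cau (dn r) (w - I * t) - cau (dn r) (z - I * t)) * (starRingEnd ℂ) (w - z)).re := by
    unfold dn
    rw [Complex.re_ofReal_mul]
  rw [e5]
  exact mul_le_mul_of_nonneg_left hm ENNReal.toReal_nonneg

end Pool.Agent.H804R2.QC
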