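import Pool.Agent.H804R2.QC4

set_option autoImplicit false

open MeasureTheory Set Filter Topology Complex Metric

namespace Pool.Agent.H804R2.QC

open Pool.Agent.Helper523.LL (Adm T C0 kern_integral_le kern_integrable)

variable {r : ℝ → ENNReal}

/-- where the density does not vanish -/
def SS (r : ℝ → ENNReal) : Set ℂ := {ζ | sg r ζ ≠ 0}

theorem Den.SS_meas (hr : Den r) : MeasurableSet (SS r) :=
  (measurableSet_eq_fun hr.adm.meas measurable_const).compl

/-- the measure -/
noncomputable def mu (r : ℝ → ENNReal) : Measure ℂ := volume.restrict (SS r)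

/-- the set -/
noncomputable def PP (r : ℝ → ENNReal) : Set ℂ := (mu r).support

theorem PP_closed (r : ℝ → ENNReal) : IsClosed (PP r) := Measure.isClosed_support

theorem mu_single (r : ℝ → ENNReal) (x : ℂ) : mu r {x} = 0 := by
  unfold mu
  rw [Measure.restrict_apply (measurableSet_singleton x)]
  exact measure_mono_null inter_subset_left (by simp)

theorem PP_perfect (r : ℝ → ENNReal) : Perfect (PP r) := by
  refine ⟨PP_closed r, ?_⟩
  intro x hx
  rw [accPt_iff_nhds]
  intro U hU
  by_contra hcon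
  push Not at hcon
  have h1 : 0 < mu r U := (Measure.mem_support_iff_forall x).1 hx U hU
  have h2 : U ⊆ (PP r)ᶜ ∪ {x} := by
    intro y hy
    by_cases hyP : y ∈ PP r
    · right; exact hcon y ⟨hy, hyP⟩
    · left; exact hyP
  have h3 : mu r U ≤ 0 := by
    calc mu r U ≤ mu r ((PP r)ᶜ ∪ {x}) := measure_mono h2
      _ ≤ mu r ((PP r)ᶜ) + mu r {x} := measure_union_le _ _
      _ = 0 := by
          rw [mu_single]
          unfold PP
          rw [Measure.measure_compl_support, add_zero]
  exact absurd h1 (not_lt.2 h3)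

theorem PP_avoid_re {q : ℝ} (hq : ∀ᶠ x in 𝓝 q, r x = 0) {ζ : ℂ} (hζ : ζ.re = q) : ζ ∉ PP r := by
  unfold PP
  rw [Measure.notMem_support_iff_exists]
  have h1 : ∀ᶠ w in 𝓝 ζ, r w.re = 0 := by
    have : Tendsto (fun w : ℂ => w.re) (𝓝 ζ) (𝓝 q) := by
      rw [← hζ]
      exact Complex.continuous_re.tendsto ζ
    exact this.eventually hq
  obtain ⟨U, hU, hU2⟩ := Filter.eventually_iff_exists_mem.1 h1
  obtain ⟨V, hVU, hVo, hV⟩ := _root_.mem_nhds_iff.1 hU
  refine ⟨V, hVo.mem_nhds hV, ?_⟩
  unfold mu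
  rw [Measure.restrict_apply hVo.measurableSet]
  have : V ∩ SS r = ∅ := by
    ext w
    simp only [mem_inter_iff, mem_empty_iff_false, iff_false, not_and]
    intro hw hS
    apply hS
    unfold sg dn
    rw [hU2 w (hVU hw)]
    simp
  rw [this, measure_empty]

theorem PP_avoid_im {q : ℝ} (hq : ∀ᶠ x in 𝓝 q, r x = 0) {ζ : ℂ} (hζ : ζ.im = q) : ζ ∉ PP r := by
  unfold PP
  rw [Measure.notMem_support_iff_exists]
  have h1 : ∀ᶠ w in 𝓝 ζ, r w.im = 0 := by
    have : Tendsto (fun w : ℂ => w.im) (𝓝 ζ) (𝓝 q) := by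
      rw [← hζ]
      exact Complex.continuous_im.tendsto ζ
    exact this.eventually hq
  obtain ⟨U, hU, hU2⟩ := Filter.eventually_iff_exists_mem.1 h1
  obtain ⟨V, hVU, hVo, hV⟩ := _root_.mem_nhds_iff.1 hU
  refine ⟨V, hVo.mem_nhds hV, ?_⟩
  unfold mu
  rw [Measure.restrict_apply hVo.measurableSet]
  have : V ∩ SS r = ∅ := by
    ext w
    simp only [mem_inter_iff, mem_empty_iff_false, iff_false, not_and]
    intro hw hS
    apply hS
    unfold sg dn
    rw [hU2 w (hVU hw)]
    simp
  rw [this, measure_empty]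

/-- a preconnected subset of `ℝ` which avoids a dense set is a subsingleton -/
theorem sub_of_avoid {D t : Set ℝ} (hD : Dense D) (ht : IsPreconnected t) (h : ∀ q ∈ D, q ∉ t) :
    t.Subsingleton := by
  intro a ha b hb
  by_contra hne
  wlog hab : a < b generalizing a b
  · exact this hb ha (Ne.symm hne) (lt_of_le_of_ne (not_lt.1 hab) (Ne.symm hne))
  obtain ⟨q, hq, hqa, hqb⟩ := hD.exists_between hab
  exact h q hq (ht.ordConnected.out ha hb ⟨hqa.le, hqb.le⟩)

theorem PP_totDisc {D : Set ℝ} (hD : Dense D) (h : ∀ q ∈ D, ∀ᶠ x in 𝓝 q, r x = 0) :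
    IsTotallyDisconnected (PP r) := by
  intro t htP ht a ha b hb
  have h1 : (Complex.re '' t).Subsingleton := by
    apply sub_of_avoid hD (ht.image _ Complex.continuous_re.continuousOn)
    rintro q hq ⟨ζ, hζ, hζq⟩
    exact PP_avoid_re (h q hq) hζq (htP hζ)
  have h2 : (Complex.im '' t).Subsingleton := by
    apply sub_of_avoid hD (ht.image _ Complex.continuous_im.continuousOn)
    rintro q hq ⟨ζ, hζ, hζq⟩
    exact PP_avoid_im (h q hq) hζq (htP hζ)
  exact Complex.ext (h1 (mem_image_of_mem _ ha) (mem_image_of_mem _ hb))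
    (h2 (mem_image_of_mem _ ha) (mem_image_of_mem _ hb))

theorem Den.SS_pos (hr : Den r) (h0 : ∫⁻ s, r s ≠ 0) : volume (SS r) ≠ 0 := by
  set A : Set ℝ := {x | dn r x ≠ 0} with hA
  have hAm : MeasurableSet A := (measurableSet_eq_fun hr.dn_meas measurable_const).compl
  have hA0 : volume A ≠ 0 := by
    intro hv
    apply h0
    rw [lintegral_eq_zero_iff hr.meas]
    have : ∀ᵐ x, x ∉ A := measure_eq_zero_iff_ae_notMem.1 hv
    filter_upwards [this] with x hx
    have h1 : dn r x = 0 := by
      by_contra hc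
      exact hx hc
    unfold dn at h1
    rw [Complex.ofReal_eq_zero, ENNReal.toReal_eq_zero_iff] at h1
    rcases h1 with h1 | h1
    · simpa using h1
    · exact absurd h1 (hr.fin x)
  have e : SS r = Complex.measurableEquivRealProd ⁻¹' (A ×ˢ A) := by
    ext ζ
    simp only [SS, sg, mem_ofPred_eq, mem_preimage, Complex.measurableEquivRealProd_apply, mem_prod, hA,
      ne_eq, mul_eq_zero, not_or]
  rw [e, Complex.volume_preserving_equiv_real_prod.measure_preimage (hAm.prod hAm).nullMeasurableSet]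
  rw [show (volume : Measure (ℝ × ℝ)) = (volume : Measure ℝ).prod volume from rfl, Measure.prod_prod]
  exact mul_ne_zero hA0 hA0

theorem Den.PP_nonempty (hr : Den r) (h0 : ∫⁻ s, r s ≠ 0) : (PP r).Nonempty := by
  unfold PP
  apply Measure.nonempty_support
  unfold mu
  rw [ne_eq, Measure.restrict_eq_zero]
  exact hr.SS_pos h0

/-- density restricted to the support -/
noncomputable def uu (r : ℝ → ENNReal) : ℂ → ℂ := (PP r).indicator (sg r)

theorem Den.uu_adm (hr : Den r) : Adm (uu r) 1 := by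
  refine ⟨hr.adm.meas.indicator (PP_closed r).measurableSet, ?_, ?_⟩
  · intro ζ
    unfold uu
    by_cases h : ζ ∈ PP r
    · rw [indicator_of_mem h]; exact hr.adm.bd ζ
    · rw [indicator_of_notMem h]; simp
  · intro ζ hζ
    unfold uu
    by_cases h : ζ ∈ PP r
    · rw [indicator_of_mem h]; exact hr.adm.supp ζ hζ
    · rw [indicator_of_notMem h]

theorem uu_ae (r : ℝ → ENNReal) : uu r =ᵐ[volume] sg r := by
  have h1 : volume ((PP r)ᶜ ∩ SS r) = 0 := by
    have h2 : mu r (PP r)ᶜ = 0 := Measure.measure_compl_support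
    unfold mu at h2
    rwa [Measure.restrict_apply (PP_closed r).measurableSet.compl] at h2
  have h2 : ∀ᵐ ζ, ζ ∉ (PP r)ᶜ ∩ SS r := measure_eq_zero_iff_ae_notMem.1 h1
  filter_upwards [h2] with ζ hζ
  unfold uu
  by_cases h : ζ ∈ PP r
  · rw [indicator_of_mem h]
  · rw [indicator_of_notMem h]
    by_contra hne
    exact hζ ⟨h, fun h0 => hne h0.symm⟩

theorem T_uu (r : ℝ → ENNReal) : T (uu r) = T (sg r) := by
  funext z
  unfold T
  apply integral_congr_ae
  filter_upwards [uu_ae r] with ζ hζ
  rw [hζ]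

theorem Den.T_holo (hr : Den r) : DifferentiableOn ℂ (T (uu r)) (PP r)ᶜ :=
  hr.uu_adm.T_diff (PP_closed r).isOpen_compl (fun ζ hζ => by unfold uu; exact indicator_of_notMem hζ _)

/-- circle integral of the Cauchy kernel -/
theorem circle_kernel (p : ℂ) {R : ℝ} (hR : 0 < R) {ζ : ℂ} (hζ : ζ ∉ sphere p R) :
    ∮ z in C(p, R), (ζ - z)⁻¹ = (ball p R).indicator (fun _ => -(2 * Real.pi * I)) ζ := by
  have e : (fun z => (ζ - z)⁻¹) = fun z => (-1 : ℂ) * (z - ζ)⁻¹ := by
    funext z
    rw [← neg_sub z ζ, inv_neg, neg_one_mul]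
  rw [e, circleIntegral.integral_const_mul]
  by_cases h : ζ ∈ ball p R
  · rw [indicator_of_mem h, circleIntegral.integral_sub_inv_of_mem_ball h]
    ring
  · rw [indicator_of_notMem h]
    have hd : ∀ z ∈ closedBall p R, z - ζ ≠ 0 := by
      intro z hz h0
      rw [sub_eq_zero] at h0
      rw [h0] at hz
      rw [mem_closedBall] at hz
      rw [mem_ball] at h
      apply hζ
      rw [mem_sphere]
      linarith
    rw [Complex.circleIntegral_eq_zero_of_differentiable_on_off_countable hR.le countable_empty, mul_zero]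
    · apply ContinuousOn.inv₀ (by fun_prop)
      exact hd
    · intro z hz
      have hz' : z ∈ closedBall p R := ball_subset_closedBall hz.1
      have : DifferentiableAt ℂ (fun z : ℂ => z - ζ) z := by fun_prop
      exact this.inv (hd z hz')

theorem circle_T {u : ℂ → ℂ} {M : ℝ} (hu : Adm u M) (p : ℂ) {R : ℝ} (hR : 0 < R) :
    ∮ z in C(p, R), T u z = -(2 * Real.pi * I) * ∫ ζ in ball p R, u ζ := by
  set G : ℝ → ℂ → ℂ := fun θ ζ => deriv (circleMap p R) θ * (u ζ * (ζ - circleMap p R θ)⁻¹) with hG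
  have hmeas : Measurable (Function.uncurry G) := by
    have h1 : Measurable (fun q : ℝ × ℂ => circleMap p R q.1) :=
      (continuous_circleMap p R).measurable.comp measurable_fst
    have h2 : Measurable (fun q : ℝ × ℂ => deriv (circleMap p R) q.1) := by
      have : Measurable (fun θ : ℝ => deriv (circleMap p R) θ) := measurable_deriv _
      exact this.comp measurable_fst
    have h3 : Measurable (fun q : ℝ × ℂ => u q.2) := hu.meas.comp measurable_snd
    exact h2.mul (h3.mul (measurable_snd.sub h1).inv)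
  have hint : Integrable (Function.uncurry G) ((volume.restrict (Ioc 0 (2 * Real.pi))).prod volume) := by
    rw [integrable_prod_iff hmeas.aestronglyMeasurable]
    refine ⟨Eventually.of_forall fun θ => ?_, ?_⟩
    · exact (hu.integrable (circleMap p R θ)).const_mul (deriv (circleMap p R) θ)
    · have hb : Integrable (fun _ : ℝ => |R| * (M * C0)) (volume.restrict (Ioc 0 (2 * Real.pi))) :=
        integrable_const _
      refine hb.mono' ?_ (Eventually.of_forall fun θ => ?_)
      · exact (hmeas.aestronglyMeasurable.norm.integral_prod_right')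
      · rw [Real.norm_of_nonneg (integral_nonneg fun _ => norm_nonneg _)]
        have e : ∀ ζ : ℂ, ‖Function.uncurry G (θ, ζ)‖ = |R| * ‖u ζ * (ζ - circleMap p R θ)⁻¹‖ := by
          intro ζ
          simp only [Function.uncurry, hG]
          rw [norm_mul, deriv_circleMap]
          simp
        simp_rw [e]
        rw [integral_const_mul]
        apply mul_le_mul_of_nonneg_left _ (abs_nonneg R)
        calc ∫ ζ, ‖u ζ * (ζ - circleMap p R θ)⁻¹‖
            ≤ ∫ ζ, M * (ball (0 : ℂ) 1).indicator (fun ζ : ℂ => ‖ζ - circleMap p R θ‖⁻¹) ζ :=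
              integral_mono (hu.integrable _).norm ((kern_integrable _).const_mul M) (hu.norm_le _)
          _ = M * ∫ ζ, (ball (0 : ℂ) 1).indicator (fun ζ : ℂ => ‖ζ - circleMap p R θ‖⁻¹) ζ :=
              integral_const_mul _ _
          _ ≤ M * C0 := mul_le_mul_of_nonneg_left (kern_integral_le _) hu.nonneg
  have e1 : ∮ z in C(p, R), T u z = ∫ θ in Ioc 0 (2 * Real.pi), ∫ ζ, G θ ζ := by
    rw [circleIntegral, intervalIntegral.integral_of_le (by positivity)]
    congr 1
    funext θ
    unfold T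
    rw [smul_eq_mul, ← integral_const_mul]
  rw [e1, integral_integral_swap hint]
  have e2 : ∀ᵐ ζ : ℂ, ∫ θ in Ioc 0 (2 * Real.pi), G θ ζ =
      (ball p R).indicator (fun ζ => -(2 * Real.pi * I) * u ζ) ζ := by
    have hs : ∀ᵐ ζ : ℂ, ζ ∉ sphere p R := by
      apply measure_eq_zero_iff_ae_notMem.1
      exact Measure.addHaar_sphere volume p R
    filter_upwards [hs] with ζ hζ
    have e3 : ∫ θ in Ioc 0 (2 * Real.pi), G θ ζ = u ζ * ∮ z in C(p, R), (ζ - z)⁻¹ := by
      rw [circleIntegral, intervalIntegral.integral_of_le (by positivity), ← integral_const_mul]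
      congr 1
      funext θ
      simp only [hG, smul_eq_mul]
      ring
    rw [e3, circle_kernel p hR hζ]
    by_cases h : ζ ∈ ball p R
    · rw [indicator_of_mem h, indicator_of_mem h]; ring
    · rw [indicator_of_notMem h, indicator_of_notMem h]; ring
  rw [integral_congr_ae e2, integral_indicator measurableSet_ball, integral_const_mul]

theorem Den.not_analytic (hr : Den r) {p : ℂ} (hp : p ∈ PP r) : ¬ AnalyticAt ℂ (T (uu r)) p := by
  intro ha
  obtain ⟨R, hR, hRd⟩ := Metric.eventually_nhds_iff_ball.1 ha.eventually_analyticAt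
  have hR2 : 0 < R / 2 := by linarith
  have hsub : closedBall p (R / 2) ⊆ ball p R := closedBall_subset_ball (by linarith)
  have h0 : ∮ z in C(p, R / 2), T (uu r) z = 0 := by
    apply Complex.circleIntegral_eq_zero_of_differentiable_on_off_countable hR2.le countable_empty
    · intro z hz
      exact (hRd z (hsub hz)).continuousAt.continuousWithinAt
    · intro z hz
      exact (hRd z (hsub (ball_subset_closedBall hz.1))).differentiableAt
  rw [circle_T hr.uu_adm p hR2] at h0
  have h1 : ∫ ζ in ball p (R / 2), uu r ζ = 0 := by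
    rcases mul_eq_zero.1 h0 with h | h
    · exfalso
      apply Complex.two_pi_I_ne_zero
      simp at h
    · exact h
  have h2 : ∫ ζ in ball p (R / 2), sg r ζ = 0 := by
    rw [← h1]
    apply integral_congr_ae
    exact ae_restrict_of_ae ((uu_ae r).symm)
  have h3 : ∫ ζ in ball p (R / 2), ((r ζ.re).toReal * (r ζ.im).toReal) = 0 := by
    have e : (fun ζ => sg r ζ) = fun ζ => (((r ζ.re).toReal * (r ζ.im).toReal : ℝ) : ℂ) := by
      funext ζ
      unfold sg dn
      push_cast
      ring
    rw [e, integral_complex_ofReal] at h2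
    exact_mod_cast h2
  have hint : IntegrableOn (fun ζ : ℂ => (r ζ.re).toReal * (r ζ.im).toReal) (ball p (R / 2)) := by
    have h4 : Integrable (fun ζ : ℂ => (sg r ζ).re) := hr.adm.integrable_self.re
    have e : (fun ζ => (sg r ζ).re) = fun ζ => (r ζ.re).toReal * (r ζ.im).toReal := by
      funext ζ
      unfold sg dn
      rw [← Complex.ofReal_mul, Complex.ofReal_re]
    rw [e] at h4
    exact h4.integrableOn
  rw [integral_eq_zero_iff_of_nonneg (fun ζ => mul_nonneg ENNReal.toReal_nonneg ENNReal.toReal_nonneg) hint] at h3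
  have h5 : mu r (ball p (R / 2)) = 0 := by
    unfold mu
    rw [Measure.restrict_apply measurableSet_ball]
    have h6 : ∀ᵐ ζ ∂(volume.restrict (ball p (R / 2))), ζ ∉ SS r := by
      filter_upwards [h3] with ζ hζ hS
      apply hS
      have : sg r ζ = (((r ζ.re).toReal * (r ζ.im).toReal : ℝ) : ℂ) := by
        unfold sg dn
        push_cast
        ring
      rw [this, hζ]
      simp
    have h7 := measure_eq_zero_iff_ae_notMem.2 h6
    rwa [Measure.restrict_apply hr.SS_meas, inter_comm] at h7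
  have h8 : 0 < mu r (ball p (R / 2)) :=
    (Measure.mem_support_iff_forall p).1 hp _ (ball_mem_nhds p hR2)
  exact absurd h8 (by rw [h5]; exact lt_irrefl 0)

/-- the constant -/
noncomputable def AA (r : ℝ → ENNReal) : ℝ := 3 * Real.pi * (∫ t, (r t).toReal) + 1

/-- the function -/
noncomputable def ff (r : ℝ → ENNReal) (z : ℂ) : ℂ := (AA r : ℂ) * z + T (uu r) z

theorem Den.ff_anti (hr : Den r) (z w : ℂ) : ‖w - z‖ ≤ ‖ff r w - ff r z‖ := by
  have h1 := hr.T_mono z w
  have e : (ff r w - ff r z) * (starRingEnd ℂ) (w - z) =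
      ((AA r * ‖w - z‖ ^ 2 : ℝ) : ℂ) + (T (sg r) w - T (sg r) z) * (starRingEnd ℂ) (w - z) := by
    unfold ff
    rw [T_uu]
    have : ((AA r * ‖w - z‖ ^ 2 : ℝ) : ℂ) = (AA r : ℂ) * ((w - z) * (starRingEnd ℂ) (w - z)) := by
      rw [Complex.mul_conj, Complex.normSq_eq_norm_sq]
      push_cast
      ring
    rw [this]
    ring
  have h2 : ‖w - z‖ ^ 2 ≤ ((ff r w - ff r z) * (starRingEnd ℂ) (w - z)).re := by
    rw [e, Complex.add_re, Complex.ofReal_re]
    unfold AA
    nlinarith
  have h3 : ((ff r w - ff r z) * (starRingEnd ℂ) (w - z)).re ≤ ‖ff r w - ff r z‖ * ‖w - z‖ := by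
    refine (Complex.re_le_norm _).trans ?_
    rw [norm_mul, Complex.norm_conj]
  rcases eq_or_lt_of_le (norm_nonneg (w - z)) with h | h
  · rw [← h]; exact norm_nonneg _
  · have h4 : ‖w - z‖ * ‖w - z‖ ≤ ‖ff r w - ff r z‖ * ‖w - z‖ := by
      rw [← sq]; exact h2.trans h3
    exact le_of_mul_le_mul_right h4 h

theorem Den.ff_cont (hr : Den r) : UniformContinuous (ff r) := by
  have h1 : UniformContinuous (fun z : ℂ => (AA r : ℂ) * z) := by
    have := ((ContinuousLinearMap.mul ℂ ℂ) (AA r : ℂ)).uniformContinuous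
    exact this
  exact h1.add (T_cont hr.uu_adm)

theorem Den.ff_embedding (hr : Den r) : Topology.IsEmbedding (ff r) := by
  have h : AntilipschitzWith 1 (ff r) := by
    apply AntilipschitzWith.of_le_mul_dist
    intro x y
    rw [NNReal.coe_one, one_mul, dist_eq_norm, dist_eq_norm]
    exact hr.ff_anti y x
  exact (h.isUniformEmbedding hr.ff_cont).isEmbedding

theorem Den.ff_not_analytic (hr : Den r) {p : ℂ} (hp : p ∈ PP r) : ¬ AnalyticAt ℂ (ff r) p := by
  intro ha
  apply hr.not_analytic hp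
  have h1 : AnalyticAt ℂ (fun z : ℂ => (AA r : ℂ) * z) p := analyticAt_const.mul analyticAt_id
  have h2 := ha.sub h1
  have e : (ff r - fun z : ℂ => (AA r : ℂ) * z) = T (uu r) := by
    funext z
    simp only [Pi.sub_apply, ff]
    ring
  rwa [e] at h2

theorem main : ∃ (P : Set ℂ) (f : ℂ → ℂ), P.Nonempty ∧ Perfect P ∧ IsTotallyDisconnected P ∧
      Continuous f ∧ DifferentiableOn ℂ f Pᶜ ∧ (∀ p ∈ P, ¬ AnalyticAt ℂ f p) ∧
      IsTotallyDisconnected (f '' P) := by
  obtain ⟨r, h1, h2, h3, ⟨D, hD, hD2⟩, h5⟩ := exists_density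
  have hr : Den r := ⟨h1, h2, h3⟩
  refine ⟨PP r, ff r, hr.PP_nonempty h5, PP_perfect r, PP_totDisc hD hD2, hr.ff_cont.continuous, ?_,
    fun p hp => hr.ff_not_analytic hp, ?_⟩
  · have g1 : DifferentiableOn ℂ (fun z : ℂ => (AA r : ℂ) * z) (PP r)ᶜ := by fun_prop
    exact g1.add hr.T_holo
  · exact hr.ff_embedding.isTotallyDisconnected_image.2 (PP_totDisc hD hD2)

end Pool.Agent.H804R2.QC
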