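import Pool.Agent.H765R2.RS5

/-!
# More on the Riemann surface of `Pool.Agent.H765R2.RS1` : a separating curve
-/

set_option autoImplicit false

open Filter Topology Complex Set
open scoped Manifold

namespace Pool.Agent.H804R2.SC

open Pool.Agent.H765R2.RS

/-- The maximum principle at every point. -/
lemma max_principle' {g : Surf → ℂ} (hg : MDifferentiable 𝓘(ℂ) 𝓘(ℂ) g) {r B : ℝ} (hr0 : 0 ≤ r)
    (hr : r < 1) (hB : ∀ x : Surf, ‖x.z‖ = r → ‖g x‖ ≤ B) {p : Surf} (hpr : ‖p.z‖ ≤ r) : ‖g p‖ ≤ B := by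
  obtain ⟨m1, hm1⟩ := a_tail hr0 hr (δ := 1) one_pos
  obtain ⟨m2, hm2⟩ := p.tail
  set m := max m1 m2 with hmdef
  have hm : ∀ n ≥ m, ∀ z : ℂ, ‖z‖ ≤ r → ‖a n z‖ < 1 := fun n hn => hm1 n (by omega)
  have hK := isCompact_piece hr hm
  have hp : p ∈ piece r m := ⟨hpr, fun j hj => hm2 j (by omega)⟩
  obtain ⟨x0, hx0, hmax⟩ := hK.exists_isMaxOn ⟨p, hp⟩ hg.continuous.norm.continuousOn
  set K' := piece r m ∩ {x | ‖g x‖ = ‖g x0‖} with hK'
  have hK'c : IsCompact K' := hK.inter_right (isClosed_eq hg.continuous.norm continuous_const)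
  obtain ⟨x1, hx1, hmax1⟩ := hK'c.exists_isMaxOn ⟨x0, hx0, rfl⟩ cont_z.norm.continuousOn
  have hx1m : ∀ y ∈ piece r m, ‖g y‖ ≤ ‖g x1‖ := by
    intro y hy
    rw [hx1.2]
    exact hmax hy
  have hle := hx1m p hp
  rcases eq_or_lt_of_le hx1.1.1 with h | h
  · exact hle.trans (hB x1 h)
  · exfalso
    have hnhds := piece_nhds hx1.1 h
    have hloc : IsLocalMax (norm ∘ g) x1 := by
      filter_upwards [hnhds] with y hy
      exact hx1m y hy
    have hev := Complex.norm_eventually_eq_of_mdifferentiableAt_of_isLocalMax (I := 𝓘(ℂ))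
      (Eventually.of_forall fun z => hg z) hloc
    obtain ⟨y, ⟨hy1, hy2⟩, hy3⟩ := outward x1 (inter_mem hnhds hev)
    have hyK : y ∈ K' := ⟨hy1, by
      show ‖g y‖ = ‖g x0‖
      rw [← hx1.2]; exact hy2⟩
    have := hmax1 hyK
    have this' : ‖y.z‖ ≤ ‖x1.z‖ := this
    linarith

/-- The quotient is uniformly small on the whole surface. -/
lemma quo_bound {f : Surf → ℂ} (hf : MDifferentiable 𝓘(ℂ) 𝓘(ℂ) f) {C : ℝ}
    (hC : ∀ x, ‖f x‖ ≤ C) {n : ℕ} (hn : 1 ≤ n) (p : Surf) :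
    ‖quo n f p‖ ≤ 2 * C / Real.sqrt (2 ^ n - 1) := by
  obtain ⟨ζ, -, hζ1, hζ2⟩ := exists_root (n := (n + 1) * (n + 1)) (by positivity)
  have h2n : (2 : ℝ) ≤ 2 ^ n := by
    calc (2 : ℝ) = 2 ^ 1 := by norm_num
      _ ≤ 2 ^ n := pow_le_pow_right₀ (by norm_num) hn
  have hs : 0 < Real.sqrt (2 ^ n - 1) := Real.sqrt_pos.2 (by linarith)
  have key : ∀ x : Surf, ‖ζ‖ ≤ ‖x.z‖ → ‖quo n f x‖ ≤ 2 * C / Real.sqrt (2 ^ n - 1) := by
    intro x hx
    have e1 : 2 ^ n ≤ ‖a n x.z‖ := by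
      have h0 : (2 : ℝ) ^ n = (2 * ‖ζ‖ ^ (n + 1)) ^ (n + 1) := by
        rw [mul_pow, ← pow_mul, hζ2, pow_succ]; ring
      rw [h0, norm_a]
      gcongr
    have e2 : 2 ^ n - 1 ≤ ‖x.Y n‖ ^ 2 := by
      rw [← norm_pow, x.eq n]
      have : ‖a n x.z‖ ≤ ‖1 - a n x.z‖ + ‖(1 : ℂ)‖ := by
        calc ‖a n x.z‖ = ‖1 - (1 - a n x.z)‖ := by congr 1; ring
          _ ≤ ‖(1 : ℂ)‖ + ‖1 - a n x.z‖ := norm_sub_le _ _
          _ = _ := by ring
      rw [norm_one] at this
      linarith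
    have e3 : Real.sqrt (2 ^ n - 1) ≤ ‖x.Y n‖ := by
      rw [← Real.sqrt_sq (norm_nonneg (x.Y n))]
      exact Real.sqrt_le_sqrt e2
    have e4 : x.Y n ≠ 0 := by
      intro h0
      rw [h0, norm_zero] at e3
      linarith
    have e5 : ‖odd n f x‖ ≤ 2 * C := by
      calc ‖f x - f (tau n x)‖ ≤ ‖f x‖ + ‖f (tau n x)‖ := norm_sub_le _ _
        _ ≤ 2 * C := by linarith [hC x, hC (tau n x)]
    rw [quo, if_neg e4, norm_div]
    have hC0 : 0 ≤ 2 * C := (norm_nonneg _).trans e5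
    gcongr
  rcases le_total ‖ζ‖ ‖p.z‖ with h | h
  · exact key p h
  · exact max_principle' (mdiff_quo n hf) (norm_nonneg ζ) hζ1 (fun x hx => key x hx.symm.le) h

lemma quo_mul (n : ℕ) (f : Surf → ℂ) (x : Surf) : x.Y n * quo n f x = f x - f (tau n x) := by
  by_cases h : x.Y n = 0
  · rw [h, zero_mul, tau_fix h, sub_self]
  · rw [quo, if_neg h, mul_div_cancel₀ _ h]; rfl

lemma norm_a_lt {z : ℂ} (hz : ‖z‖ < 1 / 2) (n : ℕ) : ‖a n z‖ < 1 := by
  rw [norm_a]
  have h1 : 2 * ‖z‖ ^ (n + 1) < 1 := by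
    have : ‖z‖ ^ (n + 1) ≤ ‖z‖ := by
      calc ‖z‖ ^ (n + 1) = ‖z‖ ^ n * ‖z‖ := pow_succ _ _
        _ ≤ 1 * ‖z‖ := by
          gcongr
          exact pow_le_one₀ (norm_nonneg _) (by linarith)
        _ = ‖z‖ := one_mul _
    linarith
  exact pow_lt_one₀ (by positivity) h1 (by omega)

lemma re_pos {z : ℂ} (hz : ‖z‖ < 1 / 2) (n : ℕ) : 0 < (1 - a n z).re := by
  have h1 := (abs_le.1 (Complex.abs_re_le_norm (a n z))).2
  have h2 := norm_a_lt hz n
  simp only [sub_re, one_re]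
  linarith

lemma slit {z : ℂ} (hz : ‖z‖ < 1 / 2) (n : ℕ) : 1 - a n z ∈ slitPlane := by
  rw [mem_slitPlane_iff]; exact Or.inl (re_pos hz n)

lemma Y_re_ne {x : Surf} (hx : ‖x.z‖ < 1 / 2) (n : ℕ) : (x.Y n).re ≠ 0 := by
  intro h
  have h1 := re_pos hx n
  rw [← x.eq n, sq, mul_re, h] at h1
  nlinarith [sq_nonneg (x.Y n).im]

/-- the main sheet over `|z| < 1/2` -/
def S0 : Set Surf := {x | ‖x.z‖ < 1 / 2 ∧ ∀ n, 0 < (x.Y n).re}

lemma eq_sec {x : Surf} (hx : x ∈ S0) : x = sec ∅ x.z := by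
  apply Surf.ext
  · rw [sec_z _ x.hz]
  · rw [sec_Y _ x.hz]
    funext n
    rw [secY, sgn_eq_one (by simp), one_mul, ← x.eq n, sqrt_sq_of_re_pos (hx.2 n)]

lemma sec_mem {z : ℂ} (hz : ‖z‖ < 1 / 2) : sec ∅ z ∈ S0 := by
  have hz1 : ‖z‖ < 1 := by linarith
  refine ⟨by rw [sec_z _ hz1]; exact hz, fun n => ?_⟩
  rw [sec_Y _ hz1, secY, sgn_eq_one (by simp), one_mul]
  exact sqrt_re_pos (slit hz n)

lemma S0_open : IsOpen S0 := by
  rw [isOpen_iff_mem_nhds]
  intro x hx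
  have h1 : ∀ᶠ y in 𝓝 x, ‖y.z‖ < 1 / 2 :=
    (cont_z.continuousAt (x := x)).norm.eventually (gt_mem_nhds hx.1)
  have h2 : ∀ᶠ y in 𝓝 x, ∀ n, 0 < (y.Y n).re := by
    apply eventually_all_ge x (fun n y => 0 < (y.Y n).re)
    · intro n
      have hc : Continuous fun y : Surf => (y.Y n).re := Complex.continuous_re.comp (cont_Y n)
      exact hc.continuousAt.eventually (lt_mem_nhds (hx.2 n))
    · obtain ⟨m', hm'⟩ := eventually_tail x
      refine ⟨m', hm'.mono fun y hy n hn => ?_⟩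
      linarith [hy n hn]
  exact h1.and h2

/-- the other sheets -/
def Oth : Set Surf := {x | ‖x.z‖ < 1 / 2 ∧ ∃ n, (x.Y n).re < 0}

lemma Oth_open : IsOpen Oth := by
  have : Oth = {x : Surf | ‖x.z‖ < 1 / 2} ∩ ⋃ n, {x : Surf | (x.Y n).re < 0} := by
    ext x
    simp [Oth]
  rw [this]
  apply (isOpen_lt cont_z.norm continuous_const).inter
  apply isOpen_iUnion
  intro n
  exact isOpen_lt (Complex.continuous_re.comp (cont_Y n)) continuous_const

lemma cover {x : Surf} (hx : ‖x.z‖ < 1 / 2) : x ∈ S0 ∨ x ∈ Oth := by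
  by_cases h : ∀ n, 0 < (x.Y n).re
  · exact Or.inl ⟨hx, h⟩
  · right
    push Not at h
    obtain ⟨n, hn⟩ := h
    exact ⟨hx, n, lt_of_le_of_ne hn (Y_re_ne hx n)⟩

lemma S0_Oth {x : Surf} (h1 : x ∈ S0) (h2 : x ∈ Oth) : False := by
  obtain ⟨_, n, hn⟩ := h2
  have := h1.2 n
  linarith

lemma sec_cont : ContinuousOn (sec ∅) {z : ℂ | ‖z‖ < 1 / 2} := by
  intro z0 hz0
  have hz0' : ‖z0‖ < 1 / 2 := hz0
  apply ContinuousAt.continuousWithinAt
  have hmem : ∀ᶠ z : ℂ in 𝓝 z0, ‖z‖ < 1 / 2 := by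
    have : Tendsto (fun z : ℂ => ‖z‖) (𝓝 z0) (𝓝 ‖z0‖) := continuous_norm.tendsto z0
    exact this.eventually (gt_mem_nhds hz0')
  have hz01 : ‖z0‖ < 1 := by linarith
  apply tendsto_crit
  · rw [sec_z _ hz01]
    exact tendsto_id.congr' (hmem.mono fun z hz => (sec_z _ (by linarith)).symm)
  · intro n
    rw [sec_Y _ hz01]
    have h1 : ContinuousAt (fun z => secY ∅ z n) z0 := by
      unfold secY
      apply ContinuousAt.mul continuousAt_const
      have h2 : ContinuousAt (fun z => 1 - a n z) z0 := by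
        exact (continuous_const.sub (a_cont n)).continuousAt
      exact ContinuousAt.comp (f := fun z => 1 - a n z) (sqrt_diffAt (slit hz0' n)).continuousAt h2
    exact Tendsto.congr' (hmem.mono fun z hz => by simp only; rw [sec_Y _ (by linarith)]) h1
  · refine ⟨0, hmem.mono fun z hz n _ => ?_⟩
    exact ((sec_mem hz).2 n).le

/-- the curve -/
noncomputable def γ (t : Circle) : Surf := sec ∅ ((t : ℂ) / 4)

lemma norm_quarter (t : Circle) : ‖(t : ℂ) / 4‖ = 1 / 4 := by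
  rw [norm_div, Circle.norm_coe]; norm_num

lemma γ_cont : Continuous γ := by
  unfold γ
  apply sec_cont.comp_continuous (f := fun t : Circle => (t : ℂ) / 4)
  · exact (continuous_induced_dom : Continuous (fun t : Circle => (t : ℂ))).div_const 4
  · intro t
    show ‖(t : ℂ) / 4‖ < 1 / 2
    rw [norm_quarter]; norm_num

lemma γ_z (t : Circle) : (γ t).z = (t : ℂ) / 4 := sec_z _ (by rw [norm_quarter]; norm_num)

lemma γ_inj : Function.Injective γ := by
  intro s t h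
  have h1 := congrArg Surf.z h
  rw [γ_z, γ_z] at h1
  apply Circle.ext
  linear_combination 4 * h1

lemma γ_mem (t : Circle) : γ t ∈ S0 := sec_mem (by rw [norm_quarter]; norm_num)

lemma mem_range_γ {x : Surf} : x ∈ range γ ↔ x ∈ S0 ∧ ‖x.z‖ = 1 / 4 := by
  constructor
  · rintro ⟨t, rfl⟩
    exact ⟨γ_mem t, by rw [γ_z, norm_quarter]⟩
  · rintro ⟨h1, h2⟩
    refine ⟨⟨4 * x.z, ?_⟩, ?_⟩
    · show 4 * x.z ∈ Submonoid.unitSphere ℂ
      rw [Submonoid.unitSphere]
      simp [h2]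
    · unfold γ
      have : (((⟨4 * x.z, by
        show 4 * x.z ∈ Submonoid.unitSphere ℂ
        rw [Submonoid.unitSphere]
        simp [h2]⟩ : Circle) : ℂ)) / 4 = x.z := by
        show 4 * x.z / 4 = x.z
        ring
      rw [this, ← eq_sec h1]

/-- inside -/
def Inn : Set Surf := {x | x ∈ S0 ∧ ‖x.z‖ < 1 / 4}

/-- outside -/
def Out : Set Surf := {x | 1 / 4 < ‖x.z‖} ∪ Oth

lemma Inn_open : IsOpen Inn := S0_open.inter (isOpen_lt cont_z.norm continuous_const)

lemma Out_open : IsOpen Out := (isOpen_lt continuous_const cont_z.norm).union Oth_open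

lemma Inn_Out {x : Surf} (h1 : x ∈ Inn) (h2 : x ∈ Out) : False := by
  rcases h2 with h2 | h2
  · have : 1 / 4 < ‖x.z‖ := h2
    linarith [h1.2]
  · exact S0_Oth h1.1 h2

lemma compl_range : (range γ)ᶜ = Inn ∪ Out := by
  ext x
  rw [mem_compl_iff, mem_range_γ]
  constructor
  · intro h
    rcases lt_trichotomy ‖x.z‖ (1 / 4) with h1 | h1 | h1
    · rcases cover (x := x) (by linarith) with h2 | h2
      · exact Or.inl ⟨h2, h1⟩
      · exact Or.inr (Or.inr h2)
    · rcases cover (x := x) (by linarith) with h2 | h2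
      · exact absurd ⟨h2, h1⟩ h
      · exact Or.inr (Or.inr h2)
    · exact Or.inr (Or.inl h1)
  · rintro (h | h | h) ⟨h1, h2⟩
    · linarith [h.2]
    · have : 1 / 4 < ‖x.z‖ := h
      linarith
    · exact S0_Oth h1 h

lemma p0_mem : p0 ∈ Inn := by
  refine ⟨⟨by simp [p0], fun n => by simp [p0]⟩, by simp [p0]⟩

lemma tau_p0_mem (n : ℕ) : tau n p0 ∈ Out := by
  right
  refine ⟨by simp [tau, p0], n, ?_⟩
  rw [tau_Y_self]
  simp [p0]

lemma not_preconn : ¬ IsPreconnected (range γ)ᶜ := by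
  rw [compl_range]
  intro h
  have h1 := h Inn Out Inn_open Out_open subset_rfl ⟨p0, Or.inl p0_mem, p0_mem⟩
    ⟨tau 0 p0, Or.inr (tau_p0_mem 0), tau_p0_mem 0⟩
  obtain ⟨x, -, hx1, hx2⟩ := h1
  exact Inn_Out hx1 hx2

lemma Inn_preconn : IsPreconnected Inn := by
  have h1 : Inn = sec ∅ '' Metric.ball (0 : ℂ) (1 / 4) := by
    ext x
    constructor
    · intro hx
      exact ⟨x.z, by simpa using hx.2, (eq_sec hx.1).symm⟩
    · rintro ⟨z, hz, rfl⟩
      rw [mem_ball_zero_iff] at hz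
      refine ⟨sec_mem (by linarith), ?_⟩
      rw [sec_z _ (by linarith)]
      exact hz
  rw [h1]
  apply (convex_ball (0 : ℂ) (1 / 4)).isPreconnected.image
  apply sec_cont.mono
  intro z hz
  rw [mem_ball_zero_iff] at hz
  show ‖z‖ < 1 / 2
  linarith

/-- an annulus is connected -/
lemma annulus : IsPreconnected {z : ℂ | 1 / 4 < ‖z‖ ∧ ‖z‖ < 1 / 2} := by
  have h1 : {z : ℂ | 1 / 4 < ‖z‖ ∧ ‖z‖ < 1 / 2} =
      (fun p : ℝ × ℝ => (p.1 : ℂ) * exp (p.2 * I)) '' (Ioo (1 / 4) (1 / 2) ×ˢ univ) := by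
    ext z
    constructor
    · rintro ⟨h1, h2⟩
      refine ⟨(‖z‖, arg z), ⟨⟨h1, h2⟩, mem_univ _⟩, ?_⟩
      exact norm_mul_exp_arg_mul_I z
    · rintro ⟨⟨s, t⟩, ⟨⟨h1, h2⟩, -⟩, rfl⟩
      simp only [mem_ofPred_eq]
      rw [norm_mul, norm_exp_ofReal_mul_I, mul_one, Complex.norm_real, Real.norm_of_nonneg (by linarith)]
      exact ⟨h1, h2⟩
  rw [h1]
  apply (isPreconnected_Ioo.prod isPreconnected_univ).image
  fun_prop

lemma Out_preconn : IsPreconnected Out := by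
  rw [isPreconnected_iff_subset_of_disjoint]
  intro u v hu hv huv hd
  set N : Set Surf := {x | x ∈ S0 ∧ 1 / 4 < ‖x.z‖} with hN
  have hNO : N ⊆ Out := fun x hx => Or.inl hx.2
  have hNc : IsPreconnected N := by
    have h1 : N = sec ∅ '' {z : ℂ | 1 / 4 < ‖z‖ ∧ ‖z‖ < 1 / 2} := by
      ext x
      constructor
      · intro hx
        exact ⟨x.z, ⟨hx.2, hx.1.1⟩, (eq_sec hx.1).symm⟩
      · rintro ⟨z, ⟨hz1, hz2⟩, rfl⟩
        refine ⟨sec_mem hz2, ?_⟩
        rw [sec_z _ (by linarith)]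
        exact hz1
    rw [h1]
    apply annulus.image
    apply sec_cont.mono
    intro z hz
    exact hz.2
  have key : ∀ u v : Set Surf, IsOpen u → IsOpen v → Out ⊆ u ∪ v → Out ∩ (u ∩ v) = ∅ → N ⊆ u → Out ⊆ u := by
    intro u v hu hv huv hd hNu
    set W := Out ∩ v with hW
    have hWo : IsOpen W := Out_open.inter hv
    have hWc : Wᶜ = S0 ∪ (Out ∩ u) := by
      ext x
      constructor
      · intro hx
        by_cases h : x ∈ Out
        · right
          refine ⟨h, ?_⟩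
          rcases huv h with h1 | h1
          · exact h1
          · exact absurd ⟨h, h1⟩ hx
        · left
          by_contra h2
          apply h
          by_cases h3 : ‖x.z‖ < 1 / 2
          · rcases cover h3 with h4 | h4
            · exact absurd h4 h2
            · exact Or.inr h4
          · left
            push Not at h3
            show 1 / 4 < ‖x.z‖
            linarith
      · rintro (h | h) hW
        · have h1 : x ∈ N := by
            refine ⟨h, ?_⟩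
            rcases hW.1 with h2 | h2
            · exact h2
            · exact absurd h2 (fun h2 => S0_Oth h h2)
          have : x ∈ Out ∩ (u ∩ v) := ⟨hW.1, hNu h1, hW.2⟩
          rw [hd] at this
          exact this
        · have : x ∈ Out ∩ (u ∩ v) := ⟨hW.1, h.2, hW.2⟩
          rw [hd] at this
          exact this
    have hWcl : IsClosed W := by
      rw [← isOpen_compl_iff, hWc]
      exact S0_open.union (Out_open.inter hu)
    have hWe : W = ∅ := by
      rcases isClopen_iff.1 ⟨hWcl, hWo⟩ with h | h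
      · exact h
      · exfalso
        have h1 : p0 ∈ W := by rw [h]; trivial
        exact Inn_Out p0_mem h1.1
    intro x hx
    rcases huv hx with h | h
    · exact h
    · exfalso
      have : x ∈ W := ⟨hx, h⟩
      rw [hWe] at this
      exact this
  rcases isPreconnected_iff_subset_of_disjoint.1 hNc u v hu hv (hNO.trans huv) (by
    rw [eq_empty_iff_forall_notMem]
    rintro x ⟨h1, h2⟩
    have : x ∈ Out ∩ (u ∩ v) := ⟨hNO h1, h2⟩
    rw [hd] at this
    exact this) with h | h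
  · left; exact key u v hu hv huv hd h
  · right
    exact key v u hv hu (by rwa [union_comm]) (by rwa [inter_comm v u]) h

end Pool.Agent.H804R2.SC
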