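import Pool.Agent.H804R2.SC1
import Pool.Agent.Helper503.ShG

/-!
# The Banach algebra of bounded holomorphic functions
-/

set_option autoImplicit false

open Filter Topology Complex Set
open scoped Manifold BoundedContinuousFunction

namespace Pool.Agent.H804R2.SC

open Pool.Agent.H765R2.RS

/-- division by `z - λ` -/
noncomputable def dv (l : ℂ) (f : Surf → ℂ) (x : Surf) : ℂ :=
  open Classical in
  if x.z = l then
    deriv (f ∘ (chartAt ℂ x).symm) (chartAt ℂ x x) / deriv (fun w => ((chartAt ℂ x).symm w).z) (chartAt ℂ x x)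
  else f x / (x.z - l)

lemma deriv_z_ne {x : Surf} (hx : ‖x.z‖ < 1 / 2) :
    deriv (fun w => ((chartAt ℂ x).symm w).z) (chartAt ℂ x x) ≠ 0 := by
  intro h0
  set e := chartAt ℂ x with he
  obtain ⟨⟨i, hi⟩, h2⟩ := good_of_mem (chart_mem_atlas ℂ x)
  have hmem : e.target ∈ 𝓝 (e x) := e.open_target.mem_nhds (mem_chart_target ℂ x)
  have hZ : HasDerivAt (fun w => (e.symm w).z) 0 (e x) := by
    rw [← h0]
    exact ((h2 none).differentiableAt hmem).hasDerivAt
  have hex : e.symm (e x) = x := e.left_inv (mem_chart_source ℂ x)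
  cases i with
  | none =>
    have h3 : (fun w => (e.symm w).z) =ᶠ[𝓝 (e x)] id := by
      filter_upwards [hmem] with w hw
      have := e.right_inv hw
      rw [hi] at this
      exact this
    have h4 := (hasDerivAt_id (e x)).congr_of_eventuallyEq h3
    exact zero_ne_one (hZ.unique h4)
  | some n =>
    have h3 : (fun w : ℂ => w ^ 2) =ᶠ[𝓝 (e x)] fun w => 1 - a n (e.symm w).z := by
      filter_upwards [hmem] with w hw
      have h5 := e.right_inv hw
      rw [hi] at h5
      rw [← (e.symm w).eq n]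
      congr 1
      exact h5.symm
    have h4 : HasDerivAt (fun w => 1 - a n (e.symm w).z) 0 (e x) := by
      have h5 : HasDerivAt (a n) (deriv (a n) ((e.symm (e x)).z)) ((fun w => (e.symm w).z) (e x)) :=
        ((a_diff n) _).hasDerivAt
      have h6 := (h5.comp (e x) hZ).const_sub 1
      simpa using h6
    have h5 := h4.congr_of_eventuallyEq h3
    have h6 : HasDerivAt (fun w : ℂ => w ^ 2) (2 * e x) (e x) := by
      simpa using hasDerivAt_pow 2 (e x)
    have h7 := h6.unique h5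
    have h8 : e x = 0 := by simpa using h7
    rw [hi] at h8
    have h9 : x.Y n = 0 := h8
    apply Y_re_ne hx n
    rw [h9]; rfl

lemma mdiff_dv {l : ℂ} (hl : ‖l‖ < 1 / 2) {f : Surf → ℂ} (hf : MDifferentiable 𝓘(ℂ) 𝓘(ℂ) f)
    (h0 : ∀ x : Surf, x.z = l → f x = 0) : MDifferentiable 𝓘(ℂ) 𝓘(ℂ) (dv l f) := by
  intro x
  apply mdiffAt_of
  set e := chartAt ℂ x with he
  have hF : DifferentiableOn ℂ (f ∘ e.symm) e.target := mdiff_iff.1 hf x
  have hZ : DifferentiableOn ℂ (fun w => (e.symm w).z) e.target :=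
    (good_of_mem (chart_mem_atlas ℂ x)).2 none
  have hmem : e.target ∈ 𝓝 (e x) := e.open_target.mem_nhds (mem_chart_target ℂ x)
  have hex : e.symm (e x) = x := e.left_inv (mem_chart_source ℂ x)
  by_cases h : x.z = l
  · have hx2 : ‖x.z‖ < 1 / 2 := by rw [h]; exact hl
    have hdz := deriv_z_ne hx2
    set w0 := e x with hw0
    have h1 : DifferentiableOn ℂ (dslope (f ∘ e.symm) w0) e.target :=
      (Complex.differentiableOn_dslope hmem).2 hF
    have h2 : DifferentiableOn ℂ (dslope (fun w => (e.symm w).z) w0) e.target :=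
      (Complex.differentiableOn_dslope hmem).2 hZ
    have hne : dslope (fun w => (e.symm w).z) w0 w0 ≠ 0 := by
      rw [dslope_same]; exact hdz
    have hev : ∀ᶠ w in 𝓝 w0, dslope (fun w => (e.symm w).z) w0 w ≠ 0 :=
      (h2.differentiableAt hmem).continuousAt.eventually_ne hne
    have h3 : DifferentiableAt ℂ (fun w => dslope (f ∘ e.symm) w0 w / dslope (fun w => (e.symm w).z) w0 w) w0 :=
      (h1.differentiableAt hmem).div (h2.differentiableAt hmem) hne
    apply h3.congr_of_eventuallyEq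
    filter_upwards [hev, hmem] with w hw hw2
    by_cases hww : w = w0
    · rw [hww, dslope_same, dslope_same, Function.comp, hex, dv, if_pos h]
    · have e1 : (e.symm w0).z = l := by rw [hex]; exact h
      have e2 : (f ∘ e.symm) w0 = 0 := by rw [Function.comp, hex]; exact h0 x h
      rw [dslope_of_ne _ hww, slope_def_field, e1] at hw
      rw [dslope_of_ne _ hww, dslope_of_ne _ hww, slope_def_field, slope_def_field, e1, e2, sub_zero]
      have e3 : w - w0 ≠ 0 := sub_ne_zero.2 hww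
      have e4 : (e.symm w).z - l ≠ 0 := by
        intro h5
        rw [h5, zero_div] at hw
        exact hw rfl
      rw [Function.comp, dv, if_neg (sub_ne_zero.1 e4), Function.comp]
      field_simp
  · have hne : ((e.symm (e x)).z - l) ≠ 0 := by rw [hex]; exact sub_ne_zero.2 h
    have h1 : DifferentiableAt ℂ (fun w => (f ∘ e.symm) w / ((e.symm w).z - l)) (e x) :=
      (hF.differentiableAt hmem).div ((hZ.differentiableAt hmem).sub_const l) hne
    apply h1.congr_of_eventuallyEq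
    have h2 : ∀ᶠ w in 𝓝 (e x), (e.symm w).z - l ≠ 0 :=
      ((hZ.differentiableAt hmem).sub_const l).continuousAt.eventually_ne hne
    filter_upwards [h2] with w hw
    rw [Function.comp, dv, if_neg (sub_ne_zero.1 hw)]
    rfl

lemma dv_bound {l : ℂ} (hl : ‖l‖ < 1 / 2) {f : Surf → ℂ} (hf : MDifferentiable 𝓘(ℂ) 𝓘(ℂ) f)
    (h0 : ∀ x : Surf, x.z = l → f x = 0) {C : ℝ} (hC : ∀ x, ‖f x‖ ≤ C) (p : Surf) :
    ‖dv l f p‖ ≤ 4 * C := by
  have hC0 : 0 ≤ C := (norm_nonneg _).trans (hC p)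
  have key : ∀ x : Surf, 3 / 4 ≤ ‖x.z‖ → ‖dv l f x‖ ≤ 4 * C := by
    intro x hx
    have h1 : 1 / 4 ≤ ‖x.z - l‖ := by
      have := norm_sub_norm_le x.z l
      linarith
    have h2 : x.z ≠ l := by
      intro h
      rw [h, sub_self, norm_zero] at h1
      linarith
    rw [dv, if_neg h2, norm_div, div_le_iff₀ (by linarith)]
    nlinarith [hC x]
  rcases le_total (3 / 4) ‖p.z‖ with h | h
  · exact key p h
  · exact max_principle' (mdiff_dv hl hf h0) (by norm_num) (by norm_num) (fun x hx => key x hx.symm.le) h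

lemma dv_mul {l : ℂ} {f : Surf → ℂ} (h0 : ∀ x : Surf, x.z = l → f x = 0) (x : Surf) :
    (x.z - l) * dv l f x = f x := by
  by_cases h : x.z = l
  · rw [h0 x h, h, sub_self, zero_mul]
  · rw [dv, if_neg h, mul_div_cancel₀ _ (sub_ne_zero.2 h)]

/-- The algebra of bounded holomorphic functions. -/
noncomputable def AA : Subalgebra ℂ (Surf →ᵇ ℂ) where
  carrier := {f | MDifferentiable 𝓘(ℂ) 𝓘(ℂ) (f : Surf → ℂ)}
  mul_mem' := by
    intro f g hf hg
    rw [mem_ofPred_eq, mdiff_iff] at *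
    intro x
    exact (hf x).mul (hg x)
  add_mem' := by
    intro f g hf hg
    rw [mem_ofPred_eq, mdiff_iff] at *
    intro x
    exact (hf x).add (hg x)
  algebraMap_mem' := by
    intro c
    rw [mem_ofPred_eq, mdiff_iff]
    intro x
    exact differentiableOn_const c

lemma mem_AA {f : Surf →ᵇ ℂ} : f ∈ AA ↔ MDifferentiable 𝓘(ℂ) 𝓘(ℂ) (f : Surf → ℂ) := Iff.rfl

lemma AA_closed : IsClosed (AA : Set (Surf →ᵇ ℂ)) := by
  apply isClosed_of_closure_subset
  intro f hf
  obtain ⟨u, hu, hlim⟩ := mem_closure_iff_seq_limit.1 hf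
  show f ∈ AA
  rw [mem_AA, mdiff_iff]
  intro x
  have h1 : TendstoUniformly (fun n => (u n : Surf → ℂ)) f atTop :=
    BoundedContinuousFunction.tendsto_iff_tendstoUniformly.1 hlim
  have h2 : TendstoUniformlyOn (fun n w => (u n) ((chartAt ℂ x).symm w))
      (fun w => f ((chartAt ℂ x).symm w)) atTop (chartAt ℂ x).target :=
    (h1.comp (chartAt ℂ x).symm).tendstoUniformlyOn
  exact h2.tendstoLocallyUniformlyOn.differentiableOn
    (Eventually.of_forall fun n => mdiff_iff.1 (hu n) x) (chartAt ℂ x).open_target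

instance : CompleteSpace AA := AA_closed.completeSpace_coe

/-- make an element of the algebra -/
noncomputable def mkA (f : Surf → ℂ) (hf : MDifferentiable 𝓘(ℂ) 𝓘(ℂ) f) (C : ℝ) (hC : ∀ x, ‖f x‖ ≤ C) : AA :=
  ⟨BoundedContinuousFunction.ofNormedAddCommGroup f hf.continuous C hC, hf⟩

lemma mkA_apply (f : Surf → ℂ) (hf : MDifferentiable 𝓘(ℂ) 𝓘(ℂ) f) (C : ℝ) (hC : ∀ x, ‖f x‖ ≤ C) (x : Surf) :
    (mkA f hf C hC).1 x = f x := rfl

lemma AA_mdiff (f : AA) : MDifferentiable 𝓘(ℂ) 𝓘(ℂ) (f.1 : Surf → ℂ) := f.2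

lemma AA_bd (f : AA) (x : Surf) : ‖f.1 x‖ ≤ ‖f‖ := f.1.norm_coe_le_norm x

lemma mkA_norm (f : Surf → ℂ) (hf : MDifferentiable 𝓘(ℂ) 𝓘(ℂ) f) {C : ℝ} (hC0 : 0 ≤ C) (hC : ∀ x, ‖f x‖ ≤ C) :
    ‖mkA f hf C hC‖ ≤ C :=
  BoundedContinuousFunction.norm_ofNormedAddCommGroup_le hf.continuous hC0 hC

lemma AA_ext {f g : AA} (h : ∀ x, f.1 x = g.1 x) : f = g :=
  Subtype.ext (BoundedContinuousFunction.ext h)

/-- coordinate -/
noncomputable def Zc : AA := mkA Surf.z (mdiff_coord none) 1 (fun x => x.hz.le)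

/-- square roots -/
noncomputable def Yc (n : ℕ) : AA := mkA (fun x => x.Y n) (mdiff_coord (some n)) (1 + 2 ^ (n + 1))
  (fun x => norm_Y_le x n)

/-- evaluation as an algebra homomorphism -/
noncomputable def evA (p : Surf) : AA →ₐ[ℂ] ℂ where
  toFun f := f.1 p
  map_one' := rfl
  map_mul' _ _ := rfl
  map_zero' := rfl
  map_add' _ _ := rfl
  commutes' _ := rfl

/-- deck transformation -/
noncomputable def tauA (n : ℕ) : AA →ₐ[ℂ] AA where
  toFun f := mkA (fun x => f.1 (tau n x)) ((AA_mdiff f).comp (mdiff_tau n)) ‖f‖ (fun x => AA_bd f _)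
  map_one' := AA_ext fun _ => rfl
  map_mul' _ _ := AA_ext fun _ => rfl
  map_zero' := AA_ext fun _ => rfl
  map_add' _ _ := AA_ext fun _ => rfl
  commutes' _ := AA_ext fun _ => rfl

lemma tauA_Z (n : ℕ) : tauA n Zc = Zc := AA_ext fun _ => rfl

lemma tauA_Y (n : ℕ) : tauA n (Yc n) = -Yc n := AA_ext fun x => tau_Y_self n x

open WeakDual

/-- the spectrum -/
abbrev MM := characterSpace ℂ AA

noncomputable def toMM (φ : AA →ₐ[ℂ] ℂ) : MM := CharacterSpace.equivAlgHom.symm φ

lemma toMM_apply (φ : AA →ₐ[ℂ] ℂ) (f : AA) : toMM φ f = φ f := rfl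

noncomputable def ev (p : Surf) : MM := toMM (evA p)

lemma ev_apply (p : Surf) (f : AA) : ev p f = f.1 p := rfl

noncomputable def TT (n : ℕ) (χ : MM) : MM := toMM ((CharacterSpace.toAlgHom χ).comp (tauA n))

lemma TT_apply (n : ℕ) (χ : MM) (f : AA) : TT n χ f = χ (tauA n f) := rfl

lemma tendsto_MM {T : Type*} {l : Filter T} {G : T → MM} {χ : MM} :
    Tendsto G l (𝓝 χ) ↔ ∀ f : AA, Tendsto (fun t => G t f) l (𝓝 (χ f)) := by
  rw [nhds_subtype_eq_comap, tendsto_comap_iff]
  exact tendsto_iff_forall_eval_tendsto_topDualPairing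

lemma ev_cont : Continuous ev := by
  rw [continuous_iff_continuousAt]
  intro p
  rw [ContinuousAt, tendsto_MM]
  intro f
  exact f.1.continuous.continuousAt

instance : Nonempty Surf := ⟨p0⟩

instance : NormOneClass AA := ⟨by
  have h : ‖(1 : AA)‖ = ‖(1 : Surf →ᵇ ℂ)‖ := rfl
  rw [h, norm_one]⟩

lemma norm_char_le (χ : MM) (f : AA) : ‖χ f‖ ≤ ‖f‖ := AlgHom.norm_apply_le_self χ f

end Pool.Agent.H804R2.SC
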