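import Pool.Agent.H804R2.SC2

/-!
# The complement of the curve in the spectrum is connected
-/

set_option autoImplicit false

open Filter Topology Complex Set
open scoped Manifold BoundedContinuousFunction

namespace Pool.Agent.H804R2.SC

open Pool.Agent.H765R2.RS WeakDual
open Pool.Agent.Helper503.Shilov (hull shilov eval_cont)

lemma Y_sq (n : ℕ) : Yc n ^ 2 = 1 - ((2 : ℂ) • Zc ^ (n + 1)) ^ (n + 1) := by
  apply AA_ext
  intro x
  have := x.eq n
  unfold a at this
  exact this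

lemma char_Y_sq (χ : MM) (n : ℕ) : (χ (Yc n)) ^ 2 = 1 - a n (χ Zc) := by
  have h := congrArg χ (Y_sq n)
  rw [map_pow, map_sub, map_one, map_pow, map_smul, map_pow, smul_eq_mul] at h
  exact h

lemma char_tau_sub (χ : MM) (n : ℕ) (hn : 1 ≤ n) (hz : ‖χ Zc‖ < 1 / 2) (f : AA) :
    ‖TT n χ f - χ f‖ ≤ 2 * (2 * ‖f‖ / Real.sqrt (2 ^ n - 1)) := by
  set C : ℝ := 2 * ‖f‖ / Real.sqrt (2 ^ n - 1) with hC
  have hC0 : 0 ≤ C := by positivity
  set Q : AA := mkA (quo n f.1) (mdiff_quo n (AA_mdiff f)) C (quo_bound (AA_mdiff f) (AA_bd f) hn) with hQ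
  have hQn : ‖Q‖ ≤ C := mkA_norm _ _ hC0 _
  have e1 : f - tauA n f = Yc n * Q := by
    apply AA_ext
    intro x
    exact (quo_mul n f.1 x).symm
  have e2 : TT n χ f - χ f = -(χ (Yc n) * χ Q) := by
    rw [TT_apply, ← map_mul, ← e1, map_sub]; ring
  rw [e2, norm_neg, norm_mul]
  have h1 : ‖χ (Yc n)‖ ≤ 2 := by
    have h2 : ‖χ (Yc n)‖ ^ 2 ≤ 2 := by
      rw [← norm_pow, char_Y_sq]
      calc ‖1 - a n (χ Zc)‖ ≤ ‖(1 : ℂ)‖ + ‖a n (χ Zc)‖ := norm_sub_le _ _
        _ ≤ 1 + 1 := by rw [norm_one]; linarith [norm_a_lt hz n]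
        _ = 2 := by norm_num
    by_contra h
    push Not at h
    nlinarith
  have h2 : ‖χ Q‖ ≤ C := (norm_char_le χ Q).trans hQn
  exact mul_le_mul h1 h2 (norm_nonneg _) (by norm_num)

lemma TT_tendsto (χ : MM) (hz : ‖χ Zc‖ < 1 / 2) : Tendsto (fun n => TT n χ) atTop (𝓝 χ) := by
  rw [tendsto_MM]
  intro f
  rw [tendsto_iff_norm_sub_tendsto_zero]
  have h1 : Tendsto (fun n : ℕ => 2 * (2 * ‖f‖ / Real.sqrt (2 ^ n - 1))) atTop (𝓝 (2 * 0)) := by
    apply Tendsto.const_mul
    apply Tendsto.const_div_atTop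
    apply Real.tendsto_sqrt_atTop.comp
    apply tendsto_atTop_add_const_right
    exact tendsto_pow_atTop_atTop_of_one_lt (by norm_num)
  rw [mul_zero] at h1
  apply squeeze_zero' (Eventually.of_forall fun n => norm_nonneg _) _ h1
  filter_upwards [eventually_ge_atTop 1] with n hn
  exact char_tau_sub χ n hn hz f

/-- the curve in the spectrum -/
def GG : Set MM := range fun t : Circle => ev (γ t)

lemma GG_closed : IsClosed GG := (isCompact_range (ev_cont.comp γ_cont)).isClosed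

lemma hull_closed (I : Ideal AA) : IsClosed (hull I) := by
  have : hull I = ⋂ x ∈ I, {χ : MM | χ x = 0} := by
    ext χ
    simp [hull]
  rw [this]
  apply isClosed_biInter
  intro x _
  exact isClosed_eq (eval_cont x) continuous_const

lemma ev_inj : Function.Injective ev := by
  intro p q h
  apply Surf.ext
  · have := congrArg (fun χ : MM => χ Zc) h
    exact this
  · funext n
    have := congrArg (fun χ : MM => χ (Yc n)) h
    exact this

section Core

variable {B : Set MM} (hBo : IsOpen B) (hBc : IsClosed (B ∪ GG)) (hBe : ∀ p, ev p ∉ B)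

include hBo hBc hBe

lemma core1 {l : ℂ} (hl : ‖l‖ < 1 / 2) (n : ℕ) {χ : MM} (hχ : χ ∈ B) (h1 : χ Zc = l)
    (h2 : χ (Yc n) = -Complex.sqrt (1 - a n l)) : False := by
  set c : ℂ := Complex.sqrt (1 - a n l) with hc
  have hc2 : c ^ 2 = 1 - a n l := sqrt_sq' _
  have hcre : 0 < c.re := sqrt_re_pos (slit hl n)
  have hc0 : c ≠ 0 := by
    intro h; rw [h] at hcre; simp at hcre
  set I : Ideal AA := Ideal.span {Zc - algebraMap ℂ AA l, Yc n + algebraMap ℂ AA c} with hI
  have hhull : ∀ ψ : MM, ψ ∈ hull I ↔ ψ Zc = l ∧ ψ (Yc n) = -c := by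
    intro ψ
    constructor
    · intro h
      have e1 := h (Zc - algebraMap ℂ AA l) (Ideal.subset_span (by simp))
      have e2 := h (Yc n + algebraMap ℂ AA c) (Ideal.subset_span (by simp))
      rw [map_sub, AlgHomClass.commutes] at e1
      rw [map_add, AlgHomClass.commutes] at e2
      exact ⟨sub_eq_zero.1 e1, eq_neg_of_add_eq_zero_left e2⟩
    · rintro ⟨e1, e2⟩ x hx
      rw [hI, Ideal.mem_span_pair] at hx
      obtain ⟨u, v, rfl⟩ := hx
      rw [map_add, map_mul, map_mul, map_sub, map_add, AlgHomClass.commutes, AlgHomClass.commutes, e1, e2]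
      simp
  set V : Set MM := B ∩ hull I with hV
  have hVc : IsClosed V := by
    have : V = (B ∪ GG) ∩ hull I := by
      ext ψ
      constructor
      · rintro ⟨h, h'⟩; exact ⟨Or.inl h, h'⟩
      · rintro ⟨h | h, h'⟩
        · exact ⟨h, h'⟩
        · exfalso
          obtain ⟨t, rfl⟩ := h
          have h3 := ((hhull _).1 h').2
          rw [ev_apply] at h3
          have h4 : (γ t).Y n = -c := h3
          have h5 := (γ_mem t).2 n
          rw [h4, neg_re] at h5
          linarith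
    rw [this]
    exact hBc.inter (hull_closed I)
  have hUc : IsClosed (hull I \ V) := by
    have : hull I \ V = hull I ∩ Bᶜ := by
      ext ψ
      constructor
      · rintro ⟨h, h'⟩; exact ⟨h, fun h3 => h' ⟨h3, h⟩⟩
      · rintro ⟨h, h'⟩; exact ⟨h, fun h3 => h' h3.1⟩
    rw [this]
    exact (hull_closed I).inter hBo.isClosed_compl
  obtain ⟨k, hk1, hk0⟩ := shilov I V inter_subset_right hVc hUc
  set f : AA := k * (Yc n - algebraMap ℂ AA c) with hf
  have hf0 : ∀ p : Surf, p.z = l → f.1 p = 0 := by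
    intro p hp
    have e1 : f.1 p = k.1 p * (p.Y n - c) := rfl
    rw [e1]
    have e2 : p.Y n ^ 2 = c ^ 2 := by rw [p.eq n, hp, hc2]
    rcases sq_eq_sq_iff_eq_or_eq_neg.1 e2 with h | h
    · rw [h, sub_self, mul_zero]
    · have h3 : ev p ∈ hull I \ V := ⟨(hhull _).2 ⟨hp, h⟩, fun h4 => hBe p h4.1⟩
      have h4 := hk0 _ h3
      rw [ev_apply] at h4
      rw [h4, zero_mul]
  set g : AA := mkA (dv l f.1) (mdiff_dv hl (AA_mdiff f) hf0) (4 * ‖f‖)
    (dv_bound hl (AA_mdiff f) hf0 (AA_bd f)) with hg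
  have hfg : f = (Zc - algebraMap ℂ AA l) * g := by
    apply AA_ext
    intro x
    exact (dv_mul hf0 x).symm
  have hχh : χ ∈ hull I := (hhull χ).2 ⟨h1, h2⟩
  have e3 : χ f = 0 := by
    rw [hfg, map_mul, map_sub, AlgHomClass.commutes, h1]
    simp
  rw [hf, map_mul, map_sub, AlgHomClass.commutes, hk1 χ ⟨hχ, hχh⟩, h2, one_mul] at e3
  have e4 : c = 0 := by
    have : -c - c = 0 := e3
    linear_combination (-1 / 2 : ℂ) * this
  exact hc0 e4

lemma core2 {χ : MM} (hχ : χ ∈ B) : 1 / 2 ≤ ‖χ Zc‖ := by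
  by_contra hcon
  push Not at hcon
  obtain ⟨n, hn⟩ := ((TT_tendsto χ hcon).eventually (hBo.mem_nhds hχ)).exists
  have h1 : (χ (Yc n)) ^ 2 = (Complex.sqrt (1 - a n (χ Zc))) ^ 2 := by rw [char_Y_sq, sqrt_sq']
  rcases sq_eq_sq_iff_eq_or_eq_neg.1 h1 with h | h
  · apply core1 hBo hBc hBe hcon n hn
    · rw [TT_apply, tauA_Z]
    · rw [TT_apply, tauA_Y, map_neg, h]
  · exact core1 hBo hBc hBe hcon n hχ rfl h

lemma core3 : B = ∅ := by
  have hBc2 : IsClosed B := by
    have : B = (B ∪ GG) ∩ {χ : MM | 1 / 2 ≤ ‖χ Zc‖} := by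
      ext χ
      constructor
      · intro h; exact ⟨Or.inl h, core2 hBo hBc hBe h⟩
      · rintro ⟨h | h, h'⟩
        · exact h
        · exfalso
          obtain ⟨t, rfl⟩ := h
          have h3 : 1 / 2 ≤ ‖(γ t).z‖ := h'
          rw [γ_z, norm_quarter] at h3
          norm_num at h3
    rw [this]
    exact hBc.inter (isClosed_le continuous_const (eval_cont Zc).norm)
  have hhull : hull (⊥ : Ideal AA) = univ := by
    rw [eq_univ_iff_forall]
    intro χ x hx
    rw [Ideal.mem_bot.1 hx, map_zero]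
  obtain ⟨k, hk1, hk0⟩ := shilov (⊥ : Ideal AA) B (by rw [hhull]; exact subset_univ _) hBc2 (by
    rw [hhull, ← compl_eq_univ_sdiff]; exact hBo.isClosed_compl)
  rw [hhull, ← compl_eq_univ_sdiff] at hk0
  have hk : k = 0 := by
    apply AA_ext
    intro p
    exact hk0 (ev p) (hBe p)
  rw [eq_empty_iff_forall_notMem]
  intro χ hχ
  have := hk1 χ hχ
  rw [hk, map_zero] at this
  exact zero_ne_one this

end Core

lemma ev_mem_GG {p : Surf} : ev p ∈ GG ↔ p ∈ range γ := by
  constructor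
  · rintro ⟨t, ht⟩
    exact ⟨t, ev_inj ht⟩
  · rintro ⟨t, rfl⟩
    exact ⟨t, rfl⟩

lemma TT_ev (n : ℕ) (p : Surf) : TT n (ev p) = ev (tau n p) := by
  apply CharacterSpace.ext
  intro f
  rfl

lemma step {u v : Set MM} (hu : IsOpen u) (hv : IsOpen v) (huv : GGᶜ ⊆ u ∪ v)
    (hd : GGᶜ ∩ (u ∩ v) = ∅) (hI : ev '' Inn ⊆ u) : GGᶜ ∩ v = ∅ := by
  have hO : ev '' Out ⊆ GGᶜ := by
    rintro _ ⟨p, hp, rfl⟩ h
    have h1 : p ∈ (range γ)ᶜ := by rw [compl_range]; exact Or.inr hp
    exact h1 (ev_mem_GG.1 h)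
  have hOc : IsPreconnected (ev '' Out) := Out_preconn.image _ ev_cont.continuousOn
  have hOu : ev '' Out ⊆ u := by
    rcases isPreconnected_iff_subset_of_disjoint.1 hOc u v hu hv (hO.trans huv) (by
      rw [eq_empty_iff_forall_notMem]
      rintro x ⟨h1, h2⟩
      have : x ∈ GGᶜ ∩ (u ∩ v) := ⟨hO h1, h2⟩
      rw [hd] at this
      exact this) with h | h
    · exact h
    · exfalso
      have h1 : ev p0 ∈ u := hI ⟨p0, p0_mem, rfl⟩
      have h2 : Tendsto (fun n => TT n (ev p0)) atTop (𝓝 (ev p0)) := by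
        apply TT_tendsto
        show ‖p0.z‖ < 1 / 2
        simp [p0]
      obtain ⟨n, hn⟩ := (h2.eventually (hu.mem_nhds h1)).exists
      rw [TT_ev] at hn
      have h3 : ev (tau n p0) ∈ ev '' Out := ⟨_, tau_p0_mem n, rfl⟩
      have : ev (tau n p0) ∈ GGᶜ ∩ (u ∩ v) := ⟨hO h3, hn, h h3⟩
      rw [hd] at this
      exact this
  apply core3 (GG_closed.isOpen_compl.inter hv)
  · have : GGᶜ ∩ v ∪ GG = (GGᶜ ∩ u)ᶜ := by
      ext χ
      constructor
      · rintro (h | h) h2
        · have : χ ∈ GGᶜ ∩ (u ∩ v) := ⟨h.1, h2.2, h.2⟩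
          rw [hd] at this
          exact this
        · exact h2.1 h
      · intro h
        by_cases hG : χ ∈ GG
        · exact Or.inr hG
        · left
          refine ⟨hG, ?_⟩
          rcases huv hG with h1 | h1
          · exact absurd ⟨hG, h1⟩ h
          · exact h1
    rw [this]
    exact (GG_closed.isOpen_compl.inter hu).isClosed_compl
  · intro p hp
    by_cases h : p ∈ range γ
    · exact hp.1 (ev_mem_GG.2 h)
    · have h1 : p ∈ Inn ∪ Out := by rw [← compl_range]; exact h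
      have h2 : ev p ∈ u := by
        rcases h1 with h1 | h1
        · exact hI ⟨p, h1, rfl⟩
        · exact hOu ⟨p, h1, rfl⟩
      have : ev p ∈ GGᶜ ∩ (u ∩ v) := ⟨hp.1, h2, hp.2⟩
      rw [hd] at this
      exact this

theorem GG_compl_preconn : IsPreconnected (GGᶜ : Set MM) := by
  rw [isPreconnected_iff_subset_of_disjoint]
  intro u v hu hv huv hd
  have hI : ev '' Inn ⊆ GGᶜ := by
    rintro _ ⟨p, hp, rfl⟩ h
    have h1 : p ∈ (range γ)ᶜ := by rw [compl_range]; exact Or.inl hp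
    exact h1 (ev_mem_GG.1 h)
  have hIc : IsPreconnected (ev '' Inn) := Inn_preconn.image _ ev_cont.continuousOn
  rcases isPreconnected_iff_subset_of_disjoint.1 hIc u v hu hv (hI.trans huv) (by
    rw [eq_empty_iff_forall_notMem]
    rintro x ⟨h1, h2⟩
    have : x ∈ GGᶜ ∩ (u ∩ v) := ⟨hI h1, h2⟩
    rw [hd] at this
    exact this) with h | h
  · left
    have h1 := step hu hv huv hd h
    intro χ hχ
    rcases huv hχ with h2 | h2
    · exact h2
    · exfalso
      have : χ ∈ GGᶜ ∩ v := ⟨hχ, h2⟩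
      rw [h1] at this
      exact this
  · right
    have h1 := step hv hu (by rwa [union_comm]) (by rwa [inter_comm v u]) h
    intro χ hχ
    rcases huv hχ with h2 | h2
    · exfalso
      have : χ ∈ GGᶜ ∩ u := ⟨hχ, h2⟩
      rw [h1] at this
      exact this
    · exact h2

/-! ### transfer -/

abbrev HH := {f : Surf → ℂ // MDifferentiable 𝓘(ℂ) 𝓘(ℂ) f ∧ ∃ C : ℝ, ∀ x, ‖f x‖ ≤ C}

noncomputable def toA (f : HH) : AA := mkA f.1 f.2.1 (Classical.choose f.2.2) (Classical.choose_spec f.2.2)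

lemma toA_apply (f : HH) (x : Surf) : (toA f).1 x = f.1 x := rfl

noncomputable def ofA (g : AA) : HH := ⟨g.1, AA_mdiff g, ‖g‖, AA_bd g⟩

lemma toA_ofA (g : AA) : toA (ofA g) = g := AA_ext fun _ => rfl

noncomputable def Th (χ : MM) : HH → ℂ := fun f => χ (toA f)

lemma Th_cont : Continuous Th := continuous_pi fun f => eval_cont (toA f)

/-- the characters, as in the frozen statement -/
def Ch : Set (HH → ℂ) := {φ : HH → ℂ |
              (∀ u : HH, u.1 = (fun _ => (1 : ℂ)) → φ u = 1) ∧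
              (∀ f g h : HH, h.1 = f.1 + g.1 → φ h = φ f + φ g) ∧
              (∀ f g h : HH, h.1 = f.1 * g.1 → φ h = φ f * φ g) ∧
              (∀ (c : ℂ) (f h : HH), h.1 = c • f.1 → φ h = c * φ f)}

lemma Th_mem (χ : MM) : Th χ ∈ Ch := by
  refine ⟨?_, ?_, ?_, ?_⟩
  · intro u hu
    have : toA u = 1 := AA_ext fun x => by rw [toA_apply, hu]; rfl
    show χ (toA u) = 1
    rw [this, map_one]
  · intro f g h hfg
    have : toA h = toA f + toA g := AA_ext fun x => by rw [toA_apply, hfg]; rfl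
    show χ (toA h) = χ (toA f) + χ (toA g)
    rw [this, map_add]
  · intro f g h hfg
    have : toA h = toA f * toA g := AA_ext fun x => by rw [toA_apply, hfg]; rfl
    show χ (toA h) = χ (toA f) * χ (toA g)
    rw [this, map_mul]
  · intro c f h hfg
    have : toA h = c • toA f := AA_ext fun x => by rw [toA_apply, hfg]; rfl
    show χ (toA h) = c * χ (toA f)
    rw [this, map_smul, smul_eq_mul]

lemma exists_char {φ : HH → ℂ} (hφ : φ ∈ Ch) : ∃ χ : MM, Th χ = φ := by
  obtain ⟨h1, h2, h3, h4⟩ := hφ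
  have hof : ∀ f : HH, ofA (toA f) = f := fun f => Subtype.ext rfl
  have hzero : φ (ofA 0) = 0 := by
    have := h4 0 (ofA 0) (ofA 0) (by funext x; simp [ofA])
    rw [this, zero_mul]
  let Φ : AA →ₐ[ℂ] ℂ :=
    { toFun := fun g => φ (ofA g)
      map_one' := h1 _ rfl
      map_mul' := fun f g => h3 _ _ _ rfl
      map_zero' := hzero
      map_add' := fun f g => h2 _ _ _ rfl
      commutes' := fun c => by
        have e1 := h4 c (ofA 1) (ofA (algebraMap ℂ AA c)) (by
          funext x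
          show c = c • (1 : ℂ)
          rw [smul_eq_mul, mul_one])
        rw [h1 (ofA 1) rfl, mul_one] at e1
        exact e1 }
  refine ⟨toMM Φ, ?_⟩
  funext f
  show Φ (toA f) = φ f
  show φ (ofA (toA f)) = φ f
  rw [hof]

lemma Th_eq : Ch \ {φ : HH → ℂ | ∃ t : Circle, ∀ f : HH, φ f = f.1 (γ t)} = Th '' GGᶜ := by
  ext φ
  constructor
  · rintro ⟨h1, h2⟩
    obtain ⟨χ, rfl⟩ := exists_char h1
    refine ⟨χ, ?_, rfl⟩
    rintro ⟨t, ht⟩
    apply h2
    refine ⟨t, fun f => ?_⟩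
    rw [← ht]
    rfl
  · rintro ⟨χ, hχ, rfl⟩
    refine ⟨Th_mem χ, ?_⟩
    rintro ⟨t, ht⟩
    apply hχ
    refine ⟨t, ?_⟩
    apply CharacterSpace.ext
    intro g
    have := ht (ofA g)
    rw [Th, toA_ofA] at this
    exact this.symm

theorem final : IsPreconnected (Ch \ {φ : HH → ℂ | ∃ t : Circle, ∀ f : HH, φ f = f.1 (γ t)}) := by
  rw [Th_eq]
  exact GG_compl_preconn.image _ Th_cont.continuousOn

end Pool.Agent.H804R2.SC
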